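import Pool.Agent.H315_Clean.Cost
import Pool.Agent.H369R2.TD.Perm

/-!
# The random family
-/

open Finset Module

set_option autoImplicit false

namespace Pool.Agent.H315_Clean

open Pool.Agent.H369R2.TD

theorem card_le_of_ex {Ω : Type*} [Fintype Ω] [Nonempty Ω] (p : Ω → Prop) [DecidablePred p]
    {a : ℝ} (h : ex (fun ω => ind (p ω)) ≤ a) :
    ((univ.filter p).card : ℝ) ≤ a * (Fintype.card Ω : ℝ) := by
  rw [ex_ind, div_le_iff₀ (by exact_mod_cast Fintype.card_pos)] at h
  exact h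

/-- no member of `S` is chosen -/
theorem ex_hash {α : Type} [Fintype α] [DecidableEq α] (L : ℕ) (hL : 1 ≤ L) (S : Finset α) :
    ex (fun f : α → Fin L => ind (∀ A ∈ S, (f A).val ≠ 0)) = (1 - 1 / (L : ℝ)) ^ S.card := by
  classical
  have hne : Nonempty (Fin L) := ⟨⟨0, hL⟩⟩
  set z : Fin L := ⟨0, hL⟩ with hz
  have h1 : ∀ f : α → Fin L, ind (∀ A ∈ S, (f A).val ≠ 0) =
      ∏ A, (if A ∈ S then ind (f A ≠ z) else 1) := by
    intro f
    have h2 : ind (∀ A ∈ S, (f A).val ≠ 0) = ind (∀ A, (A ∈ S → f A ≠ z)) := by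
      apply ind_congr
      apply forall_congr'
      intro A
      apply imp_congr_right
      intro _
      rw [hz, Ne, Ne, Fin.ext_iff]
    rw [h2, ind_forall]
    refine prod_congr rfl fun A _ => ?_
    split_ifs with hA
    · apply ind_congr; tauto
    · exact ind_true (by tauto)
  rw [ex_congr h1, ex_pi (fun A w => if A ∈ S then ind (w ≠ z) else 1)]
  have h3 : ∀ A : α, ex (fun w : Fin L => if A ∈ S then ind (w ≠ z) else 1) =
      if A ∈ S then (1 - 1 / (L : ℝ)) else 1 := by
    intro A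
    split_ifs with hA
    · have e4 := ex_ind_notMem ({z} : Finset (Fin L))
      simp only [mem_singleton, card_singleton, Nat.cast_one, Fintype.card_fin] at e4
      exact e4
    · exact ex_const 1
  rw [prod_congr rfl fun A _ => h3 A, prod_ite, prod_const, prod_const_one, mul_one]
  congr 2
  ext A
  simp

theorem ex_hash_one {α : Type} [Fintype α] [DecidableEq α] (L : ℕ) (hL : 1 ≤ L) (A : α) :
    ex (fun f : α → Fin L => ind ((f A).val = 0)) = 1 / (L : ℝ) := by
  have hne : Nonempty (Fin L) := ⟨⟨0, hL⟩⟩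
  have h1 := ex_hash L hL ({A} : Finset α)
  rw [card_singleton, pow_one] at h1
  have h2 : ∀ f : α → Fin L, ind ((f A).val = 0) = 1 - ind (∀ B ∈ ({A} : Finset α),
      (f B).val ≠ 0) := by
    intro f
    by_cases h : (f A).val = 0
    · rw [ind_true h, ind_false]
      · ring
      · intro hh
        exact hh A (mem_singleton_self A) h
    · rw [ind_false h, ind_true]
      · ring
      · intro B hB
        rw [mem_singleton.1 hB]
        exact h
  rw [ex_congr h2, ex_sub, ex_const, h1]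
  ring

variable {F K : Type} [Field F] [Fintype F] [DecidableEq F] [Field K] [Fintype K] [DecidableEq K]
variable {m m' s s' d n : ℕ}

/-- outcomes -/
abbrev Om (F K : Type) (m m' n L : ℕ) :=
  (Fin n → Lab F K m m') × (Equiv.Perm (Fin n) × (Finset (Fin n) → Fin L))

/-- chosen in the first stage -/
def S1 (T : ℕ → Finset (Finset (Fin n))) {L : ℕ} (ω : Om F K m m' n L) (A : Finset (Fin n)) :
    Prop :=
  (Hy F (fun i => (ω.1 i).1) A ∧ Hy K (fun i => (ω.1 i).2) A) ∧
    (Ld F K (fun i => (ω.1 i).1) (fun i => (ω.1 i).2) A).map ω.2.1.toEmbedding ∈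
      T (Ld F K (fun i => (ω.1 i).1) (fun i => (ω.1 i).2) A).card

/-- chosen in the second stage -/
def S2 {L : ℕ} (ω : Om F K m m' n L) (A : Finset (Fin n)) : Prop :=
  Clean F K (fun i => (ω.1 i).1) (fun i => (ω.1 i).2) A ∧ (ω.2.2 A).val = 0

open Classical in
/-- the random family -/
noncomputable def fam (d : ℕ) (T : ℕ → Finset (Finset (Fin n))) {L : ℕ} (ω : Om F K m m' n L) :
    Finset (Finset (Fin n)) :=
  (powersetCard d univ).filter fun A => S1 T ω A ∨ S2 ω A

omit [Fintype F] [DecidableEq F] [Fintype K] [DecidableEq K] in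
/-- coverage -/
theorem covered {T : ℕ → Finset (Finset (Fin n))}
    (hT1 : ∀ k, ∀ Z ∈ T k, Z.card = k)
    (hT2 : ∀ k, ∀ Y : Finset (Fin n), Y.card = k + 1 → ∃ Z ∈ T k, Z ⊆ Y)
    {L : ℕ} (ω : Om F K m m' n L) (Y : Finset (Fin n)) (hY : Y.card = d + 1)
    (h1 : Fu F (fun i => (ω.1 i).1) Y) (h2 : Fu K (fun i => (ω.1 i).2) Y)
    (h3 : (Ld F K (fun i => (ω.1 i).1) (fun i => (ω.1 i).2) Y).Nonempty) :
    ∃ Z ∈ fam d T ω, Z ⊆ Y := by
  classical
  set P := Ld F K (fun i => (ω.1 i).1) (fun i => (ω.1 i).2) Y with hP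
  obtain ⟨k, hk⟩ : ∃ k, P.card = k + 1 := ⟨P.card - 1, by
    have := card_pos.2 h3
    omega⟩
  obtain ⟨Z, hZ, hZP⟩ := hT2 k (P.map ω.2.1.toEmbedding) (by rw [card_map, hk])
  have hZc : Z.card = k := hT1 k Z hZ
  -- the missing element
  obtain ⟨b, hb, hbZ⟩ : ∃ b ∈ P.map ω.2.1.toEmbedding, b ∉ Z := by
    by_contra hcon
    push Not at hcon
    have h4 : P.map ω.2.1.toEmbedding ⊆ Z := hcon
    have h5 := card_le_card h4
    rw [card_map, hk, hZc] at h5
    omega
  obtain ⟨a, haP, hab⟩ := mem_map.1 hb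
  have hZe : (P.erase a).map ω.2.1.toEmbedding = Z := by
    symm
    apply eq_of_subset_of_card_le
    · intro z hz
      obtain ⟨y, hyP, hyz⟩ := mem_map.1 (hZP hz)
      rw [mem_map]
      refine ⟨y, mem_erase.2 ⟨?_, hyP⟩, hyz⟩
      rintro rfl
      apply hbZ
      rw [← hab, hyz]
      exact hz
    · rw [card_map, card_erase_of_mem haP, hk, hZc]
      omega
  have haP' := haP
  rw [hP, mem_Ld] at haP'
  obtain ⟨haY, hc1, hc2⟩ := haP'
  refine ⟨Y.erase a, ?_, erase_subset _ _⟩
  unfold fam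
  rw [mem_filter, mem_powersetCard]
  refine ⟨⟨subset_univ _, by rw [card_erase_of_mem haY, hY]; rfl⟩, Or.inl ?_⟩
  refine ⟨⟨hc1.hy haY h1, hc2.hy haY h2⟩, ?_⟩
  have h6 := Ld_erase (F := F) (K := K) haP
  rw [h6, ← hP, hZe, card_erase_of_mem haP, hk, Nat.add_sub_cancel]
  exact hZ

/-- cost of the first stage -/
noncomputable def sm (Q : ℝ) (d : ℕ) (δ : ℕ → ℝ) : ℝ :=
  1 / Q * ∑ k ∈ range (d + 1), (d.choose k : ℝ) * ((1 / Q) ^ k * (1 - 1 / Q) ^ (d - k) * δ k)

open Classical in
theorem ex_S1 (hN : m + s = d + 1) (hN' : m' + s' = d + 1) (hm : 1 ≤ m) (hm' : 1 ≤ m')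
    {c c' : ℝ} (hc : 1 / (1 - (Fintype.card F : ℝ) ^ s / (Fintype.card F : ℝ) ^ (d + 1)) ≤ c)
    (hc' : 1 / (1 - (Fintype.card K : ℝ) ^ s' / (Fintype.card K : ℝ) ^ (d + 1)) ≤ c')
    {T : ℕ → Finset (Finset (Fin n))} {δ : ℕ → ℝ} (h0 : ∀ k, 0 ≤ δ k)
    (hT1 : ∀ k, ∀ Z ∈ T k, Z.card = k)
    (hT3 : ∀ k, ((T k).card : ℝ) ≤ δ k * (n.choose k : ℝ)) {L : ℕ} (hL : 1 ≤ L)
    (A : Finset (Fin n)) (hA : A.card = d) :
    ex (fun ω : Om F K m m' n L => ind (S1 T ω A)) *
      ((1 - 1 / (Fintype.card F : ℝ)) * (1 - 1 / (Fintype.card K : ℝ))) ≤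
      c * c' * sm (Qc F K s s') d δ := by
  have hne : Nonempty (Fin L) := ⟨⟨0, hL⟩⟩
  have hF : (1 : ℝ) < (Fintype.card F : ℝ) := by exact_mod_cast Fintype.one_lt_card
  have hK : (1 : ℝ) < (Fintype.card K : ℝ) := by exact_mod_cast Fintype.one_lt_card
  have hF1 : 0 ≤ 1 - 1 / (Fintype.card F : ℝ) := by
    rw [sub_nonneg, div_le_one (by linarith)]; exact hF.le
  have hK1 : 0 ≤ 1 - 1 / (Fintype.card K : ℝ) := by
    rw [sub_nonneg, div_le_one (by linarith)]; exact hK.le
  have key : ex (fun ω : Om F K m m' n L => ind (S1 T ω A)) ≤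
      ex (fun y : Fin d → Lab F K m m' =>
        ind (Hy F (fun i => (y i).1) univ ∧ Hy K (fun i => (y i).2) univ) *
          δ (Ld F K (fun i => (y i).1) (fun i => (y i).2) univ).card) := by
    rw [ex_prod]
    have h1 : ∀ x : Fin n → Lab F K m m',
        ex (fun p : Equiv.Perm (Fin n) × (Finset (Fin n) → Fin L) => ind (S1 T (x, p) A)) ≤
        ind (Hy F (fun i => (x i).1) A ∧ Hy K (fun i => (x i).2) A) *
          δ (Ld F K (fun i => (x i).1) (fun i => (x i).2) A).card := by
      intro x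
      rw [ex_prod]
      have h2 : ∀ π : Equiv.Perm (Fin n),
          ex (fun f : Finset (Fin n) → Fin L => ind (S1 T (x, (π, f)) A)) =
          ind (Hy F (fun i => (x i).1) A ∧ Hy K (fun i => (x i).2) A) *
            ind ((Ld F K (fun i => (x i).1) (fun i => (x i).2) A).map π.toEmbedding ∈
              T (Ld F K (fun i => (x i).1) (fun i => (x i).2) A).card) := by
        intro π
        rw [← ind_and]
        exact ex_const (Ω := Finset (Fin n) → Fin L) (ind
          ((Hy F (fun i => (x i).1) A ∧ Hy K (fun i => (x i).2) A) ∧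
          (Ld F K (fun i => (x i).1) (fun i => (x i).2) A).map π.toEmbedding ∈
              T (Ld F K (fun i => (x i).1) (fun i => (x i).2) A).card))
      rw [ex_congr h2, ex_mul]
      apply mul_le_mul_of_nonneg_left _ (ind_nonneg _)
      rw [ex_ind, div_le_iff₀ (by exact_mod_cast Fintype.card_pos)]
      exact perm_count _ (hT1 _) (hT3 _) _ rfl
    refine (ex_mono h1).trans (le_of_eq ?_)
    let e : Fin d ↪ Fin n := (A.orderEmbOfFin hA).toEmbedding
    have he : univ.map e = A := Finset.map_orderEmbOfFin_univ A hA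
    have h3 := ex_comp (L := Lab F K m m') e (fun y : Fin d → Lab F K m m' =>
        ind (Hy F (fun i => (y i).1) univ ∧ Hy K (fun i => (y i).2) univ) *
          δ (Ld F K (fun i => (y i).1) (fun i => (y i).2) univ).card)
    rw [← h3]
    apply ex_congr
    intro x
    have e1 := hy_map (F := F) (fun i => (x i).1) e univ
    have e2 := hy_map (F := K) (fun i => (x i).2) e univ
    have e3 := Ld_map (F := F) (K := K) (fun i => (x i).1) (fun i => (x i).2) e univ
    rw [he] at e1 e2 e3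
    rw [e1, e2, e3, card_map]
  refine (mul_le_mul_of_nonneg_right key (mul_nonneg hF1 hK1)).trans ?_
  exact cost1 hN hN' hm hm' hc hc' δ h0

open Classical in
theorem ex_S2 (hN : m + s = d + 1) (hN' : m' + s' = d + 1) (hm : 1 ≤ m) (hm' : 1 ≤ m')
    {c c' : ℝ} (hc : 1 / (1 - (Fintype.card F : ℝ) ^ s / (Fintype.card F : ℝ) ^ (d + 1)) ≤ c)
    (hc' : 1 / (1 - (Fintype.card K : ℝ) ^ s' / (Fintype.card K : ℝ) ^ (d + 1)) ≤ c')
    {L : ℕ} (hL : 1 ≤ L) (A : Finset (Fin n)) (hA : A.card = d) :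
    ex (fun ω : Om F K m m' n L => ind (S2 ω A)) * (1 - 1 / (Fintype.card K : ℝ)) ≤
      c * c' * p1 (Fintype.card F) ((Fintype.card F : ℝ) ^ s) (Qc F K s s') (d + 1) * (1 / L) := by
  have hne : Nonempty (Fin L) := ⟨⟨0, hL⟩⟩
  have key : ex (fun ω : Om F K m m' n L => ind (S2 ω A)) =
      ex (fun y : Fin d → Lab F K m m' =>
        ind (Clean F K (fun i => (y i).1) (fun i => (y i).2) univ)) * (1 / L) := by
    rw [ex_prod]
    have h1 : ∀ x : Fin n → Lab F K m m',
        ex (fun p : Equiv.Perm (Fin n) × (Finset (Fin n) → Fin L) =>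
          ind (S2 (F := F) (K := K) (m := m) (m' := m') (x, p) A)) =
        ind (Clean F K (fun i => (x i).1) (fun i => (x i).2) A) * (1 / L) := by
      intro x
      rw [ex_prod]
      have h2 : ∀ π : Equiv.Perm (Fin n),
          ex (fun f : Finset (Fin n) → Fin L =>
            ind (S2 (F := F) (K := K) (m := m) (m' := m') (x, (π, f)) A)) =
          ind (Clean F K (fun i => (x i).1) (fun i => (x i).2) A) * (1 / L) := by
        intro π
        rw [← ex_hash_one L hL A, ← ex_mul]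
        apply ex_congr
        intro f
        rw [← ind_and]
        rfl
      rw [ex_congr h2, ex_const]
    rw [ex_congr h1, ex_mul_right]
    congr 1
    let e : Fin d ↪ Fin n := (A.orderEmbOfFin hA).toEmbedding
    have he : univ.map e = A := Finset.map_orderEmbOfFin_univ A hA
    have h3 := ex_comp (L := Lab F K m m') e (fun y : Fin d → Lab F K m m' =>
        ind (Clean F K (fun i => (y i).1) (fun i => (y i).2) univ))
    rw [← h3]
    apply ex_congr
    intro x
    have e1 := clean_map (F := F) (K := K) (fun i => (x i).1) (fun i => (x i).2) e univ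
    rw [he] at e1
    exact ind_congr e1
  rw [key]
  have h4 := cost2 (F := F) (K := K) hN hN' hm hm' hc hc'
  have hL0 : (0 : ℝ) ≤ 1 / (L : ℝ) := by positivity
  calc _ = (ex (fun y : Fin d → Lab F K m m' =>
        ind (Clean F K (fun i => (y i).1) (fun i => (y i).2) univ)) *
          (1 - 1 / (Fintype.card K : ℝ))) * (1 / L) := by ring
    _ ≤ _ := mul_le_mul_of_nonneg_right h4 hL0

open Classical in
theorem ex_uncovered (hN : m + s = d + 1) (hN' : m' + s' = d + 1) (hm : 1 ≤ m) (hm' : 1 ≤ m')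
    (hs : 1 ≤ s) (hs' : 1 ≤ s')
    {c c' : ℝ} (hc : 1 / (1 - (Fintype.card F : ℝ) ^ s / (Fintype.card F : ℝ) ^ (d + 1)) ≤ c)
    (hc' : 1 / (1 - (Fintype.card K : ℝ) ^ s' / (Fintype.card K : ℝ) ^ (d + 1)) ≤ c')
    {T : ℕ → Finset (Finset (Fin n))}
    (hT1 : ∀ k, ∀ Z ∈ T k, Z.card = k)
    (hT2 : ∀ k, ∀ Y : Finset (Fin n), Y.card = k + 1 → ∃ Z ∈ T k, Z ⊆ Y)
    {L : ℕ} (hL : 1 ≤ L) {M : ℝ} {N₀ : ℕ} (hM : (N₀ : ℝ) < M)
    (Y : Finset (Fin n)) (hY : Y.card = d + 1) :
    ex (fun ω : Om F K m m' n L => ind (¬ ∃ Z ∈ fam d T ω, Z ⊆ Y)) ≤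
      (Fintype.card F : ℝ) ^ m / (Fintype.card F : ℝ) ^ (d + 1) +
      (Fintype.card K : ℝ) ^ m' / (Fintype.card K : ℝ) ^ (d + 1) +
      c * c' * (vr (Fintype.card F) ((Fintype.card F : ℝ) ^ s) (Qc F K s s') M (d + 1) /
        (M - N₀) ^ 2 + (1 - 1 / (L : ℝ)) ^ N₀ * pz (Qc F K s s') (d + 1)) := by
  have hne : Nonempty (Fin L) := ⟨⟨0, hL⟩⟩
  have hF : (1 : ℝ) < (Fintype.card F : ℝ) := by exact_mod_cast Fintype.one_lt_card
  have hK : (1 : ℝ) < (Fintype.card K : ℝ) := by exact_mod_cast Fintype.one_lt_card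
  have hlt : 0 < 1 - (Fintype.card F : ℝ) ^ s / (Fintype.card F : ℝ) ^ (d + 1) := by
    rw [sub_pos, div_lt_one (by positivity)]
    exact pow_lt_pow_right₀ hF (by omega)
  have hlt' : 0 < 1 - (Fintype.card K : ℝ) ^ s' / (Fintype.card K : ℝ) ^ (d + 1) := by
    rw [sub_pos, div_lt_one (by positivity)]
    exact pow_lt_pow_right₀ hK (by omega)
  have hcc : 0 ≤ c * c' := mul_nonneg (le_trans (by positivity) hc) (le_trans (by positivity) hc')
  have hL1 : (1 : ℝ) ≤ (L : ℝ) := by exact_mod_cast hL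
  have hβ0 : 0 ≤ 1 - 1 / (L : ℝ) := by
    rw [sub_nonneg, div_le_one (by linarith)]; exact hL1
  have hβ1 : 1 - 1 / (L : ℝ) ≤ 1 := by
    have : 0 ≤ 1 / (L : ℝ) := by positivity
    linarith
  let cl : (Fin n → Lab F K m m') → Finset (Fin n) := fun x =>
    Y.filter fun a => Clean F K (fun i => (x i).1) (fun i => (x i).2) (Y.erase a)
  -- pointwise bound
  have h1 : ∀ ω : Om F K m m' n L, ind (¬ ∃ Z ∈ fam d T ω, Z ⊆ Y) ≤
      (ind (¬ Fu F (fun i => (ω.1 i).1) Y) + ind (¬ Fu K (fun i => (ω.1 i).2) Y)) +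
      ind (Fu F (fun i => (ω.1 i).1) Y) * (ind (Fu K (fun i => (ω.1 i).2) Y) *
        (ind (Ld F K (fun i => (ω.1 i).1) (fun i => (ω.1 i).2) Y = ∅) *
          ind (∀ A ∈ (cl ω.1).image (fun a => Y.erase a), (ω.2.2 A).val ≠ 0))) := by
    intro ω
    by_cases hc0 : ∃ Z ∈ fam d T ω, Z ⊆ Y
    · rw [ind_false (by simpa using hc0)]
      exact add_nonneg (add_nonneg (ind_nonneg _) (ind_nonneg _))
        (mul_nonneg (ind_nonneg _) (mul_nonneg (ind_nonneg _)
          (mul_nonneg (ind_nonneg _) (ind_nonneg _))))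
    · rw [ind_true hc0]
      by_cases f1 : Fu F (fun i => (ω.1 i).1) Y
      · by_cases f2 : Fu K (fun i => (ω.1 i).2) Y
        · have f3 : Ld F K (fun i => (ω.1 i).1) (fun i => (ω.1 i).2) Y = ∅ := by
            by_contra hcon
            exact hc0 (covered hT1 hT2 ω Y hY f1 f2 (nonempty_iff_ne_empty.2 hcon))
          have f4 : ∀ A ∈ (cl ω.1).image (fun a => Y.erase a), (ω.2.2 A).val ≠ 0 := by
            intro A hA hA0
            obtain ⟨a, ha, rfl⟩ := mem_image.1 hA
            have ha' := mem_filter.1 ha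
            apply hc0
            refine ⟨Y.erase a, ?_, erase_subset _ _⟩
            unfold fam
            rw [mem_filter, mem_powersetCard]
            exact ⟨⟨subset_univ _, by rw [card_erase_of_mem ha'.1, hY]; rfl⟩,
              Or.inr ⟨ha'.2, hA0⟩⟩
          rw [ind_false (not_not.2 f1), ind_false (not_not.2 f2), ind_true f1, ind_true f2,
            ind_true f3, ind_true f4]
          norm_num
        · rw [ind_true f2, ind_false f2]
          have := ind_nonneg (¬ Fu F (fun i => (ω.1 i).1) Y)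
          linarith
      · rw [ind_true f1, ind_false f1]
        have := ind_nonneg (¬ Fu K (fun i => (ω.1 i).2) Y)
        linarith
  refine (ex_mono h1).trans ?_
  rw [ex_add, ex_add]
  let e : Fin (d + 1) ↪ Fin n := (Y.orderEmbOfFin hY).toEmbedding
  have he : univ.map e = Y := Finset.map_orderEmbOfFin_univ Y hY
  apply add_le_add
  apply add_le_add
  · rw [ex_prod]
    have h2 : ∀ x : Fin n → Lab F K m m',
        ex (fun p : Equiv.Perm (Fin n) × (Finset (Fin n) → Fin L) =>
          ind (¬ Fu F (fun i => ((x, p).1 i).1) Y)) =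
        ind (¬ Fu F (fun i => (x (e i)).1) univ) := by
      intro x
      have e1 := fu_map (F := F) (fun i => (x i).1) e univ
      rw [he] at e1
      rw [← e1]
      exact ex_const (Ω := Equiv.Perm (Fin n) × (Finset (Fin n) → Fin L))
        (ind (¬ Fu F (fun i => (x i).1) Y))
    rw [ex_congr h2, ex_comp (L := Lab F K m m') e
      (fun y : Fin (d + 1) → Lab F K m m' => ind (¬ Fu F (fun i => (y i).1) univ)),
      ex_split (fun (X : Fin (d + 1) → Fin m → F) (_ : Fin (d + 1) → Fin m' → K) =>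
        ind (¬ Fu F X univ))]
    have h3 : ∀ X : Fin (d + 1) → Fin m → F,
        ex (fun _ : Fin (d + 1) → Fin m' → K => ind (¬ Fu F X univ)) = ind (¬ Fu F X univ) :=
      fun X => ex_const _
    rw [ex_congr h3]
    have h4 := ex_not_fu (F := F) (ι := Fin (d + 1)) m
    rw [Fintype.card_fin] at h4
    exact h4
  · rw [ex_prod]
    have h2 : ∀ x : Fin n → Lab F K m m',
        ex (fun p : Equiv.Perm (Fin n) × (Finset (Fin n) → Fin L) =>
          ind (¬ Fu K (fun i => ((x, p).1 i).2) Y)) =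
        ind (¬ Fu K (fun i => (x (e i)).2) univ) := by
      intro x
      have e1 := fu_map (F := K) (fun i => (x i).2) e univ
      rw [he] at e1
      rw [← e1]
      exact ex_const (Ω := Equiv.Perm (Fin n) × (Finset (Fin n) → Fin L))
        (ind (¬ Fu K (fun i => (x i).2) Y))
    rw [ex_congr h2, ex_comp (L := Lab F K m m') e
      (fun y : Fin (d + 1) → Lab F K m m' => ind (¬ Fu K (fun i => (y i).2) univ)),
      ex_split (fun (_ : Fin (d + 1) → Fin m → F) (X : Fin (d + 1) → Fin m' → K) =>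
        ind (¬ Fu K X univ)), ex_const]
    have h4 := ex_not_fu (F := K) (ι := Fin (d + 1)) m'
    rw [Fintype.card_fin] at h4
    exact h4
  · rw [ex_prod]
    have h2 : ∀ x : Fin n → Lab F K m m',
        ex (fun p : Equiv.Perm (Fin n) × (Finset (Fin n) → Fin L) =>
          ind (Fu F (fun i => ((x, p).1 i).1) Y) * (ind (Fu K (fun i => ((x, p).1 i).2) Y) *
        (ind (Ld F K (fun i => ((x, p).1 i).1) (fun i => ((x, p).1 i).2) Y = ∅) *
          ind (∀ A ∈ (cl (x, p).1).image (fun a => Y.erase a), ((x, p).2.2 A).val ≠ 0)))) =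
        ind (Fu F (fun i => (x (e i)).1) univ) * (ind (Fu K (fun i => (x (e i)).2) univ) *
          (ind (Ld F K (fun i => (x (e i)).1) (fun i => (x (e i)).2) univ = ∅) *
            (1 - 1 / (L : ℝ)) ^ (univ.filter fun a => Clean F K (fun i => (x (e i)).1)
              (fun i => (x (e i)).2) (univ.erase a)).card)) := by
      intro x
      have e1 := fu_map (F := F) (fun i => (x i).1) e univ
      have e2 := fu_map (F := K) (fun i => (x i).2) e univ
      have e3 := Ld_map (F := F) (K := K) (fun i => (x i).1) (fun i => (x i).2) e univ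
      rw [he] at e1 e2 e3
      have e4 : (Ld F K (fun i => (x i).1) (fun i => (x i).2) Y = ∅) ↔
          (Ld F K (fun i => (x (e i)).1) (fun i => (x (e i)).2) univ = ∅) := by
        rw [e3, map_eq_empty]
      have e5 : ((cl x).image (fun a => Y.erase a)).card =
          (univ.filter fun a => Clean F K (fun i => (x (e i)).1)
              (fun i => (x (e i)).2) (univ.erase a)).card := by
        rw [card_image_of_injOn]
        · have e6 : cl x = (univ.filter fun a => Clean F K (fun i => (x (e i)).1)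
              (fun i => (x (e i)).2) (univ.erase a)).map e := by
            ext b
            simp only [cl, mem_filter, mem_map]
            constructor
            · rintro ⟨hbY, hb⟩
              rw [← he] at hbY
              obtain ⟨i, _, rfl⟩ := mem_map.1 hbY
              refine ⟨i, ⟨mem_univ _, ?_⟩, rfl⟩
              rw [← he, ← map_erase, clean_map] at hb
              exact hb
            · rintro ⟨i, ⟨_, hi⟩, rfl⟩
              refine ⟨?_, ?_⟩
              · rw [← he]; exact mem_map_of_mem _ (mem_univ i)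
              · rw [← he, ← map_erase, clean_map]
                exact hi
          rw [e6, card_map]
        · intro a ha b hb hab
          have ha' : a ∈ Y := (mem_filter.1 (mem_coe.1 ha)).1
          have hb' : b ∈ Y := (mem_filter.1 (mem_coe.1 hb)).1
          exact Finset.erase_injOn Y ha' hb' hab
      have e7 : ex (fun p : Equiv.Perm (Fin n) × (Finset (Fin n) → Fin L) =>
          ind (∀ A ∈ (cl x).image (fun a => Y.erase a), (p.2 A).val ≠ 0)) =
          (1 - 1 / (L : ℝ)) ^ (univ.filter fun a => Clean F K (fun i => (x (e i)).1)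
              (fun i => (x (e i)).2) (univ.erase a)).card := by
        rw [ex_prod]
        have e8 : ∀ π : Equiv.Perm (Fin n), ex (fun f : Finset (Fin n) → Fin L =>
            ind (∀ A ∈ (cl x).image (fun a => Y.erase a), ((π, f).2 A).val ≠ 0)) =
            (1 - 1 / (L : ℝ)) ^ ((cl x).image (fun a => Y.erase a)).card :=
          fun π => ex_hash L hL _
        rw [ex_congr e8, ex_const, e5]
      rw [← e7, ← ind_congr e1, ← ind_congr e2, ← ind_congr e4, ← ex_mul, ← ex_mul, ← ex_mul]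
    rw [ex_congr h2, ex_comp (L := Lab F K m m') e (fun y : Fin (d + 1) → Lab F K m m' =>
      ind (Fu F (fun i => (y i).1) univ) * (ind (Fu K (fun i => (y i).2) univ) *
          (ind (Ld F K (fun i => (y i).1) (fun i => (y i).2) univ = ∅) *
            (1 - 1 / (L : ℝ)) ^ (univ.filter fun a => Clean F K (fun i => (y i).1)
              (fun i => (y i).2) (univ.erase a)).card)))]
    exact fail1 hN hN' hm hm' hc hc' hcc hs hs' hM hβ0 hβ1

/-- the random family as a `Rnd` -/
theorem rnd_clean (F K : Type) [Field F] [Fintype F] [DecidableEq F] [Field K] [Fintype K]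
    [DecidableEq K] (hN : m + s = d + 1) (hN' : m' + s' = d + 1) (hm : 1 ≤ m) (hm' : 1 ≤ m')
    (hs : 1 ≤ s) (hs' : 1 ≤ s')
    {c c' : ℝ} (hc : 1 / (1 - (Fintype.card F : ℝ) ^ s / (Fintype.card F : ℝ) ^ (d + 1)) ≤ c)
    (hc' : 1 / (1 - (Fintype.card K : ℝ) ^ s' / (Fintype.card K : ℝ) ^ (d + 1)) ≤ c')
    {δ : ℕ → ℝ} (hδ : ∀ k, Tur k (δ k)) (h0 : ∀ k, 0 ≤ δ k)
    {L : ℕ} (hL : 1 ≤ L) {M : ℝ} {N₀ : ℕ} (hM : (N₀ : ℝ) < M) {a Φ : ℝ}
    (ha : c * c' * sm (Qc F K s s') d δ /
        ((1 - 1 / (Fintype.card F : ℝ)) * (1 - 1 / (Fintype.card K : ℝ))) +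
      c * c' * p1 (Fintype.card F) ((Fintype.card F : ℝ) ^ s) (Qc F K s s') (d + 1) * (1 / L) /
        (1 - 1 / (Fintype.card K : ℝ)) ≤ a)
    (hΦ : (Fintype.card F : ℝ) ^ m / (Fintype.card F : ℝ) ^ (d + 1) +
      (Fintype.card K : ℝ) ^ m' / (Fintype.card K : ℝ) ^ (d + 1) +
      c * c' * (vr (Fintype.card F) ((Fintype.card F : ℝ) ^ s) (Qc F K s s') M (d + 1) /
        (M - N₀) ^ 2 + (1 - 1 / (L : ℝ)) ^ N₀ * pz (Qc F K s s') (d + 1)) ≤ Φ) :
    ∀ n, Rnd n d a Φ := by
  classical
  intro n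
  have hne : Nonempty (Fin L) := ⟨⟨0, hL⟩⟩
  have hF : (1 : ℝ) < (Fintype.card F : ℝ) := by exact_mod_cast Fintype.one_lt_card
  have hK : (1 : ℝ) < (Fintype.card K : ℝ) := by exact_mod_cast Fintype.one_lt_card
  have hF1 : 0 < 1 - 1 / (Fintype.card F : ℝ) := by
    rw [sub_pos, div_lt_one (by linarith)]; exact hF
  have hK1 : 0 < 1 - 1 / (Fintype.card K : ℝ) := by
    rw [sub_pos, div_lt_one (by linarith)]; exact hK
  choose T hT1 hT2 hT3 using fun k => hδ k n
  refine ⟨Om F K m m' n L, inferInstance, inferInstance, fun ω => fam d T ω, ?_, ?_, ?_⟩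
  · intro ω Z hZ
    unfold fam at hZ
    rw [mem_filter, mem_powersetCard] at hZ
    exact hZ.1.2
  · intro Z hZ
    have h1 := ex_S1 (F := F) (K := K) (n := n) hN hN' hm hm' hc hc' h0 hT1 hT3 hL Z hZ
    have h2 := ex_S2 (F := F) (K := K) (n := n) hN hN' hm hm' hc hc' hL Z hZ
    rw [← le_div_iff₀ (mul_pos hF1 hK1)] at h1
    rw [← le_div_iff₀ hK1] at h2
    have h3 : ex (fun ω : Om F K m m' n L => ind (Z ∈ fam d T ω)) ≤ a := by
      refine le_trans ?_ (le_trans (add_le_add h1 h2) ha)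
      rw [← ex_add]
      apply ex_mono
      intro ω
      refine le_trans (ind_mono ?_) (ind_or_le _ _)
      intro h
      unfold fam at h
      exact (mem_filter.1 h).2
    have h4 := card_le_of_ex (fun ω : Om F K m m' n L => Z ∈ fam d T ω) h3
    convert h4 using 3
  · intro Y hY
    have h1 := ex_uncovered (F := F) (K := K) (n := n) hN hN' hm hm' hs hs' hc hc' hT1 hT2 hL hM
      Y hY
    have h4 := card_le_of_ex (fun ω : Om F K m m' n L => ¬ ∃ Z ∈ fam d T ω, Z ⊆ Y)
      (h1.trans hΦ)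
    convert h4 using 3

end Pool.Agent.H315_Clean
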