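import Pool.Agent.H315_Clean.Moment

/-!
# Costs of the two stages and the failure probability
-/

open Finset Module

set_option autoImplicit false

namespace Pool.Agent.H315_Clean

section pairs

variable {F K ι : Type} [Field F] [Fintype F] [DecidableEq F] [Field K] [Fintype K] [DecidableEq K]
  [Fintype ι] [DecidableEq ι]

theorem ex_split {κ A B : Type} [Fintype κ] [DecidableEq κ] [Fintype A] [Fintype B]
    (f : (κ → A) → (κ → B) → ℝ) :
    ex (fun x : κ → A × B => f (fun i => (x i).1) (fun i => (x i).2)) =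
      ex fun X => ex fun Y => f X Y := by
  rw [← ex_prod (fun p : (κ → A) × (κ → B) => f p.1 p.2),
    ← ex_equiv (Equiv.arrowProdEquivProdArrow κ (fun _ => A) (fun _ => B))]
  rfl

/-- comparison of the two models for pairs -/
theorem ex_pair_le {m s m' s' : ℕ} (hN : m + s = Fintype.card ι) (hN' : m' + s' = Fintype.card ι)
    (hm : 1 ≤ m) (hm' : 1 ≤ m')
    (h : Submodule F (ι → F) → Submodule K (ι → K) → ℝ) (h0 : ∀ U U', 0 ≤ h U U') {c c' : ℝ}
    (hc : 1 / (1 - (Fintype.card F : ℝ) ^ s / (Fintype.card F : ℝ) ^ (Fintype.card ι)) ≤ c)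
    (hc' : 1 / (1 - (Fintype.card K : ℝ) ^ s' / (Fintype.card K : ℝ) ^ (Fintype.card ι)) ≤ c') :
    ex (fun X : ι → Fin m → F => ex fun Y : ι → Fin m' → K =>
        ind (Fu F X univ) * (ind (Fu K Y univ) * h (rel X) (rel Y))) ≤
      c * c' * ex (fun g : ι → (Fin s → F) × (Fin s' → K) =>
        h (row fun i => (g i).1) (row fun i => (g i).2)) := by
  rw [ex_split (fun G H => h (row G) (row H))]
  have hF : (1 : ℝ) < (Fintype.card F : ℝ) := by exact_mod_cast Fintype.one_lt_card
  have hlt : 0 < 1 - (Fintype.card F : ℝ) ^ s / (Fintype.card F : ℝ) ^ (Fintype.card ι) := by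
    rw [sub_pos, div_lt_one (by positivity)]
    exact pow_lt_pow_right₀ hF (by omega)
  have hc0 : 0 ≤ c := le_trans (by positivity) hc
  calc ex (fun X : ι → Fin m → F => ex fun Y : ι → Fin m' → K =>
        ind (Fu F X univ) * (ind (Fu K Y univ) * h (rel X) (rel Y)))
      = ex (fun Y : ι → Fin m' → K => ex fun X : ι → Fin m → F =>
        ind (Fu F X univ) * (ind (Fu K Y univ) * h (rel X) (rel Y))) := ex_comm _
    _ ≤ ex (fun Y : ι → Fin m' → K => c * ex fun G : ι → Fin s → F =>
        ind (Fu K Y univ) * h (row G) (rel Y)) := by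
          apply ex_mono
          intro Y
          exact ex_rel_le hN hm (fun U => ind (Fu K Y univ) * h U (rel Y))
            (fun U => mul_nonneg (ind_nonneg _) (h0 _ _)) hc
    _ = c * ex (fun G : ι → Fin s → F => ex fun Y : ι → Fin m' → K =>
        ind (Fu K Y univ) * h (row G) (rel Y)) := by rw [ex_mul, ex_comm]
    _ ≤ c * ex (fun G : ι → Fin s → F => c' * ex fun H : ι → Fin s' → K =>
        h (row G) (row H)) := by
          apply mul_le_mul_of_nonneg_left _ hc0
          apply ex_mono
          intro G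
          exact ex_rel_le hN' hm' (fun U => h (row G) U) (fun U => h0 _ _) hc'
    _ = c * c' * ex (fun G : ι → Fin s → F => ex fun H : ι → Fin s' → K =>
        h (row G) (row H)) := by rw [ex_mul]; ring

end pairs

section cons

variable {F K : Type} [Field F] [Fintype F] [DecidableEq F] [Field K] [Fintype K] [DecidableEq K]

theorem univ_cons (d : ℕ) : (univ : Finset (Fin (d + 1))) =
    insert 0 ((univ : Finset (Fin d)).map (Fin.succEmb d)) := by
  ext i
  simp only [mem_univ, mem_insert, mem_map, true_and, true_iff]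
  rcases Fin.eq_zero_or_eq_succ i with h | ⟨j, h⟩
  · exact Or.inl h
  · exact Or.inr ⟨j, h.symm⟩

theorem univ_erase_zero (d : ℕ) : (univ : Finset (Fin (d + 1))).erase 0 =
    (univ : Finset (Fin d)).map (Fin.succEmb d) := by
  rw [univ_cons, erase_insert]
  simp only [mem_map, mem_univ, true_and, not_exists]
  intro j hj
  exact Fin.succ_ne_zero j hj

theorem ex_cons {L : Type} [Fintype L] {d : ℕ} (f : (Fin (d + 1) → L) → ℝ) :
    ex f = ex fun y : Fin d → L => ex fun u : L => f (Fin.cons u y) := by
  rw [ex_comm, ← ex_prod (fun p : L × (Fin d → L) => f (Fin.cons p.1 p.2)),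
    ← ex_equiv (Fin.consEquiv fun _ => L)]
  try rfl

theorem ex_notMem_sub {m : ℕ} (U : Submodule F (Fin m → F))
    (hU : finrank F U + 1 = finrank F (Fin m → F)) :
    ex (fun u : Fin m → F => ind (u ∉ U)) = 1 - 1 / (Fintype.card F : ℝ) := by
  classical
  have h1 := ex_ind_notMem (univ.filter fun u : Fin m → F => u ∈ U)
  have h2 : (fun u : Fin m → F => ind (u ∉ univ.filter fun u : Fin m → F => u ∈ U)) =
      fun u => ind (u ∉ U) := by
    funext u
    apply ind_congr
    simp
  rw [h2] at h1
  rw [h1]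
  have h3 : (univ.filter fun u : Fin m → F => u ∈ U).card = Fintype.card F ^ (finrank F U) := by
    rw [← Module.card_eq_pow_finrank (K := F) (V := U), ← Fintype.card_subtype]
  rw [h3, Module.card_eq_pow_finrank (K := F) (V := Fin m → F), ← hU]
  push_cast
  have : (Fintype.card F : ℝ) ≠ 0 := Nat.cast_ne_zero.2 Fintype.card_ne_zero
  rw [pow_succ]
  field_simp

variable {m m' d : ℕ}

theorem comp_succ {L : Type} (u : L) (y : Fin d → L) :
    (fun i => (Fin.cons u y : Fin (d + 1) → L) (Fin.succEmb d i)) = y := by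
  funext i
  simp

/-- the label space -/
abbrev Lab (F K : Type) (m m' : ℕ) := (Fin m → F) × (Fin m' → K)

theorem sp_cons1 (u : Lab F K m m') (y : Fin d → Lab F K m m') :
    sp F (fun i => ((Fin.cons u y : Fin (d + 1) → Lab F K m m') i).1)
      ((univ : Finset (Fin d)).map (Fin.succEmb d)) = sp F (fun i => (y i).1) univ := by
  rw [sp_map]
  congr 1

theorem sp_cons2 (u : Lab F K m m') (y : Fin d → Lab F K m m') :
    sp K (fun i => ((Fin.cons u y : Fin (d + 1) → Lab F K m m') i).2)
      ((univ : Finset (Fin d)).map (Fin.succEmb d)) = sp K (fun i => (y i).2) univ := by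
  rw [sp_map]
  congr 1

theorem Ld_cons (u : Lab F K m m') (y : Fin d → Lab F K m m') :
    Ld F K (fun i => ((Fin.cons u y : Fin (d + 1) → Lab F K m m') i).1)
      (fun i => ((Fin.cons u y : Fin (d + 1) → Lab F K m m') i).2)
      ((univ : Finset (Fin d)).map (Fin.succEmb d)) =
      (Ld F K (fun i => (y i).1) (fun i => (y i).2) univ).map (Fin.succEmb d) := by
  rw [Ld_map]
  congr 1

theorem clean_cons (u : Lab F K m m') (y : Fin d → Lab F K m m') :
    Clean F K (fun i => ((Fin.cons u y : Fin (d + 1) → Lab F K m m') i).1)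
      (fun i => ((Fin.cons u y : Fin (d + 1) → Lab F K m m') i).2)
      ((univ : Finset (Fin d)).map (Fin.succEmb d)) ↔
      Clean F K (fun i => (y i).1) (fun i => (y i).2) univ := by
  rw [clean_map]
  rfl

theorem zero_notMem_map (d : ℕ) : (0 : Fin (d + 1)) ∉ (univ : Finset (Fin d)).map (Fin.succEmb d) := by
  simp only [mem_map, mem_univ, true_and, not_exists]
  intro j hj
  exact Fin.succ_ne_zero j hj

/-- weights of the first stage, before the transfer -/
theorem cost1_aux (w : ℕ → ℝ) (hw : ∀ k, 0 ≤ w k) :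
    ex (fun y : Fin d → Lab F K m m' =>
        ind (Hy F (fun i => (y i).1) univ ∧ Hy K (fun i => (y i).2) univ) *
          w (Ld F K (fun i => (y i).1) (fun i => (y i).2) univ).card) *
        ((1 - 1 / (Fintype.card F : ℝ)) * (1 - 1 / (Fintype.card K : ℝ))) ≤
      ex (fun y : Fin (d + 1) → Lab F K m m' => ind (Fu F (fun i => (y i).1) univ) *
        (ind (Fu K (fun i => (y i).2) univ) *
          (ind (0 ∈ Ld F K (fun i => (y i).1) (fun i => (y i).2) univ) *
            w ((Ld F K (fun i => (y i).1) (fun i => (y i).2) univ).card - 1)))) := by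
  rw [ex_cons, ← ex_mul_right]
  apply ex_mono
  intro y
  by_cases hH : Hy F (fun i => (y i).1) univ ∧ Hy K (fun i => (y i).2) univ
  · rw [ind_true hH, one_mul]
    have h1 : ((1 - 1 / (Fintype.card F : ℝ)) * (1 - 1 / (Fintype.card K : ℝ))) =
        ex (fun u : Lab F K m m' => ind (u.1 ∉ sp F (fun i => (y i).1) univ) *
          ind (u.2 ∉ sp K (fun i => (y i).2) univ)) := by
      rw [ex_prod]
      have e1 : ∀ u₁ : Fin m → F, ex (fun u₂ : Fin m' → K =>
          ind ((u₁, u₂).1 ∉ sp F (fun i => (y i).1) univ) *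
            ind ((u₁, u₂).2 ∉ sp K (fun i => (y i).2) univ)) =
          ind (u₁ ∉ sp F (fun i => (y i).1) univ) * (1 - 1 / (Fintype.card K : ℝ)) := by
        intro u₁
        show ex (fun u₂ : Fin m' → K => ind (u₁ ∉ sp F (fun i => (y i).1) univ) *
            ind (u₂ ∉ sp K (fun i => (y i).2) univ)) = _
        rw [ex_mul]
        congr 1
        exact ex_notMem_sub _ hH.2
      rw [ex_congr e1, ex_mul_right]
      congr 1
      exact (ex_notMem_sub _ hH.1).symm
    rw [h1, ← ex_mul]
    apply ex_mono
    intro u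
    by_cases hu : u.1 ∉ sp F (fun i => (y i).1) univ ∧ u.2 ∉ sp K (fun i => (y i).2) univ
    · rw [ind_true hu.1, ind_true hu.2, mul_one, mul_one]
      have hx : (fun i => ((Fin.cons u y : Fin (d + 1) → Lab F K m m') i).1) 0 ∉
          sp F (fun i => ((Fin.cons u y : Fin (d + 1) → Lab F K m m') i).1)
            ((univ : Finset (Fin d)).map (Fin.succEmb d)) := by
        rw [sp_cons1]; exact hu.1
      have hy : (fun i => ((Fin.cons u y : Fin (d + 1) → Lab F K m m') i).2) 0 ∉
          sp K (fun i => ((Fin.cons u y : Fin (d + 1) → Lab F K m m') i).2)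
            ((univ : Finset (Fin d)).map (Fin.succEmb d)) := by
        rw [sp_cons2]; exact hu.2
      have hH1 : Hy F (fun i => ((Fin.cons u y : Fin (d + 1) → Lab F K m m') i).1)
          ((univ : Finset (Fin d)).map (Fin.succEmb d)) := by
        unfold Hy; rw [sp_cons1]; exact hH.1
      have hH2 : Hy K (fun i => ((Fin.cons u y : Fin (d + 1) → Lab F K m m') i).2)
          ((univ : Finset (Fin d)).map (Fin.succEmb d)) := by
        unfold Hy; rw [sp_cons2]; exact hH.2
      have f1 := hH1.fu hx
      have f2 := hH2.fu hy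
      rw [← univ_cons] at f1 f2
      have f3 := Ld_insert (F := F) (K := K) (zero_notMem_map d) hx hy
      rw [← univ_cons, Ld_cons] at f3
      rw [ind_true f1, ind_true f2, one_mul, one_mul, f3, ind_true (mem_insert_self _ _), one_mul,
        card_insert_of_notMem, card_map, Nat.add_sub_cancel]
      intro h0
      rw [mem_map] at h0
      obtain ⟨j, _, hj⟩ := h0
      exact Fin.succ_ne_zero j hj
    · have h2 : ind (u.1 ∉ sp F (fun i => (y i).1) univ) *
          ind (u.2 ∉ sp K (fun i => (y i).2) univ) = 0 := by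
        rw [← ind_and]; exact ind_false hu
      rw [h2, mul_zero]
      exact mul_nonneg (ind_nonneg _) (mul_nonneg (ind_nonneg _)
        (mul_nonneg (ind_nonneg _) (hw _)))
  · rw [ind_false hH, zero_mul, zero_mul]
    exact ex_nonneg fun u => mul_nonneg (ind_nonneg _) (mul_nonneg (ind_nonneg _)
        (mul_nonneg (ind_nonneg _) (hw _)))

/-- clean sets, before the transfer -/
theorem cost2_aux :
    ex (fun y : Fin d → Lab F K m m' => ind (Clean F K (fun i => (y i).1) (fun i => (y i).2) univ)) *
        (1 - 1 / (Fintype.card K : ℝ)) ≤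
      ex (fun y : Fin (d + 1) → Lab F K m m' => ind (Fu F (fun i => (y i).1) univ) *
        (ind (Fu K (fun i => (y i).2) univ) *
          ind (cln (rel fun i => (y i).1) (rel fun i => (y i).2) (0 : Fin (d + 1))))) := by
  rw [ex_cons, ← ex_mul_right]
  apply ex_mono
  intro y
  by_cases hC : Clean F K (fun i => (y i).1) (fun i => (y i).2) univ
  · rw [ind_true hC, one_mul]
    have h1 : (1 - 1 / (Fintype.card K : ℝ)) =
        ex (fun u : Lab F K m m' => ind (u.2 ∉ sp K (fun i => (y i).2) univ)) := by
      rw [ex_prod]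
      have e1 : ∀ u₁ : Fin m → F, ex (fun u₂ : Fin m' → K =>
            ind ((u₁, u₂).2 ∉ sp K (fun i => (y i).2) univ)) =
          (1 - 1 / (Fintype.card K : ℝ)) := fun u₁ => ex_notMem_sub _ hC.2.1
      rw [ex_congr e1, ex_const]
    rw [h1]
    apply ex_mono
    intro u
    by_cases hu : u.2 ∉ sp K (fun i => (y i).2) univ
    · rw [ind_true hu]
      have hy : (fun i => ((Fin.cons u y : Fin (d + 1) → Lab F K m m') i).2) 0 ∉
          sp K (fun i => ((Fin.cons u y : Fin (d + 1) → Lab F K m m') i).2)
            ((univ : Finset (Fin d)).map (Fin.succEmb d)) := by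
        rw [sp_cons2]; exact hu
      have hH2 : Hy K (fun i => ((Fin.cons u y : Fin (d + 1) → Lab F K m m') i).2)
          ((univ : Finset (Fin d)).map (Fin.succEmb d)) := by
        unfold Hy; rw [sp_cons2]; exact hC.2.1
      have f2 := hH2.fu hy
      rw [← univ_cons] at f2
      have f1 : Fu F (fun i => ((Fin.cons u y : Fin (d + 1) → Lab F K m m') i).1) univ := by
        unfold Fu
        rw [eq_top_iff]
        have h3 : sp F (fun i => ((Fin.cons u y : Fin (d + 1) → Lab F K m m') i).1)
            ((univ : Finset (Fin d)).map (Fin.succEmb d)) = ⊤ := by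
          rw [sp_cons1]; exact hC.1
        rw [← h3]
        exact sp_mono _ (subset_univ _)
      have f3 : Clean F K (fun i => ((Fin.cons u y : Fin (d + 1) → Lab F K m m') i).1)
          (fun i => ((Fin.cons u y : Fin (d + 1) → Lab F K m m') i).2) (univ.erase 0) := by
        rw [univ_erase_zero, clean_cons]
        exact hC
      rw [clean_univ_erase 0 f1 f2] at f3
      rw [ind_true f1, ind_true f2, ind_true f3]
      norm_num
    · rw [ind_false hu]
      exact mul_nonneg (ind_nonneg _) (mul_nonneg (ind_nonneg _) (ind_nonneg _))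
  · rw [ind_false hC, zero_mul]
    exact ex_nonneg fun u => mul_nonneg (ind_nonneg _) (mul_nonneg (ind_nonneg _) (ind_nonneg _))

end cons

section final

variable {F K : Type} [Field F] [Fintype F] [DecidableEq F] [Field K] [Fintype K] [DecidableEq K]
variable {m m' s s' d : ℕ}

/-- the size of the column space -/
noncomputable def Qc (F K : Type) [Fintype F] [Fintype K] (s s' : ℕ) : ℝ :=
  (Fintype.card F : ℝ) ^ s * (Fintype.card K : ℝ) ^ s'

omit [DecidableEq F] [DecidableEq K] [Field F] [Field K] in
theorem card_cols [DecidableEq F] [DecidableEq K] :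
    (Fintype.card ((Fin s → F) × (Fin s' → K)) : ℝ) = Qc F K s s' := by
  unfold Qc
  rw [Fintype.card_prod, Fintype.card_fun, Fintype.card_fun, Fintype.card_fin, Fintype.card_fin]
  push_cast
  rfl

/-- cost of the first stage -/
theorem cost1 (hN : m + s = d + 1) (hN' : m' + s' = d + 1) (hm : 1 ≤ m) (hm' : 1 ≤ m')
    {c c' : ℝ} (hc : 1 / (1 - (Fintype.card F : ℝ) ^ s / (Fintype.card F : ℝ) ^ (d + 1)) ≤ c)
    (hc' : 1 / (1 - (Fintype.card K : ℝ) ^ s' / (Fintype.card K : ℝ) ^ (d + 1)) ≤ c')
    (w : ℕ → ℝ) (hw : ∀ k, 0 ≤ w k) :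
    ex (fun y : Fin d → Lab F K m m' =>
        ind (Hy F (fun i => (y i).1) univ ∧ Hy K (fun i => (y i).2) univ) *
          w (Ld F K (fun i => (y i).1) (fun i => (y i).2) univ).card) *
        ((1 - 1 / (Fintype.card F : ℝ)) * (1 - 1 / (Fintype.card K : ℝ))) ≤
      c * c' * (1 / Qc F K s s' * ∑ k ∈ range (d + 1),
        (d.choose k : ℝ) * ((1 / Qc F K s s') ^ k * (1 - 1 / Qc F K s s') ^ (d - k) * w k)) := by
  classical
  refine (cost1_aux w hw).trans ?_
  have h1 := ex_pair_le (F := F) (K := K) (ι := Fin (d + 1)) (m := m) (s := s) (m' := m')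
    (s' := s') (c := c) (c' := c') (by rw [Fintype.card_fin]; exact hN) (by rw [Fintype.card_fin]; exact hN') hm hm'
    (fun U U' => ind (0 ∈ ldr U U') * w ((ldr U U').card - 1))
    (fun U U' => mul_nonneg (ind_nonneg _) (hw _)) (by rw [Fintype.card_fin]; exact hc)
    (by rw [Fintype.card_fin]; exact hc')
  have h2 : ex (fun y : Fin (d + 1) → Lab F K m m' => ind (Fu F (fun i => (y i).1) univ) *
        (ind (Fu K (fun i => (y i).2) univ) *
          (ind (0 ∈ Ld F K (fun i => (y i).1) (fun i => (y i).2) univ) *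
            w ((Ld F K (fun i => (y i).1) (fun i => (y i).2) univ).card - 1)))) =
      ex (fun X : Fin (d + 1) → Fin m → F => ex fun Y : Fin (d + 1) → Fin m' → K =>
        ind (Fu F X univ) * (ind (Fu K Y univ) *
          (ind (0 ∈ ldr (rel X) (rel Y)) * w ((ldr (rel X) (rel Y)).card - 1)))) := by
    rw [← ex_split]
    apply ex_congr
    intro y
    rw [Ld_univ]
  rw [h2]
  refine h1.trans (le_of_eq ?_)
  congr 1
  have h3 := ex_zero (ι := Fin (d + 1)) (W := (Fin s → F) × (Fin s' → K)) 0 w
  rw [Fintype.card_fin, card_cols, Nat.add_sub_cancel] at h3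
  rw [← h3]
  apply ex_congr
  intro g
  have h4 : ldr (row fun i => (g i).1) (row fun i => (g i).2) = univ.filter fun b => g b = 0 := by
    ext b
    rw [ldr_row, mem_filter]
    simp [Prod.ext_iff]
  rw [h4]
  by_cases hg : g 0 = 0
  · rw [ind_true hg, ind_true (by simp [hg])]
    congr 2
    rw [← card_erase_of_mem (show (0 : Fin (d + 1)) ∈ univ.filter (fun b => g b = 0) by simp [hg])]
    congr 1
    ext b
    simp [mem_erase]
  · rw [ind_false hg, ind_false (by simp [hg]), zero_mul, zero_mul]

/-- probability of a clean set -/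
theorem cost2 (hN : m + s = d + 1) (hN' : m' + s' = d + 1) (hm : 1 ≤ m) (hm' : 1 ≤ m')
    {c c' : ℝ} (hc : 1 / (1 - (Fintype.card F : ℝ) ^ s / (Fintype.card F : ℝ) ^ (d + 1)) ≤ c)
    (hc' : 1 / (1 - (Fintype.card K : ℝ) ^ s' / (Fintype.card K : ℝ) ^ (d + 1)) ≤ c') :
    ex (fun y : Fin d → Lab F K m m' => ind (Clean F K (fun i => (y i).1) (fun i => (y i).2) univ)) *
        (1 - 1 / (Fintype.card K : ℝ)) ≤
      c * c' * p1 (Fintype.card F) ((Fintype.card F : ℝ) ^ s) (Qc F K s s') (d + 1) := by
  classical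
  refine cost2_aux.trans ?_
  have h1 := ex_pair_le (F := F) (K := K) (ι := Fin (d + 1)) (m := m) (s := s) (m' := m')
    (s' := s') (c := c) (c' := c') (by rw [Fintype.card_fin]; exact hN) (by rw [Fintype.card_fin]; exact hN') hm hm'
    (fun U U' => ind (cln U U' 0))
    (fun U U' => ind_nonneg _) (by rw [Fintype.card_fin]; exact hc)
    (by rw [Fintype.card_fin]; exact hc')
  have h2 : ex (fun y : Fin (d + 1) → Lab F K m m' => ind (Fu F (fun i => (y i).1) univ) *
        (ind (Fu K (fun i => (y i).2) univ) *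
          ind (cln (rel fun i => (y i).1) (rel fun i => (y i).2) (0 : Fin (d + 1))))) =
      ex (fun X : Fin (d + 1) → Fin m → F => ex fun Y : Fin (d + 1) → Fin m' → K =>
        ind (Fu F X univ) * (ind (Fu K Y univ) * ind (cln (rel X) (rel Y) (0 : Fin (d + 1))))) := by
    rw [← ex_split]
  rw [h2]
  refine h1.trans (le_of_eq ?_)
  congr 1
  have h3 := ex_cl (F := F) (ι := Fin (d + 1)) (W₁ := Fin s → F) (W₂ := Fin s' → K) 0
  rw [Fintype.card_fin, card_cols] at h3
  have h4 : (Fintype.card (Fin s → F) : ℝ) = (Fintype.card F : ℝ) ^ s := by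
    rw [Fintype.card_fun, Fintype.card_fin]; push_cast; rfl
  rw [h4] at h3
  unfold p1
  rw [← h3]
  apply ex_congr
  intro g
  apply ind_congr
  rw [cln_row]
  rfl

open Classical in
/-- failure probability on a full configuration -/
theorem fail1 (hN : m + s = d + 1) (hN' : m' + s' = d + 1) (hm : 1 ≤ m) (hm' : 1 ≤ m')
    {c c' : ℝ} (hc : 1 / (1 - (Fintype.card F : ℝ) ^ s / (Fintype.card F : ℝ) ^ (d + 1)) ≤ c)
    (hc' : 1 / (1 - (Fintype.card K : ℝ) ^ s' / (Fintype.card K : ℝ) ^ (d + 1)) ≤ c')
    (hcc : 0 ≤ c * c') (hs : 1 ≤ s) (hs' : 1 ≤ s')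
    {M β : ℝ} {N₀ : ℕ} (hM : (N₀ : ℝ) < M) (hβ0 : 0 ≤ β) (hβ1 : β ≤ 1) :
    ex (fun y : Fin (d + 1) → Lab F K m m' => ind (Fu F (fun i => (y i).1) univ) *
        (ind (Fu K (fun i => (y i).2) univ) *
          (ind (Ld F K (fun i => (y i).1) (fun i => (y i).2) univ = ∅) *
            β ^ (univ.filter fun a => Clean F K (fun i => (y i).1) (fun i => (y i).2)
              (univ.erase a)).card))) ≤
      c * c' * (vr (Fintype.card F) ((Fintype.card F : ℝ) ^ s) (Qc F K s s') M (d + 1) /
        (M - N₀) ^ 2 + β ^ N₀ * pz (Qc F K s s') (d + 1)) := by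
  have h1 := ex_pair_le (F := F) (K := K) (ι := Fin (d + 1)) (m := m) (s := s) (m' := m')
    (s' := s') (c := c) (c' := c') (by rw [Fintype.card_fin]; exact hN) (by rw [Fintype.card_fin]; exact hN') hm hm'
    (fun U U' => ind (ldr U U' = ∅) * β ^ (univ.filter fun a => cln U U' a).card)
    (fun U U' => mul_nonneg (ind_nonneg _) (pow_nonneg hβ0 _))
    (by rw [Fintype.card_fin]; exact hc) (by rw [Fintype.card_fin]; exact hc')
  have h2 : ex (fun y : Fin (d + 1) → Lab F K m m' => ind (Fu F (fun i => (y i).1) univ) *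
        (ind (Fu K (fun i => (y i).2) univ) *
          (ind (Ld F K (fun i => (y i).1) (fun i => (y i).2) univ = ∅) *
            β ^ (univ.filter fun a => Clean F K (fun i => (y i).1) (fun i => (y i).2)
              (univ.erase a)).card))) =
      ex (fun X : Fin (d + 1) → Fin m → F => ex fun Y : Fin (d + 1) → Fin m' → K =>
        ind (Fu F X univ) * (ind (Fu K Y univ) *
          (ind (ldr (rel X) (rel Y) = ∅) *
            β ^ (univ.filter fun a => cln (rel X) (rel Y) a).card))) := by
    rw [← ex_split]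
    apply ex_congr
    intro y
    by_cases hX : Fu F (fun i => (y i).1) univ
    · by_cases hY : Fu K (fun i => (y i).2) univ
      · rw [Ld_univ]
        have h3 : (univ.filter fun a => Clean F K (fun i => (y i).1) (fun i => (y i).2)
            (univ.erase a)) = univ.filter fun a => cln (rel fun i => (y i).1)
              (rel fun i => (y i).2) a := by
          apply filter_congr
          intro a _
          exact clean_univ_erase a hX hY
        rw [h3]
      · rw [ind_false hY]; ring
    · rw [ind_false hX]; ring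
  rw [h2]
  refine h1.trans ?_
  apply mul_le_mul_of_nonneg_left _ hcc
  have hcard : 2 * Fintype.card F ≤ Fintype.card ((Fin s → F) × (Fin s' → K)) := by
    rw [Fintype.card_prod, Fintype.card_fun, Fintype.card_fun, Fintype.card_fin, Fintype.card_fin]
    have e1 : Fintype.card F ≤ Fintype.card F ^ s := Nat.le_self_pow (by omega) _
    have e2 : Fintype.card K ≤ Fintype.card K ^ s' := Nat.le_self_pow (by omega) _
    have e3 : 1 < Fintype.card K := Fintype.one_lt_card
    nlinarith
  have h4 := ex_fail (F := F) (ι := Fin (d + 1)) (W₁ := Fin s → F) (W₂ := Fin s' → K) hcard hM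
    hβ0 hβ1
  have h5 : (Fintype.card (Fin s → F) : ℝ) = (Fintype.card F : ℝ) ^ s := by
    rw [Fintype.card_fun, Fintype.card_fin]; push_cast; rfl
  rw [Fintype.card_fin, card_cols, h5] at h4
  refine le_trans (le_of_eq ?_) h4
  apply ex_congr
  intro g
  have h6 : ind (ldr (row fun i => (g i).1) (row fun i => (g i).2) = ∅) = ind (∀ b, g b ≠ 0) := by
    apply ind_congr
    rw [Finset.eq_empty_iff_forall_notMem]
    apply forall_congr'
    intro b
    rw [ldr_row, ← Prod.mk_eq_zero]
  have h7 : (univ.filter fun a => cln (row fun i => (g i).1) (row fun i => (g i).2) a).card =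
      cnt F g := by
    unfold cnt
    congr 1
    apply filter_congr
    intro a _
    rw [cln_row]
    rfl
  rw [h6, h7]

end final

end Pool.Agent.H315_Clean
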