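import Pool.Agent.H315_Clean.Rel

/-!
# Probabilities in the generator matrix model (independent uniform columns)
-/

open Finset Module

set_option autoImplicit false

namespace Pool.Agent.H315_Clean

/-- independence of the coordinates -/
theorem ex_pi {ι W : Type*} [Fintype ι] [DecidableEq ι] [Fintype W] (f : ι → W → ℝ) :
    ex (fun g : ι → W => ∏ b, f b (g b)) = ∏ b, ex (f b) := by
  classical
  unfold ex
  rw [prod_div_distrib, prod_const, card_univ, Fintype.card_fun]
  push_cast
  congr 1
  have h := Finset.prod_univ_sum (fun _ : ι => (univ : Finset W)) f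
  rw [h, Fintype.piFinset_univ]

theorem ind_forall {ι : Type*} [Fintype ι] (p : ι → Prop) : ind (∀ b, p b) = ∏ b, ind (p b) := by
  classical
  by_cases h : ∀ b, p b
  · rw [ind_true h]
    symm
    exact prod_eq_one fun b _ => ind_true (h b)
  · rw [ind_false h]
    push Not at h
    obtain ⟨b, hb⟩ := h
    symm
    exact prod_eq_zero (mem_univ b) (ind_false hb)

variable {F ι W₁ W₂ : Type*} [Field F] [Fintype F] [Fintype ι] [DecidableEq ι]
  [AddCommGroup W₁] [Module F W₁] [Fintype W₁] [AddCommGroup W₂] [Fintype W₂]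

/-- the clean positions -/
def Cl (F : Type*) {ι W₁ W₂ : Type*} [Field F] [AddCommGroup W₁] [Module F W₁] [AddCommGroup W₂]
    (g : ι → W₁ × W₂) (a : ι) : Prop :=
  (g a).1 ≠ 0 ∧ (g a).2 = 0 ∧ ∀ b, b ≠ a → ¬ ((g b).2 = 0 ∧ ∃ c : F, (g b).1 = c • (g a).1)

theorem ex_all_ne {W : Type*} [Fintype W] [AddCommGroup W] :
    ex (fun g : ι → W => ind (∀ b, g b ≠ 0)) =
      (1 - 1 / (Fintype.card W : ℝ)) ^ (Fintype.card ι) := by
  classical
  have h1 : ex (fun g : ι → W => ind (∀ b, g b ≠ 0)) =
      ex (fun g : ι → W => ∏ b, ind (g b ≠ 0)) := ex_congr fun g => ind_forall _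
  rw [h1, ex_pi (fun _ w => ind (w ≠ 0)), prod_const, card_univ]
  congr 1
  have h2 : ex (fun w : W => ind (w ≠ 0)) = ex (fun w : W => 1 - ind (w = 0)) := by
    apply ex_congr
    intro w
    by_cases hw : w = 0
    · rw [ind_true hw, ind_false (by simpa using hw)]; ring
    · rw [ind_false hw, ind_true hw]; ring
  rw [h2, ex_sub, ex_const, ex_ind]
  congr 1
  rw [filter_eq' univ (0 : W), if_pos (mem_univ _), card_singleton]
  simp

open Classical in
/-- the line through `w` in the first component -/
noncomputable def line (F : Type*) {W₁ : Type*} (W₂ : Type*) [Field F] [Fintype F]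
    [AddCommGroup W₁] [Module F W₁] [AddCommGroup W₂] (w : W₁) : Finset (W₁ × W₂) :=
  univ.image fun c : F => (c • w, (0 : W₂))

omit [Fintype W₁] [Fintype W₂] in
theorem mem_line {w : W₁} {z : W₁ × W₂} :
    z ∈ line F W₂ w ↔ z.2 = 0 ∧ ∃ c : F, z.1 = c • w := by
  unfold line
  simp only [mem_image, mem_univ, true_and]
  constructor
  · rintro ⟨c, rfl⟩
    exact ⟨rfl, c, rfl⟩
  · rintro ⟨h, c, hc⟩
    exact ⟨c, Prod.ext hc.symm h.symm⟩

omit [Fintype W₁] [Fintype W₂] in
theorem card_line {w : W₁} (hw : w ≠ 0) : (line F W₂ w).card = Fintype.card F := by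
  classical
  unfold line
  rw [← card_univ]
  apply card_image_of_injective
  intro c c' h
  exact smul_left_injective F hw (Prod.ext_iff.1 h).1

theorem ex_ind_notMem {W : Type*} [Fintype W] [Nonempty W] [DecidableEq W] (S : Finset W) :
    ex (fun w : W => ind (w ∉ S)) = 1 - (S.card : ℝ) / Fintype.card W := by
  have h2 : ex (fun w : W => ind (w ∉ S)) = ex (fun w : W => 1 - ind (w ∈ S)) := by
    apply ex_congr
    intro w
    by_cases hw : w ∈ S
    · rw [ind_true hw, ind_false (by simpa using hw)]; ring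
    · rw [ind_false hw, ind_true hw]; ring
  rw [h2, ex_sub, ex_const, ex_ind]
  congr 3
  simp

theorem ex_ind_eq {W : Type*} [Fintype W] [DecidableEq W] (w₀ : W) :
    ex (fun w : W => ind (w = w₀)) = 1 / Fintype.card W := by
  rw [ex_ind, filter_eq' univ w₀, if_pos (mem_univ _), card_singleton, Nat.cast_one]

omit [Fintype F] in
theorem ex_cl [Fintype F] (a : ι) :
    ex (fun g : ι → W₁ × W₂ => ind (Cl F g a)) =
      ((Fintype.card W₁ : ℝ) - 1) / (Fintype.card (W₁ × W₂) : ℝ) *
        (1 - (Fintype.card F : ℝ) / (Fintype.card (W₁ × W₂) : ℝ)) ^ (Fintype.card ι - 1) := by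
  classical
  set f : W₁ → ι → W₁ × W₂ → ℝ := fun w b z =>
    if b = a then ind (z = (w, 0)) else ind (z ∉ line F W₂ w) with hf
  have h1 : ∀ g : ι → W₁ × W₂, ind (Cl F g a) =
      ∑ w ∈ (univ : Finset W₁).erase 0, ∏ b, f w b (g b) := by
    intro g
    have h2 : ∀ w ∈ (univ : Finset W₁).erase 0, ∏ b, f w b (g b) =
        ind (g a = (w, 0) ∧ Cl F g a) := by
      intro w hw
      have hw0 : w ≠ 0 := (mem_erase.1 hw).1
      have h3 : ind (g a = (w, 0) ∧ Cl F g a) = ind (∀ b, if b = a then g b = (w, 0) else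
          g b ∉ line F W₂ w) := by
        apply ind_congr
        constructor
        · rintro ⟨h4, _, _, h5⟩ b
          split_ifs with hb
          · rw [hb, h4]
          · rw [mem_line]
            have := h5 b hb
            rw [h4] at this
            exact this
        · intro h4
          have h5 := h4 a
          rw [if_pos rfl] at h5
          refine ⟨h5, ?_, ?_, ?_⟩
          · rw [h5]; exact hw0
          · rw [h5]
          · intro b hb
            have h6 := h4 b
            rw [if_neg hb, mem_line] at h6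
            rw [h5]
            exact h6
      rw [h3, ind_forall]
      refine prod_congr rfl fun b _ => ?_
      simp only [hf]
      split_ifs with hb <;> rfl
    rw [sum_congr rfl h2]
    by_cases hC : Cl F g a
    · rw [ind_true hC, sum_eq_single (g a).1]
      · rw [ind_true]
        exact ⟨Prod.ext rfl hC.2.1, hC⟩
      · intro w _ hw
        apply ind_false
        rintro ⟨h, _⟩
        apply hw
        rw [h]
      · intro h
        exact absurd (mem_erase.2 ⟨hC.1, mem_univ _⟩) h
    · rw [ind_false hC]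
      symm
      apply sum_eq_zero
      intro w _
      exact ind_false (by tauto)
  rw [ex_congr h1, ex_sum]
  have h2 : ∀ w ∈ (univ : Finset W₁).erase 0,
      ex (fun g : ι → W₁ × W₂ => ∏ b, f w b (g b)) = 1 / (Fintype.card (W₁ × W₂) : ℝ) *
        (1 - (Fintype.card F : ℝ) / (Fintype.card (W₁ × W₂) : ℝ)) ^ (Fintype.card ι - 1) := by
    intro w hw
    have hw0 : w ≠ 0 := (mem_erase.1 hw).1
    rw [ex_pi, ← mul_prod_erase univ _ (mem_univ a)]
    congr 1
    · simp only [hf, if_true]
      exact ex_ind_eq _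
    · rw [← card_univ (α := ι), ← card_erase_of_mem (mem_univ a), ← prod_const]
      refine prod_congr rfl fun b hb => ?_
      simp only [hf, if_neg (mem_erase.1 hb).1]
      rw [ex_ind_notMem, card_line hw0]
  rw [sum_congr rfl h2, sum_const, card_erase_of_mem (mem_univ _), card_univ, nsmul_eq_mul,
    Nat.cast_sub Fintype.card_pos]
  push_cast
  ring

theorem card_line_union {w w' : W₁} (hw : w ≠ 0) (hw' : ¬ ∃ c : F, w' = c • w)
    [DecidableEq (W₁ × W₂)] :
    (line F W₂ w ∪ line F W₂ w').card = 2 * Fintype.card F - 1 := by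
  have hw'0 : w' ≠ 0 := fun h => hw' ⟨0, by rw [h, zero_smul]⟩
  have h1 : line F W₂ w ∩ line F W₂ w' = {0} := by
    ext z
    rw [mem_inter, mem_line, mem_line, mem_singleton]
    constructor
    · rintro ⟨⟨h2, c, hc⟩, _, c', hc'⟩
      by_cases h0 : c' = 0
      · rw [h0, zero_smul] at hc'
        exact Prod.ext hc' h2
      · exfalso
        apply hw'
        refine ⟨c'⁻¹ * c, ?_⟩
        rw [mul_smul, ← hc, hc', smul_smul, inv_mul_cancel₀ h0, one_smul]
    · rintro rfl
      exact ⟨⟨rfl, 0, by simp⟩, rfl, 0, by simp⟩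
  have h2 := card_union_add_card_inter (line F W₂ w) (line F W₂ w')
  rw [h1, card_singleton, card_line hw, card_line hw'0] at h2
  omega

theorem ex_cl_pair {a a' : ι} (haa : a ≠ a')
    (hQ : 2 * Fintype.card F ≤ Fintype.card (W₁ × W₂)) :
    ex (fun g : ι → W₁ × W₂ => ind (Cl F g a ∧ Cl F g a')) ≤
      ((Fintype.card W₁ : ℝ) / (Fintype.card (W₁ × W₂) : ℝ)) ^ 2 *
        (1 - (2 * (Fintype.card F : ℝ) - 1) / (Fintype.card (W₁ × W₂) : ℝ)) ^
          (Fintype.card ι - 2) := by
  classical
  set f : W₁ × W₁ → ι → W₁ × W₂ → ℝ := fun w b z =>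
    if b = a then ind (z = (w.1, 0)) else if b = a' then ind (z = (w.2, 0)) else
      ind (z ∉ line F W₂ w.1 ∪ line F W₂ w.2) with hf
  set S : Finset (W₁ × W₁) := univ.filter fun w => w.1 ≠ 0 ∧ ¬ ∃ c : F, w.2 = c • w.1 with hS
  have h1 : ∀ g : ι → W₁ × W₂, ind (Cl F g a ∧ Cl F g a') ≤
      ∑ w ∈ S, ∏ b, f w b (g b) := by
    intro g
    have hf0 : ∀ w ∈ S, 0 ≤ ∏ b, f w b (g b) := by
      intro w _
      refine prod_nonneg fun b _ => ?_
      simp only [hf]
      split_ifs <;> exact ind_nonneg _
    by_cases hC : Cl F g a ∧ Cl F g a'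
    · rw [ind_true hC]
      obtain ⟨hC1, hC2⟩ := hC
      have hmem : ((g a).1, (g a').1) ∈ S := by
        rw [hS, mem_filter]
        refine ⟨mem_univ _, hC1.1, ?_⟩
        intro h
        exact hC1.2.2 a' haa.symm ⟨hC2.2.1, h⟩
      refine le_trans (le_of_eq ?_) (single_le_sum hf0 hmem)
      symm
      apply prod_eq_one
      intro b _
      simp only [hf]
      split_ifs with hb hb'
      · apply ind_true
        rw [hb]
        exact Prod.ext rfl hC1.2.1
      · apply ind_true
        rw [hb']
        exact Prod.ext rfl hC2.2.1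
      · apply ind_true
        rw [mem_union, mem_line, mem_line]
        rintro (h | h)
        · exact hC1.2.2 b hb h
        · exact hC2.2.2 b hb' h
    · rw [ind_false hC]
      exact sum_nonneg hf0
  refine (ex_mono h1).trans ?_
  rw [ex_sum]
  have hQ0 : (0 : ℝ) < (Fintype.card (W₁ × W₂) : ℝ) := by exact_mod_cast Fintype.card_pos
  have h2 : ∀ w ∈ S,
      ex (fun g : ι → W₁ × W₂ => ∏ b, f w b (g b)) = (1 / (Fintype.card (W₁ × W₂) : ℝ)) ^ 2 *
        (1 - (2 * (Fintype.card F : ℝ) - 1) / (Fintype.card (W₁ × W₂) : ℝ)) ^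
          (Fintype.card ι - 2) := by
    intro w hw
    rw [hS, mem_filter] at hw
    have ha' : a' ∈ (univ : Finset ι).erase a := mem_erase.2 ⟨haa.symm, mem_univ _⟩
    rw [ex_pi, ← mul_prod_erase univ _ (mem_univ a), ← mul_prod_erase (univ.erase a) _ ha',
      ← mul_assoc, pow_two]
    have e1 : ex (f w a) = 1 / (Fintype.card (W₁ × W₂) : ℝ) := by
      simp only [hf, if_true]
      exact ex_ind_eq _
    have e2 : ex (f w a') = 1 / (Fintype.card (W₁ × W₂) : ℝ) := by
      simp only [hf, if_neg haa.symm, if_true]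
      exact ex_ind_eq _
    rw [e1, e2]
    congr 1
    have e3 : Fintype.card ι - 2 = (((univ : Finset ι).erase a).erase a').card := by
      rw [card_erase_of_mem ha', card_erase_of_mem (mem_univ a), card_univ]
      omega
    rw [e3, ← prod_const]
    refine prod_congr rfl fun b hb => ?_
    have hb1 : b ≠ a' := (mem_erase.1 hb).1
    have hb2 : b ≠ a := (mem_erase.1 (mem_erase.1 hb).2).1
    simp only [hf, if_neg hb1, if_neg hb2]
    rw [ex_ind_notMem, card_line_union hw.2.1 hw.2.2, Nat.cast_sub]
    · push_cast; ring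
    · have := Fintype.card_pos (α := F)
      omega
  rw [sum_congr rfl h2, sum_const, nsmul_eq_mul]
  have hSc : (S.card : ℝ) ≤ (Fintype.card W₁ : ℝ) ^ 2 := by
    have : S.card ≤ Fintype.card (W₁ × W₁) := card_le_univ _
    rw [Fintype.card_prod] at this
    calc (S.card : ℝ) ≤ ((Fintype.card W₁ * Fintype.card W₁ : ℕ) : ℝ) := by exact_mod_cast this
      _ = _ := by push_cast; ring
  have hpow : 0 ≤ (1 - (2 * (Fintype.card F : ℝ) - 1) / (Fintype.card (W₁ × W₂) : ℝ)) ^
      (Fintype.card ι - 2) := by
    apply pow_nonneg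
    rw [sub_nonneg, div_le_one hQ0]
    have : (2 * (Fintype.card F : ℝ)) ≤ (Fintype.card (W₁ × W₂) : ℝ) := by exact_mod_cast hQ
    linarith
  calc (S.card : ℝ) * ((1 / (Fintype.card (W₁ × W₂) : ℝ)) ^ 2 *
        (1 - (2 * (Fintype.card F : ℝ) - 1) / (Fintype.card (W₁ × W₂) : ℝ)) ^
          (Fintype.card ι - 2)) ≤ (Fintype.card W₁ : ℝ) ^ 2 *
        ((1 / (Fintype.card (W₁ × W₂) : ℝ)) ^ 2 *
        (1 - (2 * (Fintype.card F : ℝ) - 1) / (Fintype.card (W₁ × W₂) : ℝ)) ^
          (Fintype.card ι - 2)) := mul_le_mul_of_nonneg_right hSc (by positivity)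
    _ = _ := by rw [div_pow, div_pow]; ring

open Classical in
/-- the number of zero columns besides the column `a`, when column `a` is zero -/
theorem ex_zero {W : Type*} [Fintype W] [AddCommGroup W] (a : ι) (w : ℕ → ℝ) :
    ex (fun g : ι → W => ind (g a = 0) * w ((univ.filter fun b => b ≠ a ∧ g b = 0).card)) =
      1 / (Fintype.card W : ℝ) * ∑ k ∈ range (Fintype.card ι - 1 + 1),
        ((Fintype.card ι - 1).choose k : ℝ) * ((1 / (Fintype.card W : ℝ)) ^ k *
          (1 - 1 / (Fintype.card W : ℝ)) ^ (Fintype.card ι - 1 - k) * w k) := by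
  set f : Finset ι → ι → W → ℝ := fun S b z =>
    if b = a then ind (z = 0) else if b ∈ S then ind (z = 0) else ind (z ≠ 0) with hf
  have hcard : ((univ : Finset ι).erase a).card = Fintype.card ι - 1 := by
    rw [card_erase_of_mem (mem_univ a), card_univ]
  have h1 : ∀ g : ι → W, ind (g a = 0) * w ((univ.filter fun b => b ≠ a ∧ g b = 0).card) =
      ∑ S ∈ ((univ : Finset ι).erase a).powerset, w S.card * ∏ b, f S b (g b) := by
    intro g
    set S₀ := univ.filter fun b => b ≠ a ∧ g b = 0 with hS₀
    have hS₀m : S₀ ∈ ((univ : Finset ι).erase a).powerset := by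
      rw [mem_powerset]
      intro b hb
      rw [hS₀, mem_filter] at hb
      exact mem_erase.2 ⟨hb.2.1, mem_univ _⟩
    rw [sum_eq_single S₀]
    · rw [mul_comm]
      congr 1
      by_cases h0 : g a = 0
      · rw [ind_true h0]
        symm
        apply prod_eq_one
        intro b _
        simp only [hf]
        split_ifs with hb hb'
        · rw [hb]; exact ind_true h0
        · rw [hS₀, mem_filter] at hb'
          exact ind_true hb'.2.2
        · apply ind_true
          intro h
          apply hb'
          rw [hS₀, mem_filter]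
          exact ⟨mem_univ _, hb, h⟩
      · rw [ind_false h0]
        symm
        apply prod_eq_zero (mem_univ a)
        simp only [hf, if_true]
        exact ind_false h0
    · intro S hS hne
      have hex : ∃ b, b ≠ a ∧ ¬ (b ∈ S ↔ g b = 0) := by
        by_contra hcon
        push Not at hcon
        apply hne
        ext b
        rw [hS₀, mem_filter]
        constructor
        · intro hb
          have hba : b ≠ a := (mem_erase.1 ((mem_powerset.1 hS) hb)).1
          exact ⟨mem_univ _, hba, (hcon b hba).1 hb⟩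
        · rintro ⟨_, hba, hb⟩
          exact (hcon b hba).2 hb
      obtain ⟨b, hba, hb⟩ := hex
      rw [prod_eq_zero (mem_univ b), mul_zero]
      simp only [hf, if_neg hba]
      split_ifs with hbS
      · exact ind_false (by tauto)
      · exact ind_false (by tauto)
    · intro h
      exact absurd hS₀m h
  rw [ex_congr h1, ex_sum]
  have h2 : ∀ S ∈ ((univ : Finset ι).erase a).powerset,
      ex (fun g : ι → W => w S.card * ∏ b, f S b (g b)) =
        1 / (Fintype.card W : ℝ) * ((1 / (Fintype.card W : ℝ)) ^ S.card *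
          (1 - 1 / (Fintype.card W : ℝ)) ^ (Fintype.card ι - 1 - S.card) * w S.card) := by
    intro S hS
    have hSs := mem_powerset.1 hS
    rw [ex_mul, ex_pi, ← mul_prod_erase univ _ (mem_univ a)]
    have e1 : ex (f S a) = 1 / (Fintype.card W : ℝ) := by
      simp only [hf, if_true]
      exact ex_ind_eq _
    have e2 : ∏ b ∈ (univ : Finset ι).erase a, ex (f S b) =
        (1 / (Fintype.card W : ℝ)) ^ S.card *
          (1 - 1 / (Fintype.card W : ℝ)) ^ (Fintype.card ι - 1 - S.card) := by
      rw [← prod_sdiff hSs, mul_comm]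
      congr 1
      · rw [← prod_const]
        refine prod_congr rfl fun b hb => ?_
        have hba : b ≠ a := (mem_erase.1 (hSs hb)).1
        simp only [hf, if_neg hba, if_pos hb]
        exact ex_ind_eq _
      · have e3 : Fintype.card ι - 1 - S.card = (((univ : Finset ι).erase a) \ S).card := by
          rw [card_sdiff_of_subset hSs, hcard]
        rw [e3, ← prod_const]
        refine prod_congr rfl fun b hb => ?_
        rw [mem_sdiff] at hb
        have hba : b ≠ a := (mem_erase.1 hb.1).1
        simp only [hf, if_neg hba, if_neg hb.2]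
        have e4 := ex_ind_notMem ({0} : Finset W)
        simp only [mem_singleton, card_singleton, Nat.cast_one] at e4
        exact e4
    rw [e1, e2]
    ring
  rw [sum_congr rfl h2, ← mul_sum]
  congr 1
  have h3 := Finset.sum_powerset_apply_card (fun k => ((1 / (Fintype.card W : ℝ)) ^ k *
    (1 - 1 / (Fintype.card W : ℝ)) ^ (Fintype.card ι - 1 - k) * w k))
    (x := (univ : Finset ι).erase a)
  rw [h3, hcard]
  refine sum_congr rfl fun k _ => ?_
  rw [nsmul_eq_mul]

end Pool.Agent.H315_Clean
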