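import Mathlib

/-!
# Uniform averages over finite types
-/

open Finset

set_option autoImplicit false

namespace Pool.Agent.H315_Clean

/-- the average of `f` -/
noncomputable def ex {Ω : Type*} [Fintype Ω] (f : Ω → ℝ) : ℝ :=
  (∑ ω, f ω) / (Fintype.card Ω : ℝ)

open Classical in
/-- indicator -/
noncomputable def ind (p : Prop) : ℝ := if p then 1 else 0

theorem ind_nonneg (p : Prop) : 0 ≤ ind p := by unfold ind; split_ifs <;> norm_num

theorem ind_le_one (p : Prop) : ind p ≤ 1 := by unfold ind; split_ifs <;> norm_num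

theorem ind_true {p : Prop} (h : p) : ind p = 1 := by simp [ind, h]

theorem ind_false {p : Prop} (h : ¬ p) : ind p = 0 := by simp [ind, h]

theorem ind_mono {p q : Prop} (h : p → q) : ind p ≤ ind q := by
  by_cases hp : p
  · rw [ind_true hp, ind_true (h hp)]
  · rw [ind_false hp]; exact ind_nonneg _

theorem ind_or_le (p q : Prop) : ind (p ∨ q) ≤ ind p + ind q := by
  by_cases hp : p
  · rw [ind_true (Or.inl hp), ind_true hp]; linarith [ind_nonneg q]
  · by_cases hq : q
    · rw [ind_true (Or.inr hq), ind_true hq]; linarith [ind_nonneg p]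
    · rw [ind_false (by tauto), ind_false hp, ind_false hq]; norm_num

theorem ind_and (p q : Prop) : ind (p ∧ q) = ind p * ind q := by
  by_cases hp : p
  · by_cases hq : q
    · rw [ind_true ⟨hp, hq⟩, ind_true hp, ind_true hq]; norm_num
    · rw [ind_false (by tauto), ind_true hp, ind_false hq]; norm_num
  · rw [ind_false (by tauto), ind_false hp]; norm_num

theorem ind_congr {p q : Prop} (h : p ↔ q) : ind p = ind q := by
  rw [show p = q from propext h]

variable {Ω Ω' : Type*} [Fintype Ω] [Fintype Ω']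

theorem ex_mono {f g : Ω → ℝ} (h : ∀ ω, f ω ≤ g ω) : ex f ≤ ex g :=
  div_le_div_of_nonneg_right (sum_le_sum fun ω _ => h ω) (Nat.cast_nonneg _)

theorem ex_nonneg {f : Ω → ℝ} (h : ∀ ω, 0 ≤ f ω) : 0 ≤ ex f :=
  div_nonneg (sum_nonneg fun ω _ => h ω) (Nat.cast_nonneg _)

theorem ex_add (f g : Ω → ℝ) : ex (fun ω => f ω + g ω) = ex f + ex g := by
  unfold ex; rw [sum_add_distrib, add_div]

theorem ex_sub (f g : Ω → ℝ) : ex (fun ω => f ω - g ω) = ex f - ex g := by
  unfold ex; rw [sum_sub_distrib, sub_div]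

theorem ex_mul (c : ℝ) (f : Ω → ℝ) : ex (fun ω => c * f ω) = c * ex f := by
  unfold ex; rw [← mul_sum, mul_div_assoc]

theorem ex_mul_right (c : ℝ) (f : Ω → ℝ) : ex (fun ω => f ω * c) = ex f * c := by
  unfold ex; rw [← sum_mul, div_mul_eq_mul_div]

theorem ex_const [Nonempty Ω] (c : ℝ) : ex (fun _ : Ω => c) = c := by
  unfold ex
  rw [sum_const, card_univ, nsmul_eq_mul, mul_comm, mul_div_assoc, div_self, mul_one]
  exact Nat.cast_ne_zero.2 Fintype.card_ne_zero

theorem ex_congr {f g : Ω → ℝ} (h : ∀ ω, f ω = g ω) : ex f = ex g := by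
  rw [funext h]

theorem ex_sum {α : Type*} (s : Finset α) (f : α → Ω → ℝ) :
    ex (fun ω => ∑ a ∈ s, f a ω) = ∑ a ∈ s, ex (f a) := by
  unfold ex
  rw [sum_comm, sum_div]

theorem ex_equiv (e : Ω ≃ Ω') (f : Ω' → ℝ) : ex (fun ω => f (e ω)) = ex f := by
  unfold ex
  rw [Fintype.card_congr e, e.sum_comp]

theorem ex_prod (f : Ω × Ω' → ℝ) : ex f = ex fun ω => ex fun ω' => f (ω, ω') := by
  unfold ex
  rw [Fintype.sum_prod_type, Fintype.card_prod, ← sum_div, Nat.cast_mul, div_div, mul_comm]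

theorem ex_comm (f : Ω → Ω' → ℝ) :
    ex (fun ω => ex fun ω' => f ω ω') = ex fun ω' => ex fun ω => f ω ω' := by
  rw [← ex_prod (fun p : Ω × Ω' => f p.1 p.2), ← ex_prod (fun p : Ω' × Ω => f p.2 p.1)]
  exact ex_equiv (Equiv.prodComm Ω Ω') (fun p : Ω' × Ω => f p.2 p.1)

theorem ex_ind (p : Ω → Prop) [DecidablePred p] :
    ex (fun ω => ind (p ω)) = ((univ.filter p).card : ℝ) / Fintype.card Ω := by
  unfold ex ind
  congr 1
  rw [card_filter]
  push_cast
  refine sum_congr rfl fun ω _ => ?_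
  by_cases h : p ω <;> simp [h]

/-- functions that depend only on the coordinates in the range of an injection -/
theorem ex_comp {ι κ L : Type*} [Fintype ι] [Fintype κ] [DecidableEq ι] [DecidableEq κ]
    [Fintype L] [Nonempty L] (e : ι ↪ κ) (f : (ι → L) → ℝ) :
    ex (fun x : κ → L => f (fun i => x (e i))) = ex f := by
  classical
  let p : κ → Prop := fun k => k ∈ Set.range e
  let E1 : (κ → L) ≃ ({x // p x} → L) × ({x // ¬ p x} → L) :=
    Equiv.piEquivPiSubtypeProd p (fun _ => L)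
  let E0 : ι ≃ {x // p x} := Equiv.ofInjective e e.injective
  let E2 : ({x // p x} → L) ≃ (ι → L) := Equiv.arrowCongr E0.symm (Equiv.refl L)
  have h1 : ex (fun x : κ → L => f (fun i => x (e i))) =
      ex (fun z : ({x // p x} → L) × ({x // ¬ p x} → L) => f (E2 z.1)) := by
    rw [← ex_equiv E1]
    apply ex_congr
    intro x
    congr 1
  rw [h1, ex_prod]
  have h2 : (fun a : {x // p x} → L => ex fun b : {x // ¬ p x} → L => f (E2 (a, b).1)) =
      fun a => f (E2 a) := by
    funext a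
    exact ex_const (f (E2 a))
  rw [h2, ex_equiv E2]

/-- Chebyshev -/
theorem ex_cheb (g : Ω → ℝ) (p : Ω → Prop) {t : ℝ} (ht : 0 < t)
    (h : ∀ ω, p ω → t ≤ |g ω|) : ex (fun ω => ind (p ω)) ≤ ex (fun ω => g ω ^ 2) / t ^ 2 := by
  rw [le_div_iff₀ (by positivity), ← ex_mul_right]
  apply ex_mono
  intro ω
  by_cases hp : p ω
  · rw [ind_true hp, one_mul, ← sq_abs (g ω)]
    exact pow_le_pow_left₀ ht.le (h ω hp) 2
  · rw [ind_false hp, zero_mul]
    positivity

end Pool.Agent.H315_Clean
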