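import Pool.Agent.H315_Clean.Moment

/-!
# Limits of the parameters
-/

open Finset Filter Topology

set_option autoImplicit false

namespace Pool.Agent.H315_Clean

section

variable {A P : ℕ → ℝ} {lam q : ℝ}

theorem lim_d_div (hA : Tendsto A atTop atTop) (hP : Tendsto P atTop atTop)
    (hQ : Tendsto (fun d : ℕ => ((d : ℝ) + 1) / (A d * P d)) atTop (𝓝 lam)) :
    Tendsto (fun d : ℕ => (d : ℝ) / (A d * P d)) atTop (𝓝 lam) := by
  have h1 : Tendsto (fun d : ℕ => (A d * P d)⁻¹) atTop (𝓝 0) :=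
    tendsto_inv_atTop_zero.comp (hA.atTop_mul_atTop₀ hP)
  have h2 := hQ.sub h1
  rw [sub_zero] at h2
  refine h2.congr fun d => ?_
  rw [add_div, ← one_div]
  ring

theorem lim_pow (hA : Tendsto A atTop atTop) (hP : Tendsto P atTop atTop)
    (hQ : Tendsto (fun d : ℕ => ((d : ℝ) + 1) / (A d * P d)) atTop (𝓝 lam)) (r : ℝ) :
    Tendsto (fun d : ℕ => (1 - r / (A d * P d)) ^ d) atTop (𝓝 (Real.exp (-(r * lam)))) := by
  have h1 := (lim_d_div hA hP hQ).const_mul (-r)
  have h2 : Tendsto (fun d : ℕ => (d : ℝ) * (-(r / (A d * P d)))) atTop (𝓝 (-(r * lam))) := by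
    rw [← neg_mul]
    refine h1.congr fun d => ?_
    ring
  refine (Real.tendsto_one_add_pow_exp_of_tendsto h2).congr fun d => ?_
  rw [sub_eq_add_neg]

theorem lim_base (hA : Tendsto A atTop atTop) (hP : Tendsto P atTop atTop) (r : ℝ) :
    Tendsto (fun d : ℕ => 1 - r / (A d * P d)) atTop (𝓝 1) := by
  have h1 : Tendsto (fun d : ℕ => (A d * P d)⁻¹) atTop (𝓝 0) :=
    tendsto_inv_atTop_zero.comp (hA.atTop_mul_atTop₀ hP)
  have h2 := (h1.const_mul r).const_sub 1
  rw [mul_zero, sub_zero] at h2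
  refine h2.congr fun d => ?_
  rw [div_eq_mul_inv]

/-- `p1 * P` -/
theorem lim_p1 (hA : Tendsto A atTop atTop) (hP : Tendsto P atTop atTop)
    (hQ : Tendsto (fun d : ℕ => ((d : ℝ) + 1) / (A d * P d)) atTop (𝓝 lam)) :
    Tendsto (fun d : ℕ => p1 q (A d) (A d * P d) (d + 1) * P d) atTop
      (𝓝 (Real.exp (-(q * lam)))) := by
  have h1 : Tendsto (fun d : ℕ => 1 - (A d)⁻¹) atTop (𝓝 (1 - 0)) :=
    (tendsto_inv_atTop_zero.comp hA).const_sub 1
  have h2 := h1.mul (lim_pow hA hP hQ q)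
  rw [sub_zero, one_mul] at h2
  refine h2.congr' ?_
  filter_upwards [hA.eventually_gt_atTop 0, hP.eventually_gt_atTop 0] with d h3 h4
  unfold p1
  rw [Nat.add_sub_cancel]
  field_simp

theorem lim_p2 (hA : Tendsto A atTop atTop) (hP : Tendsto P atTop atTop)
    (hQ : Tendsto (fun d : ℕ => ((d : ℝ) + 1) / (A d * P d)) atTop (𝓝 lam)) :
    Tendsto (fun d : ℕ => p2 q (A d) (A d * P d) (d + 1) * P d ^ 2) atTop
      (𝓝 (Real.exp (-((2 * q - 1) * lam)))) := by
  have h2 := (lim_pow hA hP hQ (2 * q - 1)).div (lim_base hA hP (2 * q - 1)) one_ne_zero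
  rw [div_one] at h2
  refine h2.congr' ?_
  filter_upwards [hA.eventually_gt_atTop 0, hP.eventually_gt_atTop 0, eventually_ge_atTop 1,
    (lim_base hA hP (2 * q - 1)).eventually_ne one_ne_zero] with d h3 h4 h5 h6
  unfold p2
  have e1 : d + 1 - 2 = d - 1 := by omega
  have e2 : (1 - (2 * q - 1) / (A d * P d)) ^ d =
      (1 - (2 * q - 1) / (A d * P d)) ^ (d - 1) * (1 - (2 * q - 1) / (A d * P d)) := by
    rw [← pow_succ]; congr 1; omega
  rw [Pi.div_apply, e1, e2, mul_div_assoc, div_self h6, mul_one]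
  have e3 : A d / (A d * P d) = 1 / P d := by field_simp
  rw [e3]
  field_simp

theorem lim_pz (hA : Tendsto A atTop atTop) (hP : Tendsto P atTop atTop)
    (hQ : Tendsto (fun d : ℕ => ((d : ℝ) + 1) / (A d * P d)) atTop (𝓝 lam)) :
    Tendsto (fun d : ℕ => pz (A d * P d) (d + 1)) atTop (𝓝 (Real.exp (-lam))) := by
  have h2 := (lim_pow hA hP hQ 1).mul (lim_base hA hP 1)
  rw [mul_one, one_mul] at h2
  refine h2.congr fun d => ?_
  unfold pz
  rw [pow_succ]

/-- the normalisation of the number of clean positions -/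
noncomputable def Mf (q lam : ℝ) (P : ℕ → ℝ) (d : ℕ) : ℝ :=
  ((d : ℝ) + 1) / P d * Real.exp (-((q - 1) * lam))

theorem lim_M (hP : Tendsto P atTop atTop)
    (hPd : Tendsto (fun d : ℕ => P d / ((d : ℝ) + 1)) atTop (𝓝 0)) :
    Tendsto (Mf q lam P) atTop atTop := by
  have h1 : Tendsto (fun d : ℕ => ((d : ℝ) + 1) / P d) atTop atTop := by
    have h2 : Tendsto (fun d : ℕ => P d / ((d : ℝ) + 1)) atTop (𝓝[>] 0) := by
      rw [tendsto_nhdsWithin_iff]
      refine ⟨hPd, ?_⟩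
      filter_upwards [hP.eventually_gt_atTop 0] with d h3
      exact div_pos h3 (by positivity)
    refine (tendsto_inv_nhdsGT_zero.comp h2).congr fun d => ?_
    simp only [Function.comp_apply, inv_div]
  exact h1.atTop_mul_const (Real.exp_pos _)

/-- `vr / M ^ 2 → 0` -/
theorem lim_vr (hA : Tendsto A atTop atTop) (hP : Tendsto P atTop atTop)
    (hPd : Tendsto (fun d : ℕ => P d / ((d : ℝ) + 1)) atTop (𝓝 0))
    (hQ : Tendsto (fun d : ℕ => ((d : ℝ) + 1) / (A d * P d)) atTop (𝓝 lam)) :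
    Tendsto (fun d : ℕ => vr q (A d) (A d * P d) (Mf q lam P d) (d + 1) / (Mf q lam P d) ^ 2)
      atTop (𝓝 0) := by
  set κ : ℝ := Real.exp (-((q - 1) * lam)) with hκ
  have hκ0 : 0 < κ := Real.exp_pos _
  have hN : Tendsto (fun d : ℕ => (d : ℝ) / ((d : ℝ) + 1)) atTop (𝓝 1) :=
    tendsto_natCast_div_add_atTop 1
  have t1 := ((lim_p1 (q := q) hA hP hQ).mul hPd).div_const (κ ^ 2)
  have t2 := ((lim_p2 (q := q) hA hP hQ).mul hN).div_const (κ ^ 2)
  have t3 := ((lim_p1 (q := q) hA hP hQ).const_mul 2).div_const κ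
  have t4 := lim_pz hA hP hQ
  have t5 := ((t1.add t2).sub t3).add t4
  have hlim : Real.exp (-(q * lam)) * 0 / κ ^ 2 + Real.exp (-((2 * q - 1) * lam)) * 1 / κ ^ 2 -
      2 * Real.exp (-(q * lam)) / κ + Real.exp (-lam) = 0 := by
    have e1 : Real.exp (-((2 * q - 1) * lam)) = κ ^ 2 * Real.exp (-lam) := by
      rw [hκ, ← Real.exp_nat_mul, ← Real.exp_add]
      congr 1
      push_cast
      ring
    have e2 : Real.exp (-(q * lam)) = κ * Real.exp (-lam) := by
      rw [hκ, ← Real.exp_add]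
      congr 1
      ring
    rw [e1, e2]
    field_simp
    ring
  rw [hlim] at t5
  refine t5.congr' ?_
  filter_upwards [hA.eventually_gt_atTop 0, hP.eventually_gt_atTop 0] with d h3 h4
  unfold vr Mf
  rw [← hκ]
  have h5 : (0 : ℝ) < (d : ℝ) + 1 := by positivity
  push_cast
  field_simp
  ring

end

end Pool.Agent.H315_Clean
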