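import Mathlib

/-!
# Coloops of a finite configuration of vectors
-/

open Finset Module

set_option autoImplicit false

namespace Pool.Agent.H315_Clean

variable {F V ι κ : Type*} [Field F] [AddCommGroup V] [Module F V] [DecidableEq ι] [DecidableEq κ]

/-- the span of the vectors `v i`, `i ∈ B` -/
def sp (F : Type*) {V ι : Type*} [Field F] [AddCommGroup V] [Module F V] (v : ι → V)
    (B : Finset ι) : Submodule F V := Submodule.span F (v '' (B : Set ι))

/-- `b` is a coloop of the configuration `v` on `B` -/
def Co (F : Type*) {V ι : Type*} [Field F] [AddCommGroup V] [Module F V] [DecidableEq ι]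
    (v : ι → V) (B : Finset ι) (b : ι) : Prop := v b ∉ sp F v (B.erase b)

/-- the vectors span everything -/
def Fu (F : Type*) {V ι : Type*} [Field F] [AddCommGroup V] [Module F V] (v : ι → V)
    (B : Finset ι) : Prop := sp F v B = ⊤

/-- the vectors span a hyperplane -/
def Hy (F : Type*) {V ι : Type*} [Field F] [AddCommGroup V] [Module F V] (v : ι → V)
    (B : Finset ι) : Prop := finrank F (sp F v B) + 1 = finrank F V

omit [DecidableEq ι] in
theorem sp_mono (v : ι → V) {A B : Finset ι} (h : A ⊆ B) : sp F v A ≤ sp F v B :=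
  Submodule.span_mono (Set.image_mono (by exact_mod_cast h))

theorem sp_insert (v : ι → V) (a : ι) (B : Finset ι) :
    sp F v (insert a B) = sp F v B ⊔ Submodule.span F {v a} := by
  unfold sp
  rw [coe_insert, Set.image_insert_eq, Submodule.span_insert, sup_comm]

omit [DecidableEq ι] in
theorem mem_sp (v : ι → V) {B : Finset ι} {b : ι} (h : b ∈ B) : v b ∈ sp F v B :=
  Submodule.subset_span ⟨b, by exact_mod_cast h, rfl⟩

theorem finrank_insert [FiniteDimensional F V] (v : ι → V) {a : ι} {B : Finset ι}
    (h : v a ∉ sp F v B) : finrank F (sp F v (insert a B)) = finrank F (sp F v B) + 1 := by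
  rw [sp_insert]
  exact Submodule.finrank_sup_span_singleton h

theorem Co.hy [FiniteDimensional F V] {v : ι → V} {B : Finset ι} {b : ι} (h : Co F v B b)
    (hb : b ∈ B) (hf : Fu F v B) : Hy F v (B.erase b) := by
  unfold Hy
  rw [← finrank_insert v h, insert_erase hb, hf]
  exact finrank_top F V

theorem Hy.fu [FiniteDimensional F V] {v : ι → V} {B : Finset ι} {a : ι} (h : Hy F v B)
    (ha : v a ∉ sp F v B) : Fu F v (insert a B) := by
  apply Submodule.eq_top_of_finrank_eq
  rw [finrank_insert v ha, h]

theorem Co.of_notMem {v : ι → V} {B : Finset ι} {a : ι} (haB : a ∉ B)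
    (ha : v a ∉ sp F v B) : Co F v (insert a B) a := by
  unfold Co
  rwa [erase_insert haB]

/-- adding a point outside the span does not change the coloops -/
theorem co_insert_iff {v : ι → V} {B : Finset ι} {a b : ι} (haB : a ∉ B)
    (ha : v a ∉ sp F v B) (hb : b ∈ B) : Co F v (insert a B) b ↔ Co F v B b := by
  have hab : a ≠ b := fun h => haB (h ▸ hb)
  unfold Co
  rw [erase_insert_of_ne hab]
  constructor
  · intro h hmem
    exact h (sp_mono v (subset_insert _ _) hmem)
  · intro h hmem
    unfold sp at hmem
    rw [coe_insert, Set.image_insert_eq, Submodule.mem_span_insert] at hmem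
    obtain ⟨c, w, hw, hbw⟩ := hmem
    have hw' : w ∈ sp F v (B.erase b) := hw
    by_cases hc : c = 0
    · rw [hc, zero_smul, zero_add] at hbw
      exact h (hbw ▸ hw')
    · apply ha
      have h1 : v a = c⁻¹ • (v b - w) := by
        rw [hbw, add_sub_cancel_right, smul_smul, inv_mul_cancel₀ hc, one_smul]
      rw [h1]
      exact Submodule.smul_mem _ _ (Submodule.sub_mem _ (mem_sp v hb)
        (sp_mono v (erase_subset _ _) hw'))

theorem co_erase_iff {v : ι → V} {B : Finset ι} {a b : ι} (ha : Co F v B a) (haB : a ∈ B)
    (hb : b ∈ B.erase a) : Co F v (B.erase a) b ↔ Co F v B b := by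
  have h := co_insert_iff (v := v) (B := B.erase a) (a := a) (b := b) (by simp) ha hb
  rw [insert_erase haB] at h
  exact h.symm

omit [DecidableEq ι] [DecidableEq κ] in
theorem sp_map (v : κ → V) (e : ι ↪ κ) (B : Finset ι) :
    sp F v (B.map e) = sp F (fun i => v (e i)) B := by
  unfold sp
  rw [coe_map, Set.image_image]

theorem co_map (v : κ → V) (e : ι ↪ κ) (B : Finset ι) (b : ι) :
    Co F v (B.map e) (e b) ↔ Co F (fun i => v (e i)) B b := by
  unfold Co
  rw [← map_erase, sp_map]

omit [DecidableEq ι] [DecidableEq κ] in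
theorem fu_map (v : κ → V) (e : ι ↪ κ) (B : Finset ι) :
    Fu F v (B.map e) ↔ Fu F (fun i => v (e i)) B := by
  unfold Fu
  rw [sp_map]

omit [DecidableEq ι] [DecidableEq κ] in
theorem hy_map (v : κ → V) (e : ι ↪ κ) (B : Finset ι) :
    Hy F v (B.map e) ↔ Hy F (fun i => v (e i)) B := by
  unfold Hy
  rw [sp_map]

/-- membership in the span through relations -/
theorem co_iff_rel [Fintype ι] (v : ι → V) (B : Finset ι) (b : ι) (hb : b ∈ B) :
    Co F v B b ↔ ∀ r : ι → F, (∀ i, i ∉ B → r i = 0) → ∑ i, r i • v i = 0 → r b = 0 := by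
  constructor
  · intro h r hr hs
    by_contra hrb
    apply h
    have h1 : v b = - (r b)⁻¹ • ∑ i ∈ B.erase b, r i • v i := by
      have h2 : ∑ i, r i • v i = r b • v b + ∑ i ∈ B.erase b, r i • v i := by
        rw [add_sum_erase _ (fun i => r i • v i) hb]
        symm
        apply sum_subset (subset_univ _)
        intro i _ hi
        rw [hr i hi, zero_smul]
      rw [hs] at h2
      have h3 : ∑ i ∈ B.erase b, r i • v i = - (r b • v b) := by
        rw [eq_neg_iff_add_eq_zero, add_comm]; exact h2.symm
      rw [h3, neg_smul, smul_neg, neg_neg, smul_smul, inv_mul_cancel₀ hrb, one_smul]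
    rw [h1]
    exact Submodule.smul_mem _ _ (Submodule.sum_mem _ fun i hi =>
      Submodule.smul_mem _ _ (mem_sp v hi))
  · intro h hmem
    unfold sp at hmem
    rw [Submodule.mem_span_image_finset_iff_exists_fun] at hmem
    obtain ⟨c, hc⟩ := hmem
    let r : ι → F := fun i => if hi : i ∈ B.erase b then c ⟨i, hi⟩ else if i = b then -1 else 0
    have hrb : r b = -1 := by simp [r]
    have h1 : r b = 0 := by
      apply h r
      · intro i hi
        have h2 : i ∉ B.erase b := fun hh => hi (mem_of_mem_erase hh)
        have h3 : i ≠ b := fun hh => hi (hh ▸ hb)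
        simp only [r, dif_neg h2, if_neg h3]
      · have h2 : ∑ i, r i • v i = r b • v b + ∑ i ∈ B.erase b, r i • v i := by
          rw [add_sum_erase _ (fun i => r i • v i) hb]
          symm
          apply sum_subset (subset_univ _)
          intro i _ hi
          have h2 : i ∉ B.erase b := fun hh => hi (mem_of_mem_erase hh)
          have h3 : i ≠ b := fun hh => hi (hh ▸ hb)
          simp only [r, dif_neg h2, if_neg h3, zero_smul]
        have h4 : ∑ i ∈ B.erase b, r i • v i = ∑ i : {x // x ∈ B.erase b}, c i • v i := by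
          rw [← Finset.sum_coe_sort]
          apply Finset.sum_congr rfl
          intro i _
          have : r i = c i := by
            simp only [r, dif_pos i.2]
          rw [this]
        rw [h2, h4, hrb, hc, neg_smul, one_smul, neg_add_cancel]
    rw [hrb] at h1
    exact one_ne_zero (neg_eq_zero.1 h1)

theorem fu_erase_iff (v : ι → V) (B : Finset ι) (a : ι) (ha : a ∈ B) :
    Fu F v (B.erase a) ↔ Fu F v B ∧ ¬ Co F v B a := by
  constructor
  · intro h
    have h' : sp F v (B.erase a) = ⊤ := h
    refine ⟨?_, ?_⟩
    · unfold Fu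
      rw [eq_top_iff, ← h']
      exact sp_mono v (erase_subset _ _)
    · intro hc
      apply hc
      rw [h']
      exact Submodule.mem_top
  · rintro ⟨h1, h2⟩
    unfold Co at h2
    push Not at h2
    unfold Fu at h1 ⊢
    rw [← h1, ← insert_erase ha, sp_insert, erase_insert (by simp)]
    symm
    rw [sup_eq_left, Submodule.span_singleton_le_iff_mem]
    exact h2

end Pool.Agent.H315_Clean
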