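import Pool.Agent.H315_Clean.Part
import Pool.Agent.H369R2.TD.Two

/-!
# Two parts
-/

open Finset Filter

set_option autoImplicit false

namespace Pool.Agent.H315_Clean

open Pool.Agent.H369R2.TD

theorem mix {D Φ lam V : ℝ} (hD : 0 ≤ D) (hΦ0 : 0 < Φ) (hΦ1 : Φ < 1)
    (h : ∀ η : ℝ, 0 < η → ∀ᶠ d : ℕ in atTop, ∀ n, Rnd n d ((1 + η) * D / ((d : ℝ) + 1)) Φ)
    (hl0 : 0 < lam) (hl1 : lam < 1)
    (hV : D / (lam * (1 - Φ)) + D * Φ / ((1 - lam) * (1 - Φ)) < V) :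
    ∀ᶠ r : ℕ in atTop, Tur r (V / ((r : ℝ) + 1)) := by
  set W := D / (lam * (1 - Φ)) + D * Φ / ((1 - lam) * (1 - Φ)) with hW
  obtain ⟨η, hη, hηV⟩ : ∃ η : ℝ, 0 < η ∧ (1 + η) ^ 2 * W < V := by
    have hcont : Tendsto (fun η : ℝ => (1 + η) ^ 2 * W) (nhdsWithin 0 (Set.Ioi 0))
        (nhds ((1 + 0) ^ 2 * W)) := by
      apply Tendsto.mono_left _ nhdsWithin_le_nhds
      exact (Continuous.tendsto (f := fun η : ℝ => (1 + η) ^ 2 * W) (by fun_prop) 0)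
    have h1 : (1 + (0 : ℝ)) ^ 2 * W < V := by simpa using hV
    have h2 := (hcont.eventually_lt_const h1).and self_mem_nhdsWithin
    obtain ⟨η, h3, h4⟩ := h2.exists
    exact ⟨η, h4, h3⟩
  have e1 := h η hη
  have h1l : 0 < 1 - lam := by linarith
  let g : ℕ → ℕ := fun r => ⌊lam * ((r : ℝ) + 1)⌋₊
  have hcast : Tendsto (fun r : ℕ => ((r : ℝ) + 1)) atTop atTop :=
    tendsto_atTop_add_const_right _ _ tendsto_natCast_atTop_atTop
  have hle : ∀ r : ℕ, (g r : ℝ) ≤ lam * ((r : ℝ) + 1) := fun r =>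
    Nat.floor_le (by positivity)
  have hge : ∀ r : ℕ, lam * ((r : ℝ) + 1) < (g r : ℝ) + 1 := fun r => Nat.lt_floor_add_one _
  have hlim : Tendsto g atTop atTop :=
    tendsto_nat_floor_atTop.comp (hcast.const_mul_atTop hl0)
  have hlim1 : Tendsto (fun r => g r - 1) atTop atTop := by
    refine tendsto_atTop.2 fun b => ?_
    filter_upwards [tendsto_atTop.1 hlim (b + 1)] with r hr
    omega
  have hlim2 : Tendsto (fun r => r - g r) atTop atTop := by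
    refine tendsto_atTop.2 fun b => ?_
    filter_upwards [tendsto_atTop.1 (hcast.const_mul_atTop h1l) ((b : ℝ) + 1)] with r hr
    have h3 := hle r
    have h4 : ((b : ℝ) + g r) ≤ r := by nlinarith
    have h5 : b + g r ≤ r := by exact_mod_cast h4
    omega
  filter_upwards [hlim1.eventually e1, hlim2.eventually e1, tendsto_atTop.1 hlim 1,
    tendsto_atTop.1 hlim2 1, tendsto_atTop.1 hcast ((1 + η) / (η * lam))] with r f1 f2 f3 f4 f5
  have hr : (g r - 1) + (r - g r) + 1 = r := by omega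
  have hhr : g r ≤ r := by omega
  have c1 : (((g r - 1 : ℕ) : ℝ) + 1) = (g r : ℝ) := by
    rw [Nat.cast_sub f3]; simp
  have c2 : (((r - g r : ℕ) : ℝ) + 1) = (r : ℝ) + 1 - (g r : ℝ) := by
    rw [Nat.cast_sub hhr]; ring
  rw [c1] at f1
  rw [c2] at f2
  have hr0 : (0 : ℝ) < (r : ℝ) + 1 := by positivity
  have hh0 : (0 : ℝ) < (g r : ℝ) := by exact_mod_cast f3
  have hh1 : (0 : ℝ) < (r : ℝ) + 1 - (g r : ℝ) := by
    have : (g r : ℝ) ≤ r := by exact_mod_cast hhr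
    linarith
  set a₁ : ℝ := (1 + η) * D / (g r : ℝ) with ha₁
  set a₂ : ℝ := (1 + η) * D / ((r : ℝ) + 1 - (g r : ℝ)) with ha₂
  have ga1 : 0 ≤ a₁ := by positivity
  have ga2 : 0 ≤ a₂ := by
    rw [ha₂]
    exact div_nonneg (by positivity) hh1.le
  have gD1 : (g r : ℝ) * a₁ ≤ (1 + η) * D := by
    rw [ha₁, mul_div_cancel₀ _ hh0.ne']
  have gD2 : ((r : ℝ) + 1 - (g r : ℝ)) * a₂ ≤ (1 + η) * D := by
    rw [ha₂, mul_div_cancel₀ _ hh1.ne']
  have r1 : ((r : ℝ) + 1) * lam ≤ (1 + η) * g r := by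
    have h6 := hge r
    have h7 : (1 + η) ≤ ((r : ℝ) + 1) * (η * lam) := by
      rwa [div_le_iff₀ (by positivity)] at f5
    nlinarith
  have r2 : ((r : ℝ) + 1) * (1 - lam) ≤ (1 + η) * ((r : ℝ) + 1 - g r) := by
    have h6 := hle r
    nlinarith
  have b1 : ((r : ℝ) + 1) * a₁ ≤ (1 + η) ^ 2 * D / lam := by
    rw [le_div_iff₀ hl0]
    calc ((r : ℝ) + 1) * a₁ * lam = (((r : ℝ) + 1) * lam) * a₁ := by ring
      _ ≤ ((1 + η) * g r) * a₁ := mul_le_mul_of_nonneg_right r1 ga1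
      _ = (1 + η) * ((g r : ℝ) * a₁) := by ring
      _ ≤ (1 + η) * ((1 + η) * D) := mul_le_mul_of_nonneg_left gD1 (by positivity)
      _ = (1 + η) ^ 2 * D := by ring
  have b2 : ((r : ℝ) + 1) * a₂ ≤ (1 + η) ^ 2 * D / (1 - lam) := by
    rw [le_div_iff₀ h1l]
    calc ((r : ℝ) + 1) * a₂ * (1 - lam) = (((r : ℝ) + 1) * (1 - lam)) * a₂ := by ring
      _ ≤ ((1 + η) * ((r : ℝ) + 1 - g r)) * a₂ := mul_le_mul_of_nonneg_right r2 ga2
      _ = (1 + η) * (((r : ℝ) + 1 - g r) * a₂) := by ring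
      _ ≤ (1 + η) * ((1 + η) * D) := mul_le_mul_of_nonneg_left gD2 (by positivity)
      _ = (1 + η) ^ 2 * D := by ring
  have hε : 0 < (V - (1 + η) ^ 2 * W) / ((r : ℝ) + 1) := div_pos (by linarith) hr0
  have hT := two_part f1 f2 ga1 ga2 hΦ0 hΦ1 hΦ0 hΦ1 hε
  rw [hr] at hT
  refine hT.mono ?_
  have p1 : 0 < 1 - Φ := by linarith
  rw [le_div_iff₀ hr0]
  have t1 : ((r : ℝ) + 1) * (a₁ / (1 - Φ)) ≤ (1 + η) ^ 2 * (D / (lam * (1 - Φ))) := by
    calc ((r : ℝ) + 1) * (a₁ / (1 - Φ)) = (((r : ℝ) + 1) * a₁) / (1 - Φ) := by ring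
      _ ≤ ((1 + η) ^ 2 * D / lam) / (1 - Φ) := div_le_div_of_nonneg_right b1 p1.le
      _ = (1 + η) ^ 2 * (D / (lam * (1 - Φ))) := by
          rw [div_div, mul_div_assoc]
  have t2 : ((r : ℝ) + 1) * (a₂ * Φ / (1 - Φ)) ≤
      (1 + η) ^ 2 * (D * Φ / ((1 - lam) * (1 - Φ))) := by
    calc ((r : ℝ) + 1) * (a₂ * Φ / (1 - Φ)) = ((((r : ℝ) + 1) * a₂) * Φ) / (1 - Φ) := by ring
      _ ≤ ((1 + η) ^ 2 * D / (1 - lam) * Φ) / (1 - Φ) := by
          apply div_le_div_of_nonneg_right _ p1.le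
          exact mul_le_mul_of_nonneg_right b2 hΦ0.le
      _ = (1 + η) ^ 2 * (D * Φ / ((1 - lam) * (1 - Φ))) := by
          field_simp
  have t3 : (V - (1 + η) ^ 2 * W) / ((r : ℝ) + 1) * ((r : ℝ) + 1) = V - (1 + η) ^ 2 * W := by
    field_simp
  have t4 : (1 + η) ^ 2 * W = (1 + η) ^ 2 * (D / (lam * (1 - Φ))) +
      (1 + η) ^ 2 * (D * Φ / ((1 - lam) * (1 - Φ))) := by rw [hW]; ring
  nlinarith

end Pool.Agent.H315_Clean
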