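import Pool.Agent.H315_Clean.Count

/-!
# Concentration of the number of clean positions
-/

open Finset Module

set_option autoImplicit false

namespace Pool.Agent.H315_Clean

variable {F ι W₁ W₂ : Type*} [Field F] [Fintype F] [Fintype ι] [DecidableEq ι]
  [AddCommGroup W₁] [Module F W₁] [Fintype W₁] [AddCommGroup W₂] [Fintype W₂]

open Classical in
/-- the number of clean positions -/
noncomputable def cnt (F : Type*) {ι W₁ W₂ : Type*} [Field F] [Fintype ι] [AddCommGroup W₁]
    [Module F W₁] [AddCommGroup W₂] (g : ι → W₁ × W₂) : ℕ := (univ.filter fun a => Cl F g a).card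

omit [Fintype F] [DecidableEq ι] [Fintype W₁] [Fintype W₂] in
theorem cnt_eq (g : ι → W₁ × W₂) : (cnt F g : ℝ) = ∑ a, ind (Cl F g a) := by
  classical
  unfold cnt
  rw [card_filter]
  push_cast
  refine sum_congr rfl fun a _ => ?_
  unfold ind
  congr

omit [Fintype F] [Fintype ι] [DecidableEq ι] [Fintype W₁] [Fintype W₂] in
theorem Cl.all_ne {g : ι → W₁ × W₂} {a : ι} (h : Cl F g a) (b : ι) : g b ≠ 0 := by
  intro hb
  by_cases hba : b = a
  · rw [hba] at hb
    exact h.1 (by rw [hb]; rfl)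
  · exact h.2.2 b hba ⟨by rw [hb]; rfl, 0, by rw [hb]; simp⟩

/-- probability that a position is clean -/
noncomputable def p1 (q W Q : ℝ) (N : ℕ) : ℝ := (W - 1) / Q * (1 - q / Q) ^ (N - 1)

/-- bound for the probability that two positions are clean -/
noncomputable def p2 (q W Q : ℝ) (N : ℕ) : ℝ := (W / Q) ^ 2 * (1 - (2 * q - 1) / Q) ^ (N - 2)

/-- probability that there is no leader -/
noncomputable def pz (Q : ℝ) (N : ℕ) : ℝ := (1 - 1 / Q) ^ N

/-- bound for the second moment -/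
noncomputable def vr (q W Q M : ℝ) (N : ℕ) : ℝ :=
  N * p1 q W Q N + N * (N - 1) * p2 q W Q N - 2 * M * (N * p1 q W Q N) + M ^ 2 * pz Q N

theorem ex_second (hQ : 2 * Fintype.card F ≤ Fintype.card (W₁ × W₂)) (M : ℝ) :
    ex (fun g : ι → W₁ × W₂ => ((cnt F g : ℝ) - M * ind (∀ b, g b ≠ 0)) ^ 2) ≤
      vr (Fintype.card F) (Fintype.card W₁) (Fintype.card (W₁ × W₂)) M (Fintype.card ι) := by
  classical
  have h1 : ∀ g : ι → W₁ × W₂, ((cnt F g : ℝ) - M * ind (∀ b, g b ≠ 0)) ^ 2 =
      (∑ a, ∑ a', ind (Cl F g a ∧ Cl F g a')) - 2 * M * (∑ a, ind (Cl F g a)) +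
        M ^ 2 * ind (∀ b, g b ≠ 0) := by
    intro g
    have e1 : (∑ a, ∑ a', ind (Cl F g a ∧ Cl F g a')) = (cnt F g : ℝ) ^ 2 := by
      rw [cnt_eq, pow_two, sum_mul_sum]
      refine sum_congr rfl fun a _ => sum_congr rfl fun a' _ => ?_
      rw [ind_and]
    rw [e1, ← cnt_eq]
    by_cases hz : ∀ b, g b ≠ 0
    · rw [ind_true hz]; ring
    · have hc : cnt F g = 0 := by
        unfold cnt
        rw [card_eq_zero, filter_eq_empty_iff]
        intro a _ ha
        exact hz fun b => ha.all_ne b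
      rw [ind_false hz, hc]
      push_cast
      ring
  rw [ex_congr h1, ex_add, ex_sub, ex_mul, ex_mul, ex_sum, ex_sum, ex_all_ne]
  have h2 : ∑ a : ι, ex (fun g : ι → W₁ × W₂ => ind (Cl F g a)) =
      Fintype.card ι * p1 (Fintype.card F) (Fintype.card W₁) (Fintype.card (W₁ × W₂))
        (Fintype.card ι) := by
    rw [sum_congr rfl fun a _ => ex_cl (F := F) (W₁ := W₁) (W₂ := W₂) a, sum_const, card_univ,
      nsmul_eq_mul]
    rfl
  have h3 : ∑ a : ι, ex (fun g : ι → W₁ × W₂ => ∑ a', ind (Cl F g a ∧ Cl F g a')) ≤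
      Fintype.card ι * p1 (Fintype.card F) (Fintype.card W₁) (Fintype.card (W₁ × W₂))
        (Fintype.card ι) + Fintype.card ι * (Fintype.card ι - 1) *
        p2 (Fintype.card F) (Fintype.card W₁) (Fintype.card (W₁ × W₂)) (Fintype.card ι) := by
    have h4 : ∀ a ∈ (univ : Finset ι),
        ex (fun g : ι → W₁ × W₂ => ∑ a', ind (Cl F g a ∧ Cl F g a')) ≤
        p1 (Fintype.card F) (Fintype.card W₁) (Fintype.card (W₁ × W₂)) (Fintype.card ι) +
        (Fintype.card ι - 1) * p2 (Fintype.card F) (Fintype.card W₁) (Fintype.card (W₁ × W₂))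
          (Fintype.card ι) := by
      intro a _
      rw [ex_sum, ← add_sum_erase univ _ (mem_univ a)]
      apply add_le_add
      · have e1 : ex (fun g : ι → W₁ × W₂ => ind (Cl F g a ∧ Cl F g a)) =
            ex (fun g : ι → W₁ × W₂ => ind (Cl F g a)) :=
          ex_congr fun g => ind_congr (by tauto)
        rw [e1, ex_cl]
        exact le_refl _
      · have e2 : ∀ a' ∈ (univ : Finset ι).erase a,
            ex (fun g : ι → W₁ × W₂ => ind (Cl F g a ∧ Cl F g a')) ≤
            p2 (Fintype.card F) (Fintype.card W₁) (Fintype.card (W₁ × W₂)) (Fintype.card ι) :=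
          fun a' ha' => ex_cl_pair (mem_erase.1 ha').1.symm hQ
        refine (sum_le_sum e2).trans (le_of_eq ?_)
        rw [sum_const, card_erase_of_mem (mem_univ a), card_univ, nsmul_eq_mul,
          Nat.cast_sub (Fintype.card_pos_iff.2 ⟨a⟩)]
        push_cast
        ring
    refine (sum_le_sum h4).trans (le_of_eq ?_)
    rw [sum_const, card_univ, nsmul_eq_mul]
    ring
  rw [h2]
  unfold vr pz
  linarith

/-- the failure probability of the two stages -/
theorem ex_fail (hQ : 2 * Fintype.card F ≤ Fintype.card (W₁ × W₂)) {M β : ℝ} {N₀ : ℕ}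
    (hM : (N₀ : ℝ) < M) (hβ0 : 0 ≤ β) (hβ1 : β ≤ 1) :
    ex (fun g : ι → W₁ × W₂ => ind (∀ b, g b ≠ 0) * β ^ cnt F g) ≤
      vr (Fintype.card F) (Fintype.card W₁) (Fintype.card (W₁ × W₂)) M (Fintype.card ι) /
        (M - N₀) ^ 2 + β ^ N₀ * pz (Fintype.card (W₁ × W₂)) (Fintype.card ι) := by
  classical
  have h1 : ∀ g : ι → W₁ × W₂, ind (∀ b, g b ≠ 0) * β ^ cnt F g ≤
      ind ((∀ b, g b ≠ 0) ∧ cnt F g < N₀) + β ^ N₀ * ind (∀ b, g b ≠ 0) := by
    intro g
    have hp : 0 ≤ β ^ N₀ := pow_nonneg hβ0 _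
    by_cases hz : ∀ b, g b ≠ 0
    · rw [ind_true hz]
      by_cases hc : cnt F g < N₀
      · rw [ind_true ⟨hz, hc⟩]
        have : β ^ cnt F g ≤ 1 := pow_le_one₀ hβ0 hβ1
        linarith
      · rw [ind_false (by tauto)]
        have : β ^ cnt F g ≤ β ^ N₀ := pow_le_pow_of_le_one hβ0 hβ1 (by omega)
        linarith
    · rw [ind_false hz, zero_mul, mul_zero, add_zero]
      exact ind_nonneg _
  refine (ex_mono h1).trans ?_
  rw [ex_add, ex_mul, ex_all_ne]
  apply add_le_add _ (le_refl _)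
  have ht : 0 < M - N₀ := by linarith
  have h2 := ex_cheb (fun g : ι → W₁ × W₂ => (cnt F g : ℝ) - M * ind (∀ b, g b ≠ 0))
    (fun g => (∀ b, g b ≠ 0) ∧ cnt F g < N₀) ht (by
      rintro g ⟨hz, hc⟩
      rw [ind_true hz, mul_one, abs_sub_comm]
      have : (cnt F g : ℝ) < N₀ := by exact_mod_cast hc
      exact le_trans (by linarith) (le_abs_self _))
  refine h2.trans ?_
  exact div_le_div_of_nonneg_right (ex_second hQ M) (by positivity)

end Pool.Agent.H315_Clean
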