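import Pool.Agent.H315_Clean.Mix
import Pool.Agent.TH485.Uni.Main

/-!
# The numerical constants
-/

open Finset Filter

set_option autoImplicit false

namespace Pool.Agent.H315_Clean

open Pool.Agent.H369R2.TD Pool.Agent.TH485.Uni

/-- `j * t(j, j-1) ≤ cg j` -/
noncomputable def cg (j : ℕ) : ℝ := (g j : ℝ) / 100000

theorem dn_eq (m : ℕ) : ((m : ℝ) + 1) * dn m = cg (m + 1) := by
  unfold dn cg
  have : (0 : ℝ) < (m : ℝ) + 1 := by positivity
  field_simp

theorem g_le_small : ∀ j : ℕ, j < 64 → g j ≤ 262307 := by decide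

theorem cg_le (j : ℕ) : cg j ≤ 262307 / 100000 := by
  unfold cg
  have h : g j ≤ 262307 := by
    rcases Nat.lt_or_ge j 64 with h | h
    · exact g_le_small j h
    · rw [g_big h]; norm_num
  have h' : (g j : ℝ) ≤ 262307 := by exact_mod_cast h
  linarith

theorem exp5_up : Real.exp 5 < 14841316 / 100000 := by
  have h1 : Real.exp 5 = Real.exp 1 ^ 5 := by
    rw [← Real.exp_nat_mul]; norm_num
  have h2 := Real.exp_one_lt_d9
  rw [h1]
  calc Real.exp 1 ^ 5 < 2.7182818286 ^ 5 := by gcongr
    _ < _ := by norm_num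

theorem exp5_lo : 14841315 / 100000 < Real.exp 5 := by
  have h1 : Real.exp 5 = Real.exp 1 ^ 5 := by
    rw [← Real.exp_nat_mul]; norm_num
  have h2 := Real.exp_one_gt_d9
  rw [h1]
  calc (14841315 / 100000 : ℝ) < 2.7182818283 ^ 5 := by norm_num
    _ < _ := by gcongr

theorem exp11_lo : 59874 < Real.exp 11 := by
  have h1 : Real.exp 11 = Real.exp 1 ^ 11 := by
    rw [← Real.exp_nat_mul]; norm_num
  have h2 := Real.exp_one_gt_d9
  rw [h1]
  calc (59874 : ℝ) < 2.7182818283 ^ 11 := by norm_num
    _ < _ := by gcongr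

theorem exp_tiny : Real.exp (2 / 1000000) ≤ 1000003 / 1000000 := by
  have := Real.exp_bound' (x := 2 / 1000000) (by norm_num) (by norm_num) (n := 2) (by norm_num)
  refine this.trans ?_
  simp [Finset.sum_range_succ, Nat.factorial]
  norm_num

theorem sum_num : ∑ j ∈ range 17, (cg j - 262307 / 100000) *
    ((5000001 / 1000000 : ℝ) ^ j / (j.factorial : ℝ)) ≤ - (137398 / 1000) := by
  simp only [Finset.sum_range_succ, Finset.sum_range_zero, cg, g, cN]
  norm_num [Nat.factorial]

theorem psi_nonneg : 0 ≤ Psi 17 cg (262307 / 100000) (5000001 / 1000000) := by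
  unfold Psi
  have h1 : (1 : ℝ) + 5000001 / 1000000 ≤ Real.exp (5000001 / 1000000) := by
    have := Real.add_one_le_exp (5000001 / 1000000 : ℝ)
    linarith
  have h2 : ∑ j ∈ range 17, (5000001 / 1000000 : ℝ) ^ j / (j.factorial : ℝ) ≤
      Real.exp (5000001 / 1000000) := Real.sum_le_exp_of_nonneg (by norm_num) 17
  have h3 : ∑ j ∈ range 17, (cg j - 262307 / 100000) *
      ((5000001 / 1000000 : ℝ) ^ j / (j.factorial : ℝ)) =
      ∑ j ∈ range 17, cg j * ((5000001 / 1000000 : ℝ) ^ j / (j.factorial : ℝ)) -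
      262307 / 100000 * ∑ j ∈ range 17, (5000001 / 1000000 : ℝ) ^ j / (j.factorial : ℝ) := by
    rw [mul_sum, ← sum_sub_distrib]
    refine sum_congr rfl fun j _ => ?_
    ring
  have h4 : 0 ≤ ∑ j ∈ range 17, cg j * ((5000001 / 1000000 : ℝ) ^ j / (j.factorial : ℝ)) := by
    refine sum_nonneg fun j _ => mul_nonneg ?_ (by positivity)
    unfold cg
    positivity
  rw [h3]
  nlinarith

theorem D_num : Real.exp (-(4999999 / 1000000)) *
    Psi 17 cg (262307 / 100000) (5000001 / 1000000) + 6 * Real.exp (-5) ≤ 173773 / 100000 := by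
  have hlow : (100000 : ℝ) / 14841316 ≤ Real.exp (-(4999999 / 1000000)) := by
    have h1 : Real.exp (-5) ≤ Real.exp (-(4999999 / 1000000)) :=
      Real.exp_le_exp.2 (by norm_num)
    refine le_trans ?_ h1
    rw [Real.exp_neg, ← one_div, div_le_div_iff₀ (by norm_num) (Real.exp_pos _)]
    have := exp5_up
    linarith
  have hup : Real.exp (-5) ≤ (100000 : ℝ) / 14841315 := by
    rw [Real.exp_neg, ← one_div, div_le_div_iff₀ (Real.exp_pos _) (by norm_num)]
    have := exp5_lo
    linarith
  have hx : Real.exp (-(4999999 / 1000000)) * Real.exp (5000001 / 1000000) =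
      Real.exp (2 / 1000000) := by
    rw [← Real.exp_add]; norm_num
  have hS := sum_num
  rw [Psi, mul_add]
  have h1 : Real.exp (-(4999999 / 1000000)) * (262307 / 100000 * Real.exp (5000001 / 1000000))
      = 262307 / 100000 * Real.exp (2 / 1000000) := by
    rw [← hx]; ring
  rw [h1]
  have h2 := exp_tiny
  have h3 : Real.exp (-(4999999 / 1000000)) * ∑ j ∈ range 17, (cg j - 262307 / 100000) *
      ((5000001 / 1000000 : ℝ) ^ j / (j.factorial : ℝ))
      ≤ (100000 : ℝ) / 14841316 * (- (137398 / 1000)) := by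
    nlinarith
  linarith

theorem tur_1752 : ∀ᶠ r : ℕ in atTop, Tur r ((1752 / 1000) / ((r : ℝ) + 1)) := by
  have hF : Real.exp (-(5 + 6)) < 16702 / 1000000000 := by
    rw [Real.exp_neg, ← one_div, div_lt_div_iff₀ (Real.exp_pos _) (by norm_num)]
    have h1 := exp11_lo
    have h2 : Real.exp (5 + 6) = Real.exp 11 := by norm_num
    rw [h2]
    linarith
  refine mix (D := 173773 / 100000) (Φ := 16702 / 1000000000) (lam := 99593 / 100000)
    (by norm_num) (by norm_num) (by norm_num) (fun η hη => ?_) (by norm_num) (by norm_num)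
    (by norm_num)
  exact clean_part (δ := dn) (c := cg) (J := 17) (K := 262307 / 100000) tur_dn dn_nonneg
    (by norm_num [cg, g_zero]) (fun m _ => (dn_eq m).le)
    (fun m => (dn_eq m).le.trans (cg_le _)) (by norm_num)
    (y := 4999999 / 1000000) (x := 5000001 / 1000000) (lam := 5) (z := 6)
    (by norm_num) (by norm_num) (by norm_num) (by norm_num) hη D_num hF psi_nonneg

end Pool.Agent.H315_Clean
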