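import Mathlib
import Pool.Agent.Helper213.Sidon.Prime

/-!
# The parameters of the code
-/

open Finset Filter Topology

set_option autoImplicit false

namespace Pool.Agent.H315_Clean

theorem exists_prime_gt (x : ℝ) : ∃ p : ℕ, p.Prime ∧ x < (p : ℝ) := by
  obtain ⟨p, hp, hpp⟩ := Nat.exists_infinite_primes (⌊x⌋₊ + 1)
  refine ⟨p, hpp, ?_⟩
  have h1 := Nat.lt_floor_add_one x
  have h2 : ((⌊x⌋₊ + 1 : ℕ) : ℝ) ≤ p := by exact_mod_cast hp
  push_cast at h2
  linarith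

open Classical in
/-- the least prime above `x` -/
noncomputable def npr (x : ℝ) : ℕ := Nat.find (exists_prime_gt x)

theorem npr_prime (x : ℝ) : (npr x).Prime := by
  classical
  exact (Nat.find_spec (exists_prime_gt x)).1

theorem lt_npr (x : ℝ) : x < (npr x : ℝ) := by
  classical
  exact (Nat.find_spec (exists_prime_gt x)).2

theorem npr_le {x : ℝ} {p : ℕ} (hp : p.Prime) (hx : x < (p : ℝ)) : npr x ≤ p := by
  classical
  exact Nat.find_min' (exists_prime_gt x) ⟨hp, hx⟩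

theorem tendsto_npr : Tendsto (fun x : ℝ => (npr x : ℝ) / x) atTop (𝓝 1) := by
  rw [Metric.tendsto_nhds]
  intro ε hε
  filter_upwards [Pool.Agent.Helper213.Sidon.prime_between (ε / 2) (by positivity),
    eventually_gt_atTop 0] with x ⟨p, hp, hp1, hp2⟩ hx
  have h1 : (npr x : ℝ) ≤ p := by exact_mod_cast npr_le hp hp1
  have h2 := lt_npr x
  rw [Real.dist_eq, abs_lt]
  constructor
  · have : 1 < (npr x : ℝ) / x := by rwa [lt_div_iff₀ hx, one_mul]
    linarith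
  · have : (npr x : ℝ) / x ≤ 1 + ε / 2 := by
      rw [div_le_iff₀ hx]
      exact h1.trans hp2
    linarith

/-- the dimension of the first code -/
def sd (q d : ℕ) : ℕ := Nat.log q (Nat.sqrt d) + 1

theorem sd_pos (q d : ℕ) : 1 ≤ sd q d := by unfold sd; omega

theorem sqrt_lt_pow {q : ℕ} (hq : 2 ≤ q) (d : ℕ) : Nat.sqrt d < q ^ sd q d :=
  Nat.lt_pow_succ_log_self (by omega) _

theorem pow_le_sqrt {q d : ℕ} (hd : 1 ≤ d) : q ^ sd q d ≤ q * Nat.sqrt d := by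
  unfold sd
  rw [pow_succ, mul_comm]
  apply Nat.mul_le_mul_left
  apply Nat.pow_log_le_self
  have : 1 ≤ Nat.sqrt d := Nat.le_sqrt'.2 (by simpa using hd)
  omega

theorem tendsto_sqrt : Tendsto (fun d : ℕ => (Nat.sqrt d : ℝ)) atTop atTop := by
  apply tendsto_natCast_atTop_atTop.comp
  refine tendsto_atTop.2 fun b => ?_
  filter_upwards [eventually_ge_atTop (b ^ 2)] with d hd
  exact Nat.le_sqrt'.2 hd

theorem tendsto_A {q : ℕ} (hq : 2 ≤ q) :
    Tendsto (fun d : ℕ => (q : ℝ) ^ sd q d) atTop atTop := by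
  refine tendsto_atTop_mono (fun d => ?_) tendsto_sqrt
  have := (sqrt_lt_pow hq d).le
  exact_mod_cast this

theorem sd_le_eventually {q : ℕ} (hq : 2 ≤ q) : ∀ᶠ d in atTop, sd q d ≤ d := by
  have h1 : ∀ d : ℕ, sd q d ≤ Nat.sqrt d + 1 := fun d => by
    unfold sd
    have := Nat.log_le_self q (Nat.sqrt d)
    omega
  filter_upwards [eventually_ge_atTop 4] with d hd
  have h2 := h1 d
  have h3 := Nat.sqrt_le' d
  have h4 : 2 ≤ Nat.sqrt d := Nat.le_sqrt'.2 (by omega)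
  nlinarith

theorem tendsto_A_div {q : ℕ} (hq : 2 ≤ q) :
    Tendsto (fun d : ℕ => (q : ℝ) ^ sd q d / (q : ℝ) ^ (d + 1)) atTop (𝓝 0) := by
  have hq1 : (1 : ℝ) < q := by exact_mod_cast hq
  have h1 := tendsto_pow_const_div_const_pow_of_one_lt 1 hq1
  refine squeeze_zero' (Eventually.of_forall fun d => by positivity) ?_ h1
  filter_upwards [eventually_ge_atTop 1] with d hd
  have h2 : ((q ^ sd q d : ℕ) : ℝ) ≤ ((q * Nat.sqrt d : ℕ) : ℝ) := by
    exact_mod_cast pow_le_sqrt (q := q) hd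
  push_cast at h2
  have h3 : (Nat.sqrt d : ℝ) ≤ d := by exact_mod_cast Nat.sqrt_le_self d
  rw [pow_succ (q : ℝ) d, pow_one, div_le_div_iff₀ (by positivity) (by positivity)]
  have h4 : (0 : ℝ) < (q : ℝ) ^ d := by positivity
  calc (q : ℝ) ^ sd q d * (q : ℝ) ^ d ≤ (q * Nat.sqrt d) * (q : ℝ) ^ d :=
        mul_le_mul_of_nonneg_right h2 h4.le
    _ ≤ (q * d) * (q : ℝ) ^ d := by gcongr
    _ = d * ((q : ℝ) ^ d * q) := by ring

/-- target for the prime of the second code -/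
noncomputable def Xd (q : ℕ) (lam : ℝ) (d : ℕ) : ℝ := ((d : ℝ) + 1) / (lam * (q : ℝ) ^ sd q d)

theorem tendsto_X {q : ℕ} (hq : 2 ≤ q) {lam : ℝ} (hl : 0 < lam) :
    Tendsto (Xd q lam) atTop atTop := by
  have hq0 : (0 : ℝ) < q := by positivity
  have h1 : Tendsto (fun d : ℕ => (1 / (lam * q)) * (Nat.sqrt d : ℝ)) atTop atTop :=
    tendsto_sqrt.const_mul_atTop (by positivity)
  refine tendsto_atTop_mono' _ ?_ h1
  filter_upwards [eventually_ge_atTop 1] with d hd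
  unfold Xd
  have h2 : ((q ^ sd q d : ℕ) : ℝ) ≤ ((q * Nat.sqrt d : ℕ) : ℝ) := by
    exact_mod_cast pow_le_sqrt (q := q) hd
  push_cast at h2
  have h3 : ((Nat.sqrt d ^ 2 : ℕ) : ℝ) ≤ (d : ℝ) := by exact_mod_cast Nat.sqrt_le' d
  push_cast at h3
  rw [le_div_iff₀ (by positivity)]
  have h4 : (0 : ℝ) ≤ (Nat.sqrt d : ℝ) := by positivity
  calc 1 / (lam * q) * (Nat.sqrt d : ℝ) * (lam * (q : ℝ) ^ sd q d)
      ≤ 1 / (lam * q) * (Nat.sqrt d : ℝ) * (lam * (q * Nat.sqrt d)) := by gcongr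
    _ = (Nat.sqrt d : ℝ) ^ 2 := by field_simp
    _ ≤ d + 1 := by linarith

/-- the order of the second field -/
noncomputable def Pd (q : ℕ) (lam : ℝ) (d : ℕ) : ℕ := npr (Xd q lam d)

theorem Pd_prime (q : ℕ) (lam : ℝ) (d : ℕ) : (Pd q lam d).Prime := npr_prime _

theorem tendsto_P {q : ℕ} (hq : 2 ≤ q) {lam : ℝ} (hl : 0 < lam) :
    Tendsto (fun d => (Pd q lam d : ℝ)) atTop atTop :=
  tendsto_atTop_mono (fun d => (lt_npr (Xd q lam d)).le) (tendsto_X hq hl)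

theorem tendsto_PX {q : ℕ} (hq : 2 ≤ q) {lam : ℝ} (hl : 0 < lam) :
    Tendsto (fun d => (Pd q lam d : ℝ) / Xd q lam d) atTop (𝓝 1) :=
  tendsto_npr.comp (tendsto_X hq hl)

theorem tendsto_P_div {q : ℕ} (hq : 2 ≤ q) {lam : ℝ} (hl : 0 < lam) :
    Tendsto (fun d : ℕ => (Pd q lam d : ℝ) / ((d : ℝ) + 1)) atTop (𝓝 0) := by
  have hq0 : (0 : ℝ) < q := by positivity
  have h1 : Tendsto (fun d : ℕ => 1 / lam * ((q : ℝ) ^ sd q d)⁻¹) atTop (𝓝 (1 / lam * 0)) :=
    (tendsto_inv_atTop_zero.comp (tendsto_A hq)).const_mul _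
  have h2 := (tendsto_PX hq hl).mul h1
  rw [mul_zero, mul_zero] at h2
  refine h2.congr fun d => ?_
  unfold Xd
  have : (0 : ℝ) < (d : ℝ) + 1 := by positivity
  have h3 : (0 : ℝ) < (q : ℝ) ^ sd q d := by positivity
  field_simp

theorem tendsto_lam {q : ℕ} (hq : 2 ≤ q) {lam : ℝ} (hl : 0 < lam) :
    Tendsto (fun d : ℕ => ((d : ℝ) + 1) / ((q : ℝ) ^ sd q d * Pd q lam d)) atTop (𝓝 lam) := by
  have hq0 : (0 : ℝ) < q := by positivity
  have h1 := ((tendsto_PX hq hl).inv₀ one_ne_zero).const_mul lam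
  rw [inv_one, mul_one] at h1
  refine h1.congr fun d => ?_
  unfold Xd
  have : (0 : ℝ) < (d : ℝ) + 1 := by positivity
  have h3 : (0 : ℝ) < (q : ℝ) ^ sd q d := by positivity
  have h4 : (0 : ℝ) < (Pd q lam d : ℝ) := by exact_mod_cast (Pd_prime q lam d).pos
  field_simp

end Pool.Agent.H315_Clean
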