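import Pool.Agent.H315_Clean.Code
import Pool.Agent.H315_Clean.Seq
import Pool.Agent.H315_Clean.Lim
import Pool.Agent.H369R2.TD.Bin
import Pool.Agent.H369R2.TD.Basic

/-!
# One part: the random family for large `d`
-/

open Finset Filter Topology

set_option autoImplicit false

namespace Pool.Agent.H315_Clean

open Pool.Agent.H369R2.TD

/-- the binomial weight is at most the Poisson weight -/
theorem bin_weight' {d q : ℕ} {y x : ℝ} (hq : 2 ≤ q) (hy : y ≤ (d : ℝ) / q)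
    (hx : ((d : ℝ) + 1) / q * Real.exp (1 / q) ≤ x) {m : ℕ} (hm : m ≤ d) :
    ((d + 1).choose (m + 1) : ℝ) * ((q : ℝ) - 1) ^ (d - m) / (q : ℝ) ^ (d + 1) ≤
      Real.exp (-y) * (x ^ (m + 1) / ((m + 1).factorial : ℝ)) := by
  have hq' : (2 : ℝ) ≤ q := by exact_mod_cast hq
  have hq0 : (0 : ℝ) < q := by linarith
  have hf : (0 : ℝ) < ((m + 1).factorial : ℝ) := by exact_mod_cast Nat.factorial_pos _
  have h1 : ((d + 1).choose (m + 1) : ℝ) ≤ ((d : ℝ) + 1) ^ (m + 1) / ((m + 1).factorial : ℝ) := by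
    have := Nat.choose_le_pow_div (α := ℝ) (m + 1) (d + 1)
    push_cast at this
    exact this
  have h2 : ((q : ℝ) - 1) ^ (d - m) / (q : ℝ) ^ (d + 1) =
      (((q : ℝ) - 1) / q) ^ (d - m) * (1 / (q : ℝ) ^ (m + 1)) := by
    have h3 : d + 1 = (d - m) + (m + 1) := by omega
    rw [h3, pow_add, div_pow]
    have : (d - m) + (m + 1) - m = d - m + 1 := by omega
    field_simp
  have h4 : (((q : ℝ) - 1) / q) ^ (d - m) ≤
      Real.exp (-(((d : ℝ) + 1) / q)) * Real.exp (1 / q) ^ (m + 1) := by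
    have h5 : ((q : ℝ) - 1) / q ≤ Real.exp (-(1 / q)) := by
      have h6 := Real.one_sub_le_exp_neg (1 / (q : ℝ))
      have h3 : ((q : ℝ) - 1) / q = 1 - 1 / q := by field_simp
      rw [h3]; exact h6
    have h6 : 0 ≤ ((q : ℝ) - 1) / q := by
      apply div_nonneg <;> linarith
    refine (pow_le_pow_left₀ h6 h5 _).trans (le_of_eq ?_)
    rw [← Real.exp_nat_mul, ← Real.exp_nat_mul, ← Real.exp_add]
    congr 1
    rw [Nat.cast_sub hm]
    push_cast
    ring
  have hA : 0 ≤ (((q : ℝ) - 1) / q) ^ (d - m) := by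
    apply pow_nonneg
    apply div_nonneg <;> linarith
  have h7 : 0 ≤ ((d : ℝ) + 1) / q * Real.exp (1 / q) := by positivity
  have h8 : (((d : ℝ) + 1) / q * Real.exp (1 / q)) ^ (m + 1) ≤ x ^ (m + 1) :=
    pow_le_pow_left₀ h7 hx _
  have h9 : Real.exp (-(((d : ℝ) + 1) / q)) ≤ Real.exp (-y) := by
    apply Real.exp_le_exp.2
    have : (d : ℝ) / q ≤ ((d : ℝ) + 1) / q := by
      apply div_le_div_of_nonneg_right _ hq0.le
      linarith
    linarith
  calc ((d + 1).choose (m + 1) : ℝ) * ((q : ℝ) - 1) ^ (d - m) / (q : ℝ) ^ (d + 1)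
      = ((d + 1).choose (m + 1) : ℝ) * ((((q : ℝ) - 1) / q) ^ (d - m) * (1 / (q : ℝ) ^ (m + 1))) := by
        rw [← h2]; ring
    _ ≤ (((d : ℝ) + 1) ^ (m + 1) / ((m + 1).factorial : ℝ)) *
        ((Real.exp (-(((d : ℝ) + 1) / q)) * Real.exp (1 / q) ^ (m + 1)) *
          (1 / (q : ℝ) ^ (m + 1))) := by
        apply mul_le_mul h1 _ (by positivity) (by positivity)
        exact mul_le_mul_of_nonneg_right h4 (by positivity)
    _ = Real.exp (-(((d : ℝ) + 1) / q)) *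
        ((((d : ℝ) + 1) / q * Real.exp (1 / q)) ^ (m + 1) / ((m + 1).factorial : ℝ)) := by
        rw [mul_pow, div_pow]
        ring
    _ ≤ Real.exp (-y) * (x ^ (m + 1) / ((m + 1).factorial : ℝ)) := by
        apply mul_le_mul h9 _ (by positivity) (by positivity)
        exact div_le_div_of_nonneg_right h8 hf.le

theorem sm_le {d q J : ℕ} {δ c : ℕ → ℝ} {K y x : ℝ} (hq : 2 ≤ q) (h0 : ∀ m, 0 ≤ δ m)
    (hc0 : c 0 = 0) (hc : ∀ m, m + 1 < J → ((m : ℝ) + 1) * δ m ≤ c (m + 1))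
    (hK : ∀ m : ℕ, ((m : ℝ) + 1) * δ m ≤ K) (hy : y ≤ (d : ℝ) / q) (hJ : 1 ≤ J)
    (hx : ((d : ℝ) + 1) / q * Real.exp (1 / q) ≤ x) :
    ((d : ℝ) + 1) * sm q d δ ≤ Real.exp (-y) * Psi J c K x := by
  have hq' : (2 : ℝ) ≤ q := by exact_mod_cast hq
  have hq0 : (0 : ℝ) < q := by linarith
  have hx0 : 0 ≤ x := le_trans (by positivity) hx
  unfold sm
  have hterm : ∀ m ∈ range (d + 1), ((d : ℝ) + 1) * (1 / (q : ℝ) *
      ((d.choose m : ℝ) * ((1 / (q : ℝ)) ^ m * (1 - 1 / (q : ℝ)) ^ (d - m) * δ m))) ≤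
      Real.exp (-y) *
        ((((m : ℝ) + 1) * δ m) * (x ^ (m + 1) / ((m + 1).factorial : ℝ))) := by
    intro m hm
    rw [Finset.mem_range] at hm
    have e1 : ((d : ℝ) + 1) * (d.choose m : ℝ) = ((d + 1).choose (m + 1) : ℝ) * ((m : ℝ) + 1) := by
      exact_mod_cast Nat.add_one_mul_choose_eq d m
    have e2 : 1 / (q : ℝ) * ((1 / (q : ℝ)) ^ m * (1 - 1 / (q : ℝ)) ^ (d - m)) =
        ((q : ℝ) - 1) ^ (d - m) / (q : ℝ) ^ (d + 1) := by
      have h3 : (q : ℝ) ^ (d + 1) = (q : ℝ) ^ (d - m) * (q : ℝ) ^ m * q := by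
        rw [← pow_add, ← pow_succ]
        congr 1
        omega
      have h4 : 1 - 1 / (q : ℝ) = ((q : ℝ) - 1) / q := by field_simp
      rw [h3, h4, div_pow, div_pow, one_pow]
      field_simp
    have e3 : ((d : ℝ) + 1) * (1 / (q : ℝ) *
      ((d.choose m : ℝ) * ((1 / (q : ℝ)) ^ m * (1 - 1 / (q : ℝ)) ^ (d - m) * δ m))) =
          ((((d + 1).choose (m + 1) : ℝ) * ((q : ℝ) - 1) ^ (d - m) / (q : ℝ) ^ (d + 1)) *
            (((m : ℝ) + 1) * δ m)) := by
      calc ((d : ℝ) + 1) * (1 / (q : ℝ) *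
          ((d.choose m : ℝ) * ((1 / (q : ℝ)) ^ m * (1 - 1 / (q : ℝ)) ^ (d - m) * δ m)))
          = (((d : ℝ) + 1) * (d.choose m : ℝ)) *
            (1 / (q : ℝ) * ((1 / (q : ℝ)) ^ m * (1 - 1 / (q : ℝ)) ^ (d - m))) * δ m := by ring
        _ = _ := by rw [e1, e2]; ring
    rw [e3]
    have hw : 0 ≤ ((m : ℝ) + 1) * δ m := mul_nonneg (by positivity) (h0 m)
    calc _ ≤ (Real.exp (-y) * (x ^ (m + 1) / ((m + 1).factorial : ℝ))) * (((m : ℝ) + 1) * δ m) :=
          mul_le_mul_of_nonneg_right (bin_weight' hq hy hx (by omega)) hw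
      _ = _ := by ring
  rw [Finset.mul_sum, Finset.mul_sum]
  refine (Finset.sum_le_sum hterm).trans ?_
  rw [← Finset.mul_sum]
  apply mul_le_mul_of_nonneg_left _ (Real.exp_pos _).le
  exact psi_le hx0 (fun m => mul_nonneg (by positivity) (h0 m)) hc0 hc hK hJ

/-- for large `d` there is a random family with the asymptotic parameters -/
theorem clean_part {δ c : ℕ → ℝ} {J : ℕ} {K : ℝ} (hδ : ∀ m, Tur m (δ m)) (h0 : ∀ m, 0 ≤ δ m)
    (hc0 : c 0 = 0) (hc : ∀ m, m + 1 < J → ((m : ℝ) + 1) * δ m ≤ c (m + 1))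
    (hK : ∀ m : ℕ, ((m : ℝ) + 1) * δ m ≤ K) (hJ : 1 ≤ J)
    {y x lam z D Φ η : ℝ} (hl : 0 < lam) (hy : y < lam) (hx : lam < x) (hz : 0 < z) (hη : 0 < η)
    (hD : Real.exp (-y) * Psi J c K x + z * Real.exp (-lam) ≤ D)
    (hΦ : Real.exp (-(lam + z)) < Φ) (hPsi : 0 ≤ Psi J c K x) :
    ∀ᶠ d : ℕ in atTop, ∀ n, Rnd n d ((1 + η) * D / ((d : ℝ) + 1)) Φ := by
  -- the first field
  obtain ⟨q, hqge, hqp⟩ := Nat.exists_infinite_primes (⌈1 / η⌉₊ + 3)
  have hFact : Fact q.Prime := ⟨hqp⟩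
  have hq2 : 2 ≤ q := hqp.two_le
  have hqR : (2 : ℝ) ≤ q := by exact_mod_cast hq2
  have hq0 : (0 : ℝ) < q := by linarith
  have hqη : 1 / η + 2 < (q : ℝ) := by
    have h1 : ((⌈1 / η⌉₊ + 3 : ℕ) : ℝ) ≤ q := by exact_mod_cast hqge
    have h2 := Nat.le_ceil (1 / η)
    push_cast at h1
    linarith
  have hqinv : 0 < 1 - 1 / (q : ℝ) := by
    rw [sub_pos, div_lt_one hq0]; linarith
  have hqη' : 1 / (1 - 1 / (q : ℝ)) < 1 + η := by
    rw [div_lt_iff₀ hqinv]
    have h1 : 1 / η * η = 1 := by field_simp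
    have h2 : (1 + η) * (1 - 1 / (q : ℝ)) = ((1 + η) * (q - 1)) / q := by field_simp
    rw [h2, lt_div_iff₀ hq0]
    nlinarith
  -- sequences
  set A : ℕ → ℝ := fun d => (q : ℝ) ^ sd q d with hAdef
  set P : ℕ → ℝ := fun d => (Pd q lam d : ℝ) with hPdef
  have tA : Tendsto A atTop atTop := tendsto_A hq2
  have tP : Tendsto P atTop atTop := tendsto_P hq2 hl
  have tPd : Tendsto (fun d : ℕ => P d / ((d : ℝ) + 1)) atTop (𝓝 0) := tendsto_P_div hq2 hl
  have tQ : Tendsto (fun d : ℕ => ((d : ℝ) + 1) / (A d * P d)) atTop (𝓝 lam) := tendsto_lam hq2 hl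
  have tQ' : Tendsto (fun d : ℕ => (d : ℝ) / (A d * P d)) atTop (𝓝 lam) := lim_d_div tA tP tQ
  have tAP : Tendsto (fun d => A d * P d) atTop atTop := tA.atTop_mul_atTop₀ tP
  have tAd : Tendsto (fun d : ℕ => A d / (q : ℝ) ^ (d + 1)) atTop (𝓝 0) := tendsto_A_div hq2
  have tPinv : Tendsto (fun d => 1 / P d) atTop (𝓝 0) := by
    refine (tendsto_inv_atTop_zero.comp tP).congr fun d => ?_
    simp
  -- the correction factors
  set c1 : ℕ → ℝ := fun d => 1 / (1 - A d / (q : ℝ) ^ (d + 1)) with hc1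
  set c2 : ℕ → ℝ := fun d => 1 / (1 - 1 / P d) with hc2
  have tc1 : Tendsto c1 atTop (𝓝 1) := by
    have h1 := (tAd.const_sub 1).inv₀ (by norm_num)
    rw [sub_zero, inv_one] at h1
    refine h1.congr fun d => ?_
    simp [hc1]
  have tc2 : Tendsto c2 atTop (𝓝 1) := by
    have h1 := (tPinv.const_sub 1).inv₀ (by norm_num)
    rw [sub_zero, inv_one] at h1
    refine h1.congr fun d => ?_
    simp [hc2]
  -- numbers of the second stage
  set M : ℕ → ℝ := Mf (q : ℝ) lam P with hM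
  have tM : Tendsto M atTop atTop := lim_M tP tPd
  obtain ⟨ε, hε0, hε1, hεΦ⟩ : ∃ ε : ℝ, 0 < ε ∧ ε < 1 ∧ Real.exp (-(lam + (1 - ε) * z)) < Φ := by
    have hcont : Tendsto (fun ε : ℝ => Real.exp (-(lam + (1 - ε) * z)))
        (nhdsWithin 0 (Set.Ioi 0)) (nhds (Real.exp (-(lam + (1 - 0) * z)))) := by
      apply Tendsto.mono_left _ nhdsWithin_le_nhds
      exact (Continuous.tendsto (f := fun ε : ℝ => Real.exp (-(lam + (1 - ε) * z)))
        (by fun_prop) 0)
    have h1 : Real.exp (-(lam + (1 - (0 : ℝ)) * z)) < Φ := by simpa using hΦ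
    have h2 := (hcont.eventually_lt_const h1).and (self_mem_nhdsWithin (s := Set.Ioi (0 : ℝ)))
    have h3 : ∀ᶠ ε : ℝ in nhdsWithin 0 (Set.Ioi 0), ε < 1 :=
      (Filter.Tendsto.eventually_lt_const (by norm_num : (0 : ℝ) < 1)
        (tendsto_id.mono_left nhdsWithin_le_nhds))
    obtain ⟨ε, ⟨h4, h5⟩, h6⟩ := (h2.and h3).exists
    exact ⟨ε, h5, h6, h4⟩
  set N₀ : ℕ → ℕ := fun d => ⌊(1 - ε) * M d⌋₊ with hN₀
  set L : ℕ → ℕ := fun d => ⌊z⁻¹ * M d⌋₊ with hL
  have tN₀ : Tendsto (fun d => (N₀ d : ℝ) / M d) atTop (𝓝 (1 - ε)) :=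
    (tendsto_nat_floor_mul_div_atTop (by linarith : (0 : ℝ) ≤ 1 - ε)).comp tM
  have tL : Tendsto (fun d => (L d : ℝ) / M d) atTop (𝓝 z⁻¹) :=
    (tendsto_nat_floor_mul_div_atTop (by positivity : (0 : ℝ) ≤ z⁻¹)).comp tM
  have tML : Tendsto (fun d => M d / (L d : ℝ)) atTop (𝓝 z) := by
    have h1 := tL.inv₀ (by positivity)
    rw [inv_inv] at h1
    refine h1.congr fun d => ?_
    rw [inv_div]
  have tLtop : Tendsto L atTop atTop :=
    tendsto_nat_floor_atTop.comp (tM.const_mul_atTop (by positivity))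
  -- the failure probability
  have tvr := lim_vr (q := (q : ℝ)) tA tP tPd tQ
  have tvr' : Tendsto (fun d : ℕ => vr q (A d) (A d * P d) (M d) (d + 1) / (M d - N₀ d) ^ 2)
      atTop (𝓝 0) := by
    have h1 := ((tN₀.const_sub 1).inv₀ (by simp [hε0.ne'])).pow 2
    have h2 := tvr.mul h1
    rw [zero_mul] at h2
    refine h2.congr' ?_
    filter_upwards [tM.eventually_gt_atTop 0] with d hd
    have h3 : (1 - (N₀ d : ℝ) / M d)⁻¹ = M d / (M d - N₀ d) := by
      rw [← inv_div]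
      congr 1
      field_simp
    rw [h3, div_pow]
    have hd' : M d ≠ 0 := hd.ne'
    rw [← hM]
    field_simp
  have tpz := lim_pz tA tP tQ
  have texp : Tendsto (fun d => Real.exp (-((N₀ d : ℝ) / L d))) atTop
      (𝓝 (Real.exp (-((1 - ε) * z)))) := by
    apply (Real.continuous_exp.tendsto _).comp
    apply Tendsto.neg
    have h1 := tN₀.mul tML
    refine h1.congr' ?_
    filter_upwards [tM.eventually_gt_atTop 0] with d hd
    have hd' : M d ≠ 0 := hd.ne'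
    field_simp
  have tΦ : Tendsto (fun d : ℕ => 1 / A d + 1 / P d + c1 d * c2 d *
      (vr q (A d) (A d * P d) (M d) (d + 1) / (M d - N₀ d) ^ 2 +
        Real.exp (-((N₀ d : ℝ) / L d)) * pz (A d * P d) (d + 1))) atTop
      (𝓝 (0 + 0 + 1 * 1 * (0 + Real.exp (-((1 - ε) * z)) * Real.exp (-lam)))) := by
    refine ((Tendsto.congr (fun d => by simp) (tendsto_inv_atTop_zero.comp tA)).add tPinv).add
      ((tc1.mul tc2).mul (tvr'.add (texp.mul tpz)))
  have hΦlim : 0 + 0 + 1 * 1 * (0 + Real.exp (-((1 - ε) * z)) * Real.exp (-lam)) < Φ := by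
    rw [← Real.exp_add]
    have : -((1 - ε) * z) + -lam = -(lam + (1 - ε) * z) := by ring
    rw [this]
    linarith
  -- the cost
  have tp1 := lim_p1 (q := (q : ℝ)) tA tP tQ
  have tcost2 : Tendsto (fun d : ℕ => ((d : ℝ) + 1) * (p1 q (A d) (A d * P d) (d + 1) *
      (1 / (L d : ℝ)))) atTop (𝓝 (z * Real.exp (-lam))) := by
    have h1 := (tp1.mul tML).mul_const (Real.exp (((q : ℝ) - 1) * lam))
    have h2 : Real.exp (-((q : ℝ) * lam)) * z * Real.exp (((q : ℝ) - 1) * lam) =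
        z * Real.exp (-lam) := by
      have h3 : Real.exp (-((q : ℝ) * lam)) * Real.exp (((q : ℝ) - 1) * lam) =
          Real.exp (-lam) := by
        rw [← Real.exp_add]; congr 1; ring
      rw [← h3]; ring
    rw [h2] at h1
    refine h1.congr' ?_
    filter_upwards [tP.eventually_gt_atTop 0] with d hd
    rw [hM]
    unfold Mf
    have h4 : Real.exp (-(((q : ℝ) - 1) * lam)) * Real.exp (((q : ℝ) - 1) * lam) = 1 := by
      rw [← Real.exp_add]; simp
    have hd' : P d ≠ 0 := hd.ne'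
    calc p1 q (A d) (A d * P d) (d + 1) * P d *
          (((d : ℝ) + 1) / P d * Real.exp (-(((q : ℝ) - 1) * lam)) / (L d : ℝ)) *
          Real.exp (((q : ℝ) - 1) * lam)
        = p1 q (A d) (A d * P d) (d + 1) * ((d : ℝ) + 1) / (L d : ℝ) * (P d / P d) *
          (Real.exp (-(((q : ℝ) - 1) * lam)) * Real.exp (((q : ℝ) - 1) * lam)) := by ring
      _ = _ := by rw [h4, div_self hd']; ring
  set B1 : ℝ := Real.exp (-y) * Psi J c K x with hB1
  have hB10 : 0 ≤ B1 := mul_nonneg (Real.exp_pos _).le hPsi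
  have tcost : Tendsto (fun d : ℕ => c1 d * c2 d * B1 / ((1 - 1 / (q : ℝ)) * (1 - 1 / P d)) +
      c1 d * c2 d * (((d : ℝ) + 1) * (p1 q (A d) (A d * P d) (d + 1) * (1 / (L d : ℝ)))) /
        (1 - 1 / P d)) atTop
      (𝓝 (1 * 1 * B1 / ((1 - 1 / (q : ℝ)) * (1 - 0)) +
        1 * 1 * (z * Real.exp (-lam)) / (1 - 0))) := by
    refine (((tc1.mul tc2).mul_const B1).div ((tPinv.const_sub 1).const_mul _) ?_).add
      (((tc1.mul tc2).mul tcost2).div (tPinv.const_sub 1) (by norm_num))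
    rw [sub_zero, mul_one]
    exact hqinv.ne'
  have hclim : 1 * 1 * B1 / ((1 - 1 / (q : ℝ)) * (1 - 0)) +
        1 * 1 * (z * Real.exp (-lam)) / (1 - 0) < (1 + η) * D := by
    have h1 : 1 * 1 * B1 / ((1 - 1 / (q : ℝ)) * (1 - 0)) = (1 / (1 - 1 / (q : ℝ))) * B1 := by
      simp only [sub_zero, mul_one, one_mul]; ring
    rw [h1, sub_zero, div_one, one_mul, one_mul]
    have h2 : (1 / (1 - 1 / (q : ℝ))) * B1 ≤ (1 + η) * B1 :=
      mul_le_mul_of_nonneg_right hqη'.le hB10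
    have h3 : 0 < z * Real.exp (-lam) := mul_pos hz (Real.exp_pos _)
    nlinarith
  -- the window for the binomial sum
  have twin : Tendsto (fun d : ℕ => ((d : ℝ) + 1) / (A d * P d) * Real.exp (1 / (A d * P d)))
      atTop (𝓝 (lam * 1)) := by
    apply tQ.mul
    have h1 : Tendsto (fun d => 1 / (A d * P d)) atTop (𝓝 0) := by
      refine (tendsto_inv_atTop_zero.comp tAP).congr fun d => ?_
      simp
    have h2 := (Real.continuous_exp.tendsto 0).comp h1
    rw [Real.exp_zero] at h2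
    exact h2
  rw [mul_one] at twin
  filter_upwards [tΦ.eventually_lt_const hΦlim, tcost.eventually_lt_const hclim,
    twin.eventually_lt_const hx, tQ'.eventually_const_lt hy, tM.eventually_gt_atTop 0,
    tLtop.eventually_ge_atTop 1, sd_le_eventually hq2, eventually_ge_atTop 1,
    tP.eventually_gt_atTop 1] with d e1 e2 e3 e4 e5 e6 e7 e8 e9 n
  have hPp : (Pd q lam d).Prime := Pd_prime q lam d
  have hFact2 : Fact (Pd q lam d).Prime := ⟨hPp⟩
  have hcF : (Fintype.card (ZMod q) : ℝ) = q := by rw [ZMod.card]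
  have hcK : (Fintype.card (ZMod (Pd q lam d)) : ℝ) = P d := by rw [ZMod.card]
  have hA0 : 0 < A d := by positivity
  have hP0 : 0 < P d := by linarith
  have hd1 : (0 : ℝ) < (d : ℝ) + 1 := by positivity
  have hPinv : 0 < 1 - 1 / P d := by rw [sub_pos, div_lt_one hP0]; exact e9
  have hQc : Qc (ZMod q) (ZMod (Pd q lam d)) (sd q d) 1 = A d * P d := by
    unfold Qc
    rw [hcF, hcK, pow_one]
  have hQn : ((q ^ sd q d * Pd q lam d : ℕ) : ℝ) = A d * P d := by push_cast; rfl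
  have hlt1 : 0 < 1 - A d / (q : ℝ) ^ (d + 1) := by
    rw [sub_pos, div_lt_one (by positivity)]
    apply pow_lt_pow_right₀ (by linarith)
    omega
  have hc1pos : 0 < c1 d := by simp only [hc1]; positivity
  have hc2pos : 0 < c2 d := by simp only [hc2]; positivity
  have hNlt : (N₀ d : ℝ) < M d := by
    have h1 : (N₀ d : ℝ) ≤ (1 - ε) * M d := Nat.floor_le (mul_nonneg (by linarith) e5.le)
    nlinarith
  refine rnd_clean (ZMod q) (ZMod (Pd q lam d)) (m := d + 1 - sd q d) (m' := d) (s := sd q d)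
    (s' := 1) (c := c1 d) (c' := c2 d) (δ := δ) (L := L d) (M := M d) (N₀ := N₀ d)
    (by omega) rfl (by omega) e8 (sd_pos q d) (le_refl 1) ?_ ?_ hδ h0 e6 hNlt ?_ ?_ n
  · rw [hcF]
  · rw [hcK, pow_one]
    simp only [hc2]
    apply one_div_le_one_div_of_le hPinv
    have h1 : P d / P d ^ (d + 1) ≤ 1 / P d := by
      rw [div_le_div_iff₀ (by positivity) hP0, one_mul, ← pow_two]
      apply pow_le_pow_right₀ e9.le
      omega
    linarith
  · rw [hQc, hcF, hcK]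
    have h1 : ((d : ℝ) + 1) * sm (A d * P d) d δ ≤ B1 := by
      rw [← hQn]
      apply sm_le _ h0 hc0 hc hK _ hJ
      · rw [hQn]; exact e3.le
      · have h2 : 2 * 1 ≤ q ^ sd q d * Pd q lam d := by
          apply Nat.mul_le_mul
          · exact hq2.trans (Nat.le_self_pow (by have := sd_pos q d; omega) q)
          · exact hPp.one_lt.le
        omega
      · rw [hQn]; exact e4.le
    rw [le_div_iff₀ hd1]
    refine le_trans ?_ e2.le
    have hden : 0 < (1 - 1 / (q : ℝ)) * (1 - 1 / P d) := mul_pos hqinv hPinv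
    have h3 : (c1 d * c2 d * sm (A d * P d) d δ / ((1 - 1 / (q : ℝ)) * (1 - 1 / P d)) +
        c1 d * c2 d * p1 q ((q : ℝ) ^ sd q d) (A d * P d) (d + 1) * (1 / (L d : ℝ)) /
          (1 - 1 / P d)) * ((d : ℝ) + 1) =
        c1 d * c2 d * (((d : ℝ) + 1) * sm (A d * P d) d δ) / ((1 - 1 / (q : ℝ)) * (1 - 1 / P d)) +
        c1 d * c2 d * (((d : ℝ) + 1) * (p1 q (A d) (A d * P d) (d + 1) * (1 / (L d : ℝ)))) /
          (1 - 1 / P d) := by
      rw [hAdef]
      ring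
    rw [h3]
    apply add_le_add _ (le_refl _)
    apply div_le_div_of_nonneg_right _ hden.le
    exact mul_le_mul_of_nonneg_left h1 (mul_pos hc1pos hc2pos).le
  · rw [hQc, hcF, hcK]
    refine le_trans ?_ e1.le
    have hL1 : (1 : ℝ) ≤ L d := by exact_mod_cast e6
    have h1 : (q : ℝ) ^ (d + 1 - sd q d) / (q : ℝ) ^ (d + 1) = 1 / A d := by
      have : (q : ℝ) ^ (d + 1) = (q : ℝ) ^ (d + 1 - sd q d) * A d := by
        rw [hAdef, ← pow_add]; congr 1; omega
      rw [this]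
      field_simp
    have h2 : P d ^ d / P d ^ (d + 1) = 1 / P d := by
      rw [pow_succ]; field_simp
    have h3 : (1 - 1 / (L d : ℝ)) ^ N₀ d ≤ Real.exp (-((N₀ d : ℝ) / L d)) := by
      have h4 : 0 ≤ 1 - 1 / (L d : ℝ) := by
        rw [sub_nonneg, div_le_one (by linarith)]; exact hL1
      calc (1 - 1 / (L d : ℝ)) ^ N₀ d ≤ (Real.exp (-(1 / (L d : ℝ)))) ^ N₀ d :=
            pow_le_pow_left₀ h4 (Real.one_sub_le_exp_neg _) _
        _ = Real.exp (-((N₀ d : ℝ) / L d)) := by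
            rw [← Real.exp_nat_mul]; congr 1; ring
    have hpz : 0 ≤ pz (A d * P d) (d + 1) := by
      unfold pz
      apply pow_nonneg
      rw [← hQn, sub_nonneg, div_le_one]
      · have : 1 ≤ q ^ sd q d * Pd q lam d :=
          Nat.one_le_iff_ne_zero.2 (Nat.mul_ne_zero (pow_ne_zero _ (by omega)) hPp.ne_zero)
        exact_mod_cast this
      · rw [hQn]; positivity
    rw [h1, h2]
    apply add_le_add (le_refl _)
    apply mul_le_mul_of_nonneg_left _ (mul_pos hc1pos hc2pos).le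
    apply add_le_add (le_refl _)
    exact mul_le_mul_of_nonneg_right h3 hpz

end Pool.Agent.H315_Clean
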