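import Pool.Agent.H315_Clean.Transfer

/-!
# Leaders and clean sets, in a configuration, in its relations, and in a generator matrix
-/

open Finset Module

set_option autoImplicit false

namespace Pool.Agent.H315_Clean

section one

variable {F ι : Type*} [Field F] [Fintype ι] [DecidableEq ι]

theorem co_univ {m : ℕ} (X : ι → Fin m → F) (b : ι) :
    Co F X univ b ↔ ∀ r ∈ rel X, r b = 0 := by
  rw [co_iff_rel X univ b (mem_univ b)]
  constructor
  · intro h r hr
    exact h r (fun i hi => absurd (mem_univ i) hi) (mem_rel.1 hr)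
  · intro h r _ hr
    exact h r (mem_rel.2 hr)

theorem co_erase_univ {m : ℕ} (X : ι → Fin m → F) {a b : ι} (hab : b ≠ a) :
    Co F X (univ.erase a) b ↔ ∀ r ∈ rel X, r a = 0 → r b = 0 := by
  rw [co_iff_rel X (univ.erase a) b (by simp [hab])]
  constructor
  · intro h r hr hra
    refine h r (fun i hi => ?_) (mem_rel.1 hr)
    have : i = a := by simpa using hi
    rw [this, hra]
  · intro h r hr hs
    exact h r (mem_rel.2 hs) (hr a (by simp))

omit [Fintype ι] [DecidableEq ι] in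
theorem mem_row {s : ℕ} {G : ι → Fin s → F} {r : ι → F} :
    r ∈ row G ↔ ∃ φ : Fin s → F, ∀ i, r i = ∑ k, φ k * G i k := by
  unfold row
  rw [Submodule.mem_span_range_iff_exists_fun]
  constructor
  · rintro ⟨φ, hφ⟩
    refine ⟨φ, fun i => ?_⟩
    rw [← hφ]
    simp [Finset.sum_apply]
  · rintro ⟨φ, hφ⟩
    refine ⟨φ, ?_⟩
    funext i
    rw [hφ i]
    simp [Finset.sum_apply]

omit [Fintype ι] [DecidableEq ι] in
theorem row_zero_iff {s : ℕ} (G : ι → Fin s → F) (b : ι) :
    (∀ r ∈ row G, r b = 0) ↔ G b = 0 := by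
  constructor
  · intro h
    funext k
    have h1 := h (fun i => G i k) (Submodule.subset_span ⟨k, rfl⟩)
    exact h1
  · intro h r hr
    obtain ⟨φ, hφ⟩ := mem_row.1 hr
    rw [hφ b, h]
    simp

omit [Fintype ι] [DecidableEq ι] in
theorem row_ker_iff {s : ℕ} (G : ι → Fin s → F) (a b : ι) :
    (∀ r ∈ row G, r a = 0 → r b = 0) ↔ ∃ c : F, G b = c • G a := by
  constructor
  · intro h
    let L : Unit → ((Fin s → F) →ₗ[F] F) := fun _ => Fintype.linearCombination F (G a)
    let K : (Fin s → F) →ₗ[F] F := Fintype.linearCombination F (G b)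
    have h1 : ⨅ i, LinearMap.ker (L i) ≤ LinearMap.ker K := by
      intro φ hφ
      rw [Submodule.mem_iInf] at hφ
      have h2 := hφ ()
      simp only [L, K, LinearMap.mem_ker, Fintype.linearCombination_apply, smul_eq_mul] at h2 ⊢
      exact h (fun i => ∑ k, φ k * G i k) (mem_row.2 ⟨φ, fun i => rfl⟩) h2
    have h2 := mem_span_of_iInf_ker_le_ker h1
    rw [Submodule.mem_span_range_iff_exists_fun] at h2
    obtain ⟨c, hc⟩ := h2
    refine ⟨c (), ?_⟩
    funext k
    have h3 := LinearMap.congr_fun hc (Pi.single k 1)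
    simp only [L, K, univ_unique, sum_singleton, LinearMap.smul_apply,
      Fintype.linearCombination_apply, smul_eq_mul] at h3
    have h4 : ∀ w : Fin s → F, ∑ x, (Pi.single k 1 : Fin s → F) x * w x = w k := by
      intro w
      simp [Pi.single_apply]
    rw [h4, h4] at h3
    rw [Pi.smul_apply, smul_eq_mul, ← h3]
  · rintro ⟨c, hc⟩ r hr hra
    obtain ⟨φ, hφ⟩ := mem_row.1 hr
    rw [hφ a] at hra
    rw [hφ b, hc]
    have : ∑ k, φ k * (c • G a) k = c * ∑ k, φ k * G a k := by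
      rw [mul_sum]
      refine sum_congr rfl fun k _ => ?_
      rw [Pi.smul_apply, smul_eq_mul]
      ring
    rw [this, hra, mul_zero]

end one

section two

variable {F K ι κ : Type*} [Field F] [Field K] [DecidableEq ι] [DecidableEq κ]
variable {V W : Type*} [AddCommGroup V] [Module F V] [AddCommGroup W] [Module K W]

open Classical in
/-- the leaders: common coloops of the two configurations on `B` -/
noncomputable def Ld (F K : Type*) {V W ι : Type*} [Field F] [Field K] [AddCommGroup V] [Module F V]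
    [AddCommGroup W] [Module K W] [DecidableEq ι] (x : ι → V) (y : ι → W) (B : Finset ι) :
    Finset ι := B.filter fun b => Co F x B b ∧ Co K y B b

/-- clean sets -/
def Clean (F K : Type*) {V W ι : Type*} [Field F] [Field K] [AddCommGroup V] [Module F V]
    [AddCommGroup W] [Module K W] [DecidableEq ι] (x : ι → V) (y : ι → W) (B : Finset ι) : Prop :=
  Fu F x B ∧ Hy K y B ∧ Ld F K x y B = ∅

theorem mem_Ld {x : ι → V} {y : ι → W} {B : Finset ι} {b : ι} :
    b ∈ Ld F K x y B ↔ b ∈ B ∧ Co F x B b ∧ Co K y B b := by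
  simp [Ld]

theorem Ld_erase {x : ι → V} {y : ι → W} {B : Finset ι} {a : ι} (ha : a ∈ Ld F K x y B) :
    Ld F K x y (B.erase a) = (Ld F K x y B).erase a := by
  rw [mem_Ld] at ha
  obtain ⟨haB, h1, h2⟩ := ha
  ext b
  constructor
  · intro hb0
    obtain ⟨hb, h3, h4⟩ := mem_Ld.1 hb0
    have hb' := mem_erase.1 hb
    exact mem_erase.2 ⟨hb'.1, mem_Ld.2 ⟨hb'.2, (co_erase_iff h1 haB hb).1 h3,
      (co_erase_iff h2 haB hb).1 h4⟩⟩
  · intro hb0
    obtain ⟨hne, hb1⟩ := mem_erase.1 hb0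
    obtain ⟨hb, h3, h4⟩ := mem_Ld.1 hb1
    have hb' : b ∈ B.erase a := mem_erase.2 ⟨hne, hb⟩
    exact mem_Ld.2 ⟨hb', (co_erase_iff h1 haB hb').2 h3, (co_erase_iff h2 haB hb').2 h4⟩

theorem Ld_insert {x : ι → V} {y : ι → W} {B : Finset ι} {a : ι} (ha : a ∉ B)
    (hx : x a ∉ sp F x B) (hy : y a ∉ sp K y B) :
    Ld F K x y (insert a B) = insert a (Ld F K x y B) := by
  ext b
  rw [mem_Ld, mem_insert, mem_insert, mem_Ld]
  constructor
  · rintro ⟨hb | hb, h3, h4⟩
    · exact Or.inl hb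
    · exact Or.inr ⟨hb, (co_insert_iff ha hx hb).1 h3, (co_insert_iff ha hy hb).1 h4⟩
  · rintro (hb | ⟨hb, h3, h4⟩)
    · subst hb
      exact ⟨Or.inl rfl, Co.of_notMem ha hx, Co.of_notMem ha hy⟩
    · exact ⟨Or.inr hb, (co_insert_iff ha hx hb).2 h3, (co_insert_iff ha hy hb).2 h4⟩

theorem Ld_map (x : κ → V) (y : κ → W) (e : ι ↪ κ) (B : Finset ι) :
    Ld F K x y (B.map e) = (Ld F K (fun i => x (e i)) (fun i => y (e i)) B).map e := by
  ext b
  rw [mem_Ld, mem_map, mem_map]
  constructor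
  · rintro ⟨⟨i, hi, rfl⟩, h1, h2⟩
    exact ⟨i, mem_Ld.2 ⟨hi, (co_map x e B i).1 h1, (co_map y e B i).1 h2⟩, rfl⟩
  · rintro ⟨i, hi, rfl⟩
    obtain ⟨h0, h1, h2⟩ := mem_Ld.1 hi
    exact ⟨⟨i, h0, rfl⟩, (co_map x e B i).2 h1, (co_map y e B i).2 h2⟩

theorem clean_map (x : κ → V) (y : κ → W) (e : ι ↪ κ) (B : Finset ι) :
    Clean F K x y (B.map e) ↔ Clean F K (fun i => x (e i)) (fun i => y (e i)) B := by
  unfold Clean
  rw [fu_map, hy_map, Ld_map, map_eq_empty]

end two

section three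

variable {F K ι : Type*} [Field F] [Field K] [Fintype ι] [DecidableEq ι]

open Classical in
/-- leaders read off the two spaces of relations -/
noncomputable def ldr {F K ι : Type*} [Field F] [Field K] [Fintype ι] (U : Submodule F (ι → F))
    (U' : Submodule K (ι → K)) : Finset ι :=
  univ.filter fun b => (∀ r ∈ U, r b = 0) ∧ ∀ r ∈ U', r b = 0

/-- clean subsets `univ \ {a}` read off the two spaces of relations -/
def cln {F K ι : Type*} [Field F] [Field K] (U : Submodule F (ι → F))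
    (U' : Submodule K (ι → K)) (a : ι) : Prop :=
  ¬ (∀ r ∈ U, r a = 0) ∧ (∀ r ∈ U', r a = 0) ∧
    ∀ b, b ≠ a → ¬ ((∀ r ∈ U, r a = 0 → r b = 0) ∧ ∀ r ∈ U', r a = 0 → r b = 0)

theorem Ld_univ {m m' : ℕ} (X : ι → Fin m → F) (Y : ι → Fin m' → K) :
    Ld F K X Y univ = ldr (rel X) (rel Y) := by
  ext b
  rw [mem_Ld]
  simp only [mem_univ, true_and, ldr, mem_filter]
  rw [co_univ, co_univ]

theorem clean_univ_erase {m m' : ℕ} {X : ι → Fin m → F} {Y : ι → Fin m' → K} (a : ι)
    (hX : Fu F X univ) (hY : Fu K Y univ) :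
    Clean F K X Y (univ.erase a) ↔ cln (rel X) (rel Y) a := by
  unfold Clean cln
  have h1 : Fu F X (univ.erase a) ↔ ¬ ∀ r ∈ rel X, r a = 0 := by
    rw [fu_erase_iff X univ a (mem_univ a), ← co_univ]
    tauto
  have h2 : Hy K Y (univ.erase a) ↔ ∀ r ∈ rel Y, r a = 0 := by
    rw [← co_univ]
    constructor
    · intro h
      by_contra hc
      have h3 : Fu K Y (univ.erase a) := (fu_erase_iff Y univ a (mem_univ a)).2 ⟨hY, hc⟩
      unfold Hy at h
      unfold Fu at h3
      rw [h3, finrank_top] at h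
      omega
    · intro h
      exact h.hy (mem_univ a) hY
  have h3 : Ld F K X Y (univ.erase a) = ∅ ↔
      ∀ b, b ≠ a → ¬ ((∀ r ∈ rel X, r a = 0 → r b = 0) ∧ ∀ r ∈ rel Y, r a = 0 → r b = 0) := by
    rw [Finset.eq_empty_iff_forall_notMem]
    constructor
    · intro h b hb hh
      apply h b
      rw [mem_Ld, co_erase_univ X hb, co_erase_univ Y hb]
      exact ⟨by simp [hb], hh⟩
    · intro h b hb
      rw [mem_Ld] at hb
      have hne : b ≠ a := (mem_erase.1 hb.1).1
      rw [co_erase_univ X hne, co_erase_univ Y hne] at hb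
      exact h b hne hb.2
  rw [h1, h2, h3]

theorem ldr_row {s s' : ℕ} (G : ι → Fin s → F) (H : ι → Fin s' → K) (b : ι) :
    b ∈ ldr (row G) (row H) ↔ G b = 0 ∧ H b = 0 := by
  simp only [ldr, mem_filter, mem_univ, true_and]
  rw [row_zero_iff, row_zero_iff]

omit [Fintype ι] [DecidableEq ι] in
theorem cln_row {s s' : ℕ} (G : ι → Fin s → F) (H : ι → Fin s' → K) (a : ι) :
    cln (row G) (row H) a ↔ G a ≠ 0 ∧ H a = 0 ∧
      ∀ b, b ≠ a → ¬ (H b = 0 ∧ ∃ c : F, G b = c • G a) := by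
  unfold cln
  rw [row_zero_iff, row_zero_iff]
  simp only [row_ker_iff]
  constructor
  · rintro ⟨h1, h2, h3⟩
    refine ⟨h1, h2, fun b hb hh => h3 b hb ⟨hh.2, 0, ?_⟩⟩
    rw [hh.1, zero_smul]
  · rintro ⟨h1, h2, h3⟩
    refine ⟨h1, h2, fun b hb hh => h3 b hb ⟨?_, hh.1⟩⟩
    obtain ⟨c, hc⟩ := hh.2
    rw [hc, h2, smul_zero]

end three

end Pool.Agent.H315_Clean
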