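import Pool.Agent.H315_Clean.Lin
import Pool.Agent.H315_Clean.Ex

/-!
# Relations of a random configuration are the row space of a random generator matrix
-/

open Finset Module

set_option autoImplicit false

namespace Pool.Agent.H315_Clean

variable {F ι : Type*} [Field F] [Fintype F] [DecidableEq F] [Fintype ι] [DecidableEq ι]

/-- the relations of `X` -/
def rel {F ι : Type*} [Field F] [Fintype ι] {m : ℕ} (X : ι → Fin m → F) : Submodule F (ι → F) :=
  LinearMap.ker (Fintype.linearCombination F X)

/-- the row space of `G` -/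
def row {F ι : Type*} [Field F] {s : ℕ} (G : ι → Fin s → F) : Submodule F (ι → F) :=
  Submodule.span F (Set.range fun (k : Fin s) (i : ι) => G i k)

omit [Fintype F] [DecidableEq F] [DecidableEq ι] in
theorem mem_rel {m : ℕ} {X : ι → Fin m → F} {r : ι → F} :
    r ∈ rel X ↔ ∑ i, r i • X i = 0 := by
  unfold rel
  rw [LinearMap.mem_ker, Fintype.linearCombination_apply]

omit [Fintype F] [DecidableEq F] [DecidableEq ι] in
theorem mem_rel' {m : ℕ} {X : ι → Fin m → F} {r : ι → F} :
    r ∈ rel X ↔ ∀ j, ∑ i, r i * X i j = 0 := by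
  rw [mem_rel, funext_iff]
  simp [Finset.sum_apply]

omit [Fintype F] [DecidableEq F] [DecidableEq ι] in
theorem exists_functional {m : ℕ} {X : ι → Fin m → F} (h : ¬ Fu F X univ) :
    ∃ φ : Dual F (Fin m → F), φ ≠ 0 ∧ ∀ i, φ (X i) = 0 := by
  unfold Fu at h
  obtain ⟨f, hf, hle⟩ := Submodule.exists_le_ker_of_lt_top _ (lt_top_iff_ne_top.2 h)
  exact ⟨f, hf, fun i => hle (mem_sp X (mem_univ i))⟩

omit [Fintype F] [DecidableEq F] [DecidableEq ι] in
theorem fu_iff_li {m : ℕ} (X : ι → Fin m → F) :
    Fu F X univ ↔ LinearIndependent F (fun (k : Fin m) (i : ι) => X i k) := by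
  classical
  constructor
  · intro h
    rw [Fintype.linearIndependent_iff]
    intro g hg k
    let φ : (Fin m → F) →ₗ[F] F := Fintype.linearCombination F g
    have h1 : ∀ i, φ (X i) = 0 := by
      intro i
      have h2 := congrFun hg i
      simp only [Finset.sum_apply, Pi.smul_apply, smul_eq_mul, Pi.zero_apply] at h2
      rw [Fintype.linearCombination_apply, ← h2]
      refine sum_congr rfl fun j _ => ?_
      rw [smul_eq_mul, mul_comm]
    have h3 : sp F X univ ≤ LinearMap.ker φ := by
      unfold sp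
      rw [Submodule.span_le]
      rintro _ ⟨i, _, rfl⟩
      exact h1 i
    have h4 : (Pi.single k 1 : Fin m → F) ∈ LinearMap.ker φ := by
      apply h3
      have h5 : sp F X univ = ⊤ := h
      rw [h5]
      exact Submodule.mem_top
    rw [LinearMap.mem_ker, Fintype.linearCombination_apply] at h4
    simpa [Pi.single_apply] using h4
  · intro h
    by_contra hn
    obtain ⟨φ, hφ, hX⟩ := exists_functional hn
    apply hφ
    rw [Fintype.linearIndependent_iff] at h
    have h1 := h (fun k => φ (fun j => if k = j then 1 else 0)) (by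
      funext i
      have h2 := hX i
      rw [LinearMap.pi_apply_eq_sum_univ] at h2
      simp only [Finset.sum_apply, Pi.smul_apply, smul_eq_mul, Pi.zero_apply]
      refine Eq.trans ?_ h2
      refine sum_congr rfl fun j _ => ?_
      rw [smul_eq_mul, mul_comm])
    refine LinearMap.ext fun x => ?_
    rw [LinearMap.pi_apply_eq_sum_univ]
    simp [h1]

omit [Fintype F] [DecidableEq F] [DecidableEq ι] in
theorem finrank_rel {m s : ℕ} (hN : m + s = Fintype.card ι) {X : ι → Fin m → F}
    (h : Fu F X univ) : finrank F (rel X) = s := by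
  have h1 := LinearMap.finrank_range_add_finrank_ker (Fintype.linearCombination F X)
  have h2 : LinearMap.range (Fintype.linearCombination F X) = ⊤ := by
    rw [Fintype.range_linearCombination]
    unfold Fu sp at h
    rw [← h]
    simp
  rw [h2, finrank_top, Module.finrank_fin_fun, Module.finrank_fintype_fun_eq_card, ← hN] at h1
  unfold rel
  omega

/-- perpendicular -/
def Perp {F ι : Type*} [Field F] [Fintype ι] {m s : ℕ} (X : ι → Fin m → F)
    (G : ι → Fin s → F) : Prop := ∀ k j, ∑ i, G i k * X i j = 0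

omit [Fintype F] [DecidableEq F] [DecidableEq ι] in
theorem Perp.symm {m s : ℕ} {X : ι → Fin m → F} {G : ι → Fin s → F} (h : Perp X G) :
    Perp G X := by
  intro k j
  rw [← h j k]
  exact sum_congr rfl fun i _ => mul_comm _ _

omit [Fintype F] [DecidableEq F] [DecidableEq ι] in
theorem perp_comm {m s : ℕ} {X : ι → Fin m → F} {G : ι → Fin s → F} :
    Perp X G ↔ Perp G X := ⟨Perp.symm, Perp.symm⟩

omit [Fintype F] [DecidableEq F] [DecidableEq ι] in
theorem perp_iff {m s : ℕ} {X : ι → Fin m → F} {G : ι → Fin s → F} :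
    Perp X G ↔ ∀ k, (fun i => G i k) ∈ rel X := by
  unfold Perp
  constructor
  · intro h k
    rw [mem_rel']
    exact h k
  · intro h k
    exact mem_rel'.1 (h k)

omit [Fintype F] [DecidableEq F] [DecidableEq ι] in
theorem rel_eq_row {m s : ℕ} (hN : m + s = Fintype.card ι) {X : ι → Fin m → F}
    {G : ι → Fin s → F} (hX : Fu F X univ) (hG : Fu F G univ) (h : Perp X G) :
    rel X = row G := by
  symm
  apply Submodule.eq_of_le_of_finrank_eq
  · unfold row
    rw [Submodule.span_le]
    rintro _ ⟨k, rfl⟩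
    exact perp_iff.1 h k
  · rw [finrank_rel hN hX]
    unfold row
    rw [finrank_span_eq_card ((fu_iff_li G).1 hG), Fintype.card_fin]

/-- the number of bases -/
noncomputable def cB (F : Type*) [Field F] (s : ℕ) : ℕ :=
  Nat.card {ρ : Fin s → (Fin s → F) // LinearIndependent F ρ}

omit [Fintype F] [DecidableEq F] in
theorem cB_pos [Finite F] (s : ℕ) : 0 < cB F s := by
  unfold cB
  have : Nonempty {ρ : Fin s → (Fin s → F) // LinearIndependent F ρ} :=
    ⟨⟨fun i => Pi.single i 1, by
      have h := (Pi.basisFun F (Fin s)).linearIndependent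
      convert h using 1
      funext i
      simp⟩⟩
  exact Nat.card_pos

omit [Fintype F] [DecidableEq F] [DecidableEq ι] in
theorem count_perp {m s : ℕ} (hN : m + s = Fintype.card ι) {X : ι → Fin m → F}
    (hX : Fu F X univ) :
    Nat.card {G : ι → Fin s → F // Fu F G univ ∧ Perp X G} = cB F s := by
  have e : rel X ≃ₗ[F] (Fin s → F) := LinearEquiv.ofFinrankEq _ _ (by
    rw [finrank_rel hN hX, Module.finrank_fin_fun])
  unfold cB
  refine Nat.card_congr ?_
  let E1 : {G : ι → Fin s → F // Fu F G univ ∧ Perp X G} ≃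
      {ρ : Fin s → (ι → F) // (∀ k, ρ k ∈ rel X) ∧ LinearIndependent F ρ} :=
    Equiv.subtypeEquiv (Equiv.piComm fun _ _ => F) (by
      intro G
      rw [fu_iff_li, perp_iff, and_comm]
      rfl)
  let E2 : {ρ : Fin s → (ι → F) // (∀ k, ρ k ∈ rel X) ∧ LinearIndependent F ρ} ≃
      {ρ : Fin s → rel X // LinearIndependent F ρ} :=
    { toFun := fun ρ => ⟨fun k => ⟨ρ.1 k, ρ.2.1 k⟩, by
        rw [← LinearMap.linearIndependent_iff (Submodule.subtype (rel X))
          (Submodule.ker_subtype _)]
        exact ρ.2.2⟩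
      invFun := fun ρ => ⟨fun k => (ρ.1 k : ι → F), fun k => (ρ.1 k).2, by
        have h := (LinearMap.linearIndependent_iff (Submodule.subtype (rel X))
          (Submodule.ker_subtype _)).2 ρ.2
        exact h⟩
      left_inv := fun ρ => rfl
      right_inv := fun ρ => rfl }
  let E3 : {ρ : Fin s → rel X // LinearIndependent F ρ} ≃
      {ρ : Fin s → (Fin s → F) // LinearIndependent F ρ} :=
    Equiv.subtypeEquiv (Equiv.arrowCongr (Equiv.refl _) e.toEquiv) (by
      intro ρ
      have h := LinearMap.linearIndependent_iff (v := ρ) e.toLinearMap e.ker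
      rw [← h]
      rfl)
  exact (E1.trans E2).trans E3

open Classical in
theorem sum_ind_perp {m s : ℕ} (hN : m + s = Fintype.card ι) {X : ι → Fin m → F}
    (hX : Fu F X univ) :
    ∑ G : ι → Fin s → F, ind (Fu F G univ ∧ Perp X G) = (cB F s : ℝ) := by
  rw [← count_perp hN hX, Nat.card_eq_fintype_card, Fintype.card_subtype, card_filter]
  push_cast
  refine sum_congr rfl fun G _ => ?_
  by_cases h : Fu F G univ ∧ Perp X G
  · rw [ind_true h]; simp [h]
  · rw [ind_false h]; simp [h]

theorem sum_rel_row {m s : ℕ} (hN : m + s = Fintype.card ι) (h : Submodule F (ι → F) → ℝ) :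
    (∑ X : ι → Fin m → F, ind (Fu F X univ) * h (rel X)) * (cB F s : ℝ) =
      (∑ G : ι → Fin s → F, ind (Fu F G univ) * h (row G)) * (cB F m : ℝ) := by
  classical
  have hN' : s + m = Fintype.card ι := by rw [add_comm]; exact hN
  have e1 : (∑ X : ι → Fin m → F, ind (Fu F X univ) * h (rel X)) * (cB F s : ℝ) =
      ∑ X : ι → Fin m → F, ∑ G : ι → Fin s → F,
        ind (Fu F X univ ∧ Fu F G univ ∧ Perp X G) * h (rel X) := by
    rw [sum_mul]
    refine sum_congr rfl fun X _ => ?_
    by_cases hX : Fu F X univ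
    · rw [← sum_ind_perp (s := s) hN hX, mul_sum]
      refine sum_congr rfl fun G _ => ?_
      rw [ind_and (Fu F X univ), ind_true hX]
      ring
    · rw [ind_false hX, zero_mul, zero_mul]
      symm
      apply sum_eq_zero
      intro G _
      rw [ind_false (by tauto), zero_mul]
  have e2 : (∑ G : ι → Fin s → F, ind (Fu F G univ) * h (row G)) * (cB F m : ℝ) =
      ∑ G : ι → Fin s → F, ∑ X : ι → Fin m → F,
        ind (Fu F X univ ∧ Fu F G univ ∧ Perp X G) * h (row G) := by
    rw [sum_mul]
    refine sum_congr rfl fun G _ => ?_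
    by_cases hG : Fu F G univ
    · rw [← sum_ind_perp (s := m) hN' hG, mul_sum]
      refine sum_congr rfl fun X _ => ?_
      rw [ind_true hG]
      have : ind (Fu F X univ ∧ Fu F G univ ∧ Perp X G) = ind (Fu F X univ ∧ Perp G X) := by
        apply ind_congr
        rw [perp_comm (X := X)]
        tauto
      rw [this]
      ring
    · rw [ind_false hG, zero_mul, zero_mul]
      symm
      apply sum_eq_zero
      intro X _
      rw [ind_false (by tauto), zero_mul]
  rw [e1, e2, sum_comm]
  refine sum_congr rfl fun G _ => sum_congr rfl fun X _ => ?_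
  by_cases hh : Fu F X univ ∧ Fu F G univ ∧ Perp X G
  · rw [rel_eq_row hN hh.1 hh.2.1 hh.2.2]
  · rw [ind_false hh, zero_mul, zero_mul]

/-- a random configuration rarely fails to span -/
theorem ex_not_fu (m : ℕ) :
    ex (fun X : ι → Fin m → F => ind (¬ Fu F X univ)) ≤
      (Fintype.card F : ℝ) ^ m / (Fintype.card F : ℝ) ^ (Fintype.card ι) := by
  classical
  have : Finite (Dual F (Fin m → F)) := Module.finite_of_finite F
  have : Fintype (Dual F (Fin m → F)) := Fintype.ofFinite _
  set q : ℝ := (Fintype.card F : ℝ) with hq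
  have hq0 : 0 < q := by rw [hq]; exact_mod_cast Fintype.card_pos
  have h1 : ex (fun X : ι → Fin m → F => ind (¬ Fu F X univ)) ≤
      ex (fun X : ι → Fin m → F => ∑ φ ∈ (univ : Finset (Dual F (Fin m → F))).erase 0,
        ind (∀ i, φ (X i) = 0)) := by
    apply ex_mono
    intro X
    by_cases hX : Fu F X univ
    · rw [ind_false (by simpa using hX)]
      exact sum_nonneg fun φ _ => ind_nonneg _
    · rw [ind_true hX]
      obtain ⟨φ, hφ, hX'⟩ := exists_functional hX
      have h2 : ind (∀ i, φ (X i) = 0) ≤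
          ∑ φ ∈ (univ : Finset (Dual F (Fin m → F))).erase 0, ind (∀ i, φ (X i) = 0) :=
        single_le_sum (f := fun φ : Dual F (Fin m → F) => ind (∀ i, φ (X i) = 0))
          (fun φ _ => ind_nonneg _) (by simp [hφ])
      rw [ind_true hX'] at h2
      exact h2
  refine h1.trans ?_
  rw [ex_sum]
  have h2 : ∀ φ ∈ (univ : Finset (Dual F (Fin m → F))).erase 0,
      ex (fun X : ι → Fin m → F => ind (∀ i, φ (X i) = 0)) = 1 / q ^ (Fintype.card ι) := by
    intro φ hφ
    have hφ0 : φ ≠ 0 := (mem_erase.1 hφ).1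
    rw [ex_ind]
    have h3 : (univ.filter fun X : ι → Fin m → F => ∀ i, φ (X i) = 0) =
        Fintype.piFinset fun _ : ι => univ.filter fun w : Fin m → F => φ w = 0 := by
      ext X
      simp [Fintype.mem_piFinset]
    have h4 : (univ.filter fun w : Fin m → F => φ w = 0).card =
        Fintype.card F ^ (m - 1) := by
      have h5 : (univ.filter fun w : Fin m → F => φ w = 0).card =
          Fintype.card (LinearMap.ker φ) := by
        rw [← Fintype.card_subtype]
        exact Fintype.card_congr (Equiv.refl _)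
      rw [h5, Module.card_eq_pow_finrank (K := F)]
      have h6 := Module.Dual.finrank_ker_add_one_of_ne_zero hφ0
      rw [Module.finrank_fin_fun] at h6
      congr 1
      omega
    have hm : 1 ≤ m := by
      by_contra hm
      have : m = 0 := by omega
      subst this
      exact hφ0 (Subsingleton.elim _ _)
    rw [h3, Fintype.card_piFinset, prod_const, card_univ, h4, Fintype.card_fun, Fintype.card_fun,
      Fintype.card_fin]
    push_cast
    rw [← hq]
    have h7 : q ^ m = q ^ (m - 1) * q := by
      rw [← pow_succ]; congr 1; omega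
    rw [h7, mul_pow]
    have : (q ^ (m - 1)) ^ Fintype.card ι ≠ 0 := by positivity
    field_simp
  rw [sum_congr rfl h2, sum_const, nsmul_eq_mul, mul_one_div]
  apply div_le_div_of_nonneg_right _ (by positivity)
  have h8 : Fintype.card (Dual F (Fin m → F)) = Fintype.card F ^ m := by
    rw [Module.card_eq_pow_finrank (K := F), Subspace.dual_finrank_eq, Module.finrank_fin_fun]
  have h9 : ((univ : Finset (Dual F (Fin m → F))).erase 0).card ≤ Fintype.card F ^ m := by
    rw [← h8]
    exact card_le_univ _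
  calc (((univ : Finset (Dual F (Fin m → F))).erase 0).card : ℝ) ≤
      ((Fintype.card F ^ m : ℕ) : ℝ) := by exact_mod_cast h9
    _ = q ^ m := by push_cast; rw [hq]

theorem ex_fu_ge (m : ℕ) :
    1 - (Fintype.card F : ℝ) ^ m / (Fintype.card F : ℝ) ^ (Fintype.card ι) ≤
      ex (fun X : ι → Fin m → F => ind (Fu F X univ)) := by
  have h1 := ex_not_fu (F := F) (ι := ι) m
  have h2 : ex (fun X : ι → Fin m → F => ind (Fu F X univ)) =
      ex (fun X : ι → Fin m → F => 1 - ind (¬ Fu F X univ)) := by
    apply ex_congr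
    intro X
    by_cases hX : Fu F X univ
    · rw [ind_true hX, ind_false (by simpa using hX)]; ring
    · rw [ind_false hX, ind_true hX]; ring
  rw [h2, ex_sub, ex_const]
  linarith

/-- the comparison of the two models, for nonnegative weights -/
theorem ex_rel_le {m s : ℕ} (hN : m + s = Fintype.card ι) (hm : 1 ≤ m)
    (h : Submodule F (ι → F) → ℝ) (h0 : ∀ U, 0 ≤ h U) {c : ℝ}
    (hc : 1 / (1 - (Fintype.card F : ℝ) ^ s / (Fintype.card F : ℝ) ^ (Fintype.card ι)) ≤ c) :
    ex (fun X : ι → Fin m → F => ind (Fu F X univ) * h (rel X)) ≤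
      c * ex (fun G : ι → Fin s → F => h (row G)) := by
  classical
  set q : ℝ := (Fintype.card F : ℝ) with hq
  have hq1 : 1 < q := by rw [hq]; exact_mod_cast Fintype.one_lt_card
  have hq0 : 0 < q := by linarith
  have hlt : 0 < 1 - q ^ s / q ^ (Fintype.card ι) := by
    rw [sub_pos, div_lt_one (by positivity)]
    exact pow_lt_pow_right₀ hq1 (by omega)
  have hG := ex_fu_ge (F := F) (ι := ι) s
  rw [← hq] at hG
  have hGpos : 0 < ex (fun G : ι → Fin s → F => ind (Fu F G univ)) := hlt.trans_le hG
  have hcs : (0 : ℝ) < (cB F s : ℝ) := by exact_mod_cast cB_pos s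
  have hcm : (0 : ℝ) < (cB F m : ℝ) := by exact_mod_cast cB_pos m
  have k1 := sum_rel_row (F := F) (ι := ι) hN h
  have k2 := sum_rel_row (F := F) (ι := ι) hN (fun _ => 1)
  simp only [mul_one] at k2
  set A := ∑ X : ι → Fin m → F, ind (Fu F X univ) * h (rel X) with hA
  set B := ∑ G : ι → Fin s → F, ind (Fu F G univ) * h (row G) with hB
  set A1 := ∑ X : ι → Fin m → F, ind (Fu F X univ) with hA1
  set B1 := ∑ G : ι → Fin s → F, ind (Fu F G univ) with hB1
  have hNX : (0 : ℝ) < (Fintype.card (ι → Fin m → F) : ℝ) := by exact_mod_cast Fintype.card_pos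
  have hNG : (0 : ℝ) < (Fintype.card (ι → Fin s → F) : ℝ) := by exact_mod_cast Fintype.card_pos
  have hB1pos : 0 < B1 := by
    unfold ex at hGpos
    rw [← hB1] at hGpos
    exact (div_pos_iff_of_pos_right hNG).1 hGpos
  -- `A * B1 = A1 * B`
  have k3 : A * B1 = A1 * B := by
    have k4 : (A * B1) * (cB F s : ℝ) * (cB F m : ℝ) = (A1 * B) * (cB F s : ℝ) * (cB F m : ℝ) := by
      calc (A * B1) * (cB F s : ℝ) * (cB F m : ℝ) = (A * (cB F s : ℝ)) * (B1 * (cB F m : ℝ)) := by
            ring
        _ = (B * (cB F m : ℝ)) * (A1 * (cB F s : ℝ)) := by rw [k1, k2]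
        _ = (A1 * B) * (cB F s : ℝ) * (cB F m : ℝ) := by ring
    exact mul_right_cancel₀ hcs.ne' (mul_right_cancel₀ hcm.ne' k4)
  have hB0 : 0 ≤ B := sum_nonneg fun G _ => mul_nonneg (ind_nonneg _) (h0 _)
  have hA1le : A1 ≤ (Fintype.card (ι → Fin m → F) : ℝ) := by
    calc A1 ≤ ∑ X : ι → Fin m → F, (1 : ℝ) := sum_le_sum fun X _ => ind_le_one _
      _ = _ := by rw [sum_const, card_univ, nsmul_eq_mul, mul_one]
  have hBle : B ≤ ∑ G : ι → Fin s → F, h (row G) := by
    apply sum_le_sum
    intro G _
    calc ind (Fu F G univ) * h (row G) ≤ 1 * h (row G) :=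
          mul_le_mul_of_nonneg_right (ind_le_one _) (h0 _)
      _ = h (row G) := one_mul _
  -- conclusion
  have k5 : ex (fun X : ι → Fin m → F => ind (Fu F X univ) * h (rel X)) ≤ B / B1 := by
    unfold ex
    rw [← hA, div_le_div_iff₀ hNX hB1pos, k3, mul_comm B]
    exact mul_le_mul_of_nonneg_right hA1le hB0
  have k6 : B / B1 ≤ ex (fun G : ι → Fin s → F => h (row G)) /
      ex (fun G : ι → Fin s → F => ind (Fu F G univ)) := by
    unfold ex
    rw [← hB1, div_div_div_cancel_right₀ hNG.ne']
    exact div_le_div_of_nonneg_right hBle hB1pos.le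
  refine (k5.trans k6).trans ?_
  have hh : 0 ≤ ex (fun G : ι → Fin s → F => h (row G)) := ex_nonneg fun G => h0 _
  have k7 : ex (fun G : ι → Fin s → F => h (row G)) /
      ex (fun G : ι → Fin s → F => ind (Fu F G univ)) ≤
      ex (fun G : ι → Fin s → F => h (row G)) / (1 - q ^ s / q ^ (Fintype.card ι)) :=
    div_le_div_of_nonneg_left hh hlt hG
  refine k7.trans ?_
  rw [div_eq_mul_one_div, mul_comm]
  exact mul_le_mul_of_nonneg_right hc hh

end Pool.Agent.H315_Clean
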